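import Mathlib

/-!
# Primes in all windows of length `N ^ (1 - η)`: definitions

Elementary proof (no zeta function): the fundamental lemma of the sieve and the first theorem of Mertens give the formula of Selberg
in short windows, this one gives the triple products of primes, and a Fourier argument bounds them from below.
-/

set_option autoImplicit false

namespace Pool.Agent.Helper34.HO

open Finset
open scoped ArithmeticFunction.Moebius

/-- `n` is positive and has no prime factor `< z`. -/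
def Rough (z : ℝ) (n : ℕ) : Prop := 0 < n ∧ ∀ p : ℕ, p.Prime → p ∣ n → z ≤ (p : ℝ)

noncomputable instance (z : ℝ) : DecidablePred (Rough z) := Classical.decPred _

/-- The rough numbers of `[e^a, e^(a+h))`. -/
noncomputable def Rw (z a h : ℝ) : Finset ℕ :=
  (range ⌈Real.exp (a + h)⌉₊).filter fun n => Real.exp a ≤ (n : ℝ) ∧ Rough z n

/-- The rough numbers `≤ e^b`. -/
noncomputable def Rd (z b : ℝ) : Finset ℕ := (Icc 1 ⌊Real.exp b⌋₊).filter (Rough z)

/-- The product of `1 - 1/p` over the primes `p < z`. -/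
noncomputable def Vz (z : ℝ) : ℝ := ∏ p ∈ (range ⌈z⌉₊).filter Nat.Prime, (1 - 1 / (p : ℝ))

/-- The fundamental lemma of the sieve for the windows `[e^a, e^(a+h))`, with the relative error `ε`, level `z ^ (s + 1)`. -/
def FL (s : ℕ) (ε z₀ : ℝ) : Prop :=
  ∀ z : ℝ, z₀ ≤ z → ∀ a h : ℝ, 0 ≤ h → z ^ (s + 1) ≤ Real.exp (a + h) - Real.exp a →
    |((Rw z a h).card : ℝ) - Vz z * (Real.exp (a + h) - Real.exp a)| ≤ ε * (Vz z * (Real.exp (a + h) - Real.exp a))

/-- The function `Λ₂` of Selberg. -/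
noncomputable def L2 (n : ℕ) : ℝ := ∑ d ∈ n.divisors, (μ d : ℝ) * (Real.log n - Real.log d) ^ 2

/-- The truncated version of `L2`, with the centre `a` and the divisors `≤ e^b`. -/
noncomputable def Wt (a b : ℝ) (n : ℕ) : ℝ :=
  ∑ d ∈ n.divisors.filter (fun d : ℕ => (d : ℝ) ≤ Real.exp b), (μ d : ℝ) * (a - Real.log d) ^ 2

/-- The main term. -/
noncomputable def Qz (z a b : ℝ) : ℝ := ∑ d ∈ Rd z b, (μ d : ℝ) / (d : ℝ) * (a - Real.log d) ^ 2

/-- The primes of `[z, e^b)`. -/
noncomputable def Pz (z b : ℝ) : Finset ℕ := (range ⌈Real.exp b⌉₊).filter fun p => p.Prime ∧ z ≤ (p : ℝ)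

/-- The weight `log p / p`. -/
noncomputable def wp (p : ℕ) : ℝ := Real.log p / p

/-- The place `log p`. -/
noncomputable def lp (p : ℕ) : ℝ := Real.log p

/-- The mass of `[a, a + h)`. -/
noncomputable def t1 (P : Finset ℕ) (w l : ℕ → ℝ) (a h : ℝ) : ℝ := ∑ p ∈ P, if a ≤ l p ∧ l p < a + h then w p else 0

/-- The mass of `[a, a + h)` of the twofold convolution. -/
noncomputable def t2 (P : Finset ℕ) (w l : ℕ → ℝ) (a h : ℝ) : ℝ :=
  ∑ p ∈ P, ∑ q ∈ P, if a ≤ l p + l q ∧ l p + l q < a + h then w p * w q else 0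

/-- The mass of `[a, a + h)` of the threefold convolution. -/
noncomputable def t3 (P : Finset ℕ) (w l : ℕ → ℝ) (a h : ℝ) : ℝ :=
  ∑ p ∈ P, ∑ q ∈ P, ∑ r ∈ P, if a ≤ l p + l q + l r ∧ l p + l q + l r < a + h then w p * w q * w r else 0

end Pool.Agent.Helper34.HO
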