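import Pool.Agent.Helper34.HO.Defs
import Pool.Agent.Helper59.PW.Four

/-! Block HO-12: the lower bound for triple products, (L) of the paper, from `Pool.Agent.Helper59.PW.four` (helper59) with `f j = t1 P w l (j h) h / h` for `A / 5 ≤ j h ≤ A - h`, `f j = 1` elsewhere, `n = ⌈A / h⌉`, `p = q = n / 4`, `v = n / 100`, `w = 20 v`. -/

set_option autoImplicit false

namespace Pool.Agent.Helper34.HO

open Finset

/-- The indicator function of the cell `[k h, (k + 1) h)`. -/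
noncomputable def l3_I (h : ℝ) (k : ℕ) (x : ℝ) : ℝ := if (k : ℝ) * h ≤ x ∧ x < k * h + h then 1 else 0

lemma l3_I_nonneg (h : ℝ) (k : ℕ) (x : ℝ) : 0 ≤ l3_I h k x := by
  unfold l3_I
  split_ifs <;> norm_num

lemma l3_unique {h : ℝ} (hh : 0 < h) {i j : ℕ} {x : ℝ} (hi : (i : ℝ) * h ≤ x ∧ x < i * h + h)
    (hj : (j : ℝ) * h ≤ x ∧ x < j * h + h) : i = j := by
  have h1 : (i : ℝ) < j + 1 := by
    have : (i : ℝ) * h < (j + 1) * h := by linarith
    exact lt_of_mul_lt_mul_right this hh.le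
  have h2 : (j : ℝ) < i + 1 := by
    have : (j : ℝ) * h < (i + 1) * h := by linarith
    exact lt_of_mul_lt_mul_right this hh.le
  have h3 : i < j + 1 := by exact_mod_cast h1
  have h4 : j < i + 1 := by exact_mod_cast h2
  omega

lemma l3_sum_I {h : ℝ} (hh : 0 < h) (s : Finset ℕ) (x : ℝ) (g : ℕ → ℝ) (i : ℕ) (hi : i ∈ s)
    (hx : (i : ℝ) * h ≤ x ∧ x < i * h + h) : ∑ k ∈ s, l3_I h k x * g k = g i := by
  rw [Finset.sum_eq_single_of_mem i hi]
  · unfold l3_I
    rw [if_pos hx, one_mul]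
  · intro b _ hb
    unfold l3_I
    rw [if_neg, zero_mul]
    intro hb'
    exact hb (l3_unique hh hb' hx)

lemma l3_sum_I_zero {h : ℝ} (s : Finset ℕ) (x : ℝ) (g : ℕ → ℝ)
    (hx : ∀ i ∈ s, ¬ ((i : ℝ) * h ≤ x ∧ x < i * h + h)) : ∑ k ∈ s, l3_I h k x * g k = 0 := by
  apply Finset.sum_eq_zero
  intro k hk
  unfold l3_I
  rw [if_neg (hx k hk), zero_mul]

/-- Every triple is in one cell only. -/
lemma l3_point {A h : ℝ} (hh : 0 < h) (n p q v w : ℕ) (hn : A ≤ n * h) (hn' : (n : ℝ) * h ≤ A + h)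
    (hpq : p + v + q + w ≤ n) (X Y Z : ℝ) :
    ∑ i ∈ Ico p (p + v), ∑ j ∈ Ico q (q + w), l3_I h i X * l3_I h j Y *
      (l3_I h (n - i - j) Z + l3_I h (n + 1 - i - j) Z) ≤
      if A ≤ X + Y + Z ∧ X + Y + Z < A + 5 * h then 1 else 0 := by
  have h0 : (0 : ℝ) ≤ if A ≤ X + Y + Z ∧ X + Y + Z < A + 5 * h then 1 else 0 := by
    split_ifs <;> norm_num
  have e1 : ∀ i, ∑ j ∈ Ico q (q + w), l3_I h i X * l3_I h j Y *
      (l3_I h (n - i - j) Z + l3_I h (n + 1 - i - j) Z) = l3_I h i X * ∑ j ∈ Ico q (q + w), l3_I h j Y *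
      (l3_I h (n - i - j) Z + l3_I h (n + 1 - i - j) Z) := by
    intro i
    rw [Finset.mul_sum]
    apply Finset.sum_congr rfl
    intro j _
    ring
  simp only [e1]
  by_cases hX : ∃ i ∈ Ico p (p + v), (i : ℝ) * h ≤ X ∧ X < i * h + h
  · obtain ⟨i, hi, hiX⟩ := hX
    rw [l3_sum_I hh _ X _ i hi hiX]
    by_cases hY : ∃ j ∈ Ico q (q + w), (j : ℝ) * h ≤ Y ∧ Y < j * h + h
    · obtain ⟨j, hj, hjY⟩ := hY
      rw [l3_sum_I hh _ Y _ j hj hjY]
      rw [Finset.mem_Ico] at hi hj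
      have c1 : ((n - i - j : ℕ) : ℝ) = n - i - j := by
        rw [Nat.cast_sub (by omega), Nat.cast_sub (by omega)]
      have c2 : ((n + 1 - i - j : ℕ) : ℝ) = n + 1 - i - j := by
        rw [Nat.cast_sub (by omega), Nat.cast_sub (by omega)]
        push_cast
        ring
      by_cases hZ1 : ((n - i - j : ℕ) : ℝ) * h ≤ Z ∧ Z < ((n - i - j : ℕ) : ℝ) * h + h
      · have hZ2 : ¬ (((n + 1 - i - j : ℕ) : ℝ) * h ≤ Z ∧ Z < ((n + 1 - i - j : ℕ) : ℝ) * h + h) := by
          intro hZ2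
          have := l3_unique hh hZ1 hZ2
          omega
        unfold l3_I
        rw [if_pos hZ1, if_neg hZ2, if_pos]
        · norm_num
        · rw [c1] at hZ1
          constructor <;> nlinarith [hZ1.1, hZ1.2, hiX.1, hiX.2, hjY.1, hjY.2]
      · by_cases hZ2 : ((n + 1 - i - j : ℕ) : ℝ) * h ≤ Z ∧ Z < ((n + 1 - i - j : ℕ) : ℝ) * h + h
        · unfold l3_I
          rw [if_neg hZ1, if_pos hZ2, if_pos]
          · norm_num
          · rw [c2] at hZ2
            constructor <;> nlinarith [hZ2.1, hZ2.2, hiX.1, hiX.2, hjY.1, hjY.2]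
        · have e2 : l3_I h (n - i - j) Z = 0 := by unfold l3_I; rw [if_neg hZ1]
          have e3 : l3_I h (n + 1 - i - j) Z = 0 := by unfold l3_I; rw [if_neg hZ2]
          rw [e2, e3, add_zero]
          exact h0
    · rw [l3_sum_I_zero]
      · exact h0
      · intro j hj hj'
        exact hY ⟨j, hj, hj'⟩
  · rw [l3_sum_I_zero]
    · exact h0
    · intro i hi hi'
      exact hX ⟨i, hi, hi'⟩

lemma l3_t1 (P : Finset ℕ) (w l : ℕ → ℝ) (k : ℕ) (h : ℝ) :
    t1 P w l (k * h) h = ∑ x ∈ P, w x * l3_I h k (l x) := by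
  unfold t1 l3_I
  apply Finset.sum_congr rfl
  intro x _
  split_ifs <;> simp

/-- The cells of the triples. -/
lemma l3_cells {A h : ℝ} (hh : 0 < h) (P : Finset ℕ) (w l : ℕ → ℝ) (hw : ∀ p ∈ P, 0 ≤ w p) (n p q v u : ℕ)
    (hn : A ≤ n * h) (hn' : (n : ℝ) * h ≤ A + h) (hpq : p + v + q + u ≤ n) :
    ∑ i ∈ Ico p (p + v), ∑ j ∈ Ico q (q + u), t1 P w l (i * h) h * t1 P w l (j * h) h *
      (t1 P w l ((n - i - j : ℕ) * h) h + t1 P w l ((n + 1 - i - j : ℕ) * h) h) ≤ t3 P w l A (5 * h) := by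
  have e1 : ∀ i j k k' : ℕ, t1 P w l (i * h) h * t1 P w l (j * h) h *
      (t1 P w l (k * h) h + t1 P w l (k' * h) h) = ∑ x ∈ P, ∑ y ∈ P, ∑ z ∈ P,
        w x * w y * w z * (l3_I h i (l x) * l3_I h j (l y) * (l3_I h k (l z) + l3_I h k' (l z))) := by
    intro i j k k'
    rw [l3_t1, l3_t1, l3_t1, l3_t1, ← Finset.sum_add_distrib, Finset.sum_mul_sum, Finset.sum_mul]
    apply Finset.sum_congr rfl
    intro x _
    rw [Finset.sum_mul]
    apply Finset.sum_congr rfl
    intro y _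
    rw [Finset.mul_sum]
    apply Finset.sum_congr rfl
    intro z _
    ring
  simp only [e1]
  have e2 : ∑ i ∈ Ico p (p + v), ∑ j ∈ Ico q (q + u), ∑ x ∈ P, ∑ y ∈ P, ∑ z ∈ P,
        w x * w y * w z * (l3_I h i (l x) * l3_I h j (l y) *
          (l3_I h (n - i - j) (l z) + l3_I h (n + 1 - i - j) (l z))) =
      ∑ x ∈ P, ∑ y ∈ P, ∑ z ∈ P, w x * w y * w z * ∑ i ∈ Ico p (p + v), ∑ j ∈ Ico q (q + u),
        (l3_I h i (l x) * l3_I h j (l y) *
          (l3_I h (n - i - j) (l z) + l3_I h (n + 1 - i - j) (l z))) := by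
    simp only [Finset.mul_sum]
    rw [Finset.sum_congr rfl (fun i _ => Finset.sum_comm), Finset.sum_comm]
    apply Finset.sum_congr rfl
    intro x _
    rw [Finset.sum_congr rfl (fun i _ => Finset.sum_comm), Finset.sum_comm]
    apply Finset.sum_congr rfl
    intro y _
    rw [Finset.sum_congr rfl (fun i _ => Finset.sum_comm), Finset.sum_comm]
  rw [e2]
  unfold t3
  apply Finset.sum_le_sum
  intro x hx
  apply Finset.sum_le_sum
  intro y hy
  apply Finset.sum_le_sum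
  intro z hz
  have h1 := l3_point hh n p q v u hn hn' hpq (l x) (l y) (l z)
  have h2 : 0 ≤ w x * w y * w z := mul_nonneg (mul_nonneg (hw x hx) (hw y hy)) (hw z hz)
  calc w x * w y * w z * ∑ i ∈ Ico p (p + v), ∑ j ∈ Ico q (q + u),
        (l3_I h i (l x) * l3_I h j (l y) *
          (l3_I h (n - i - j) (l z) + l3_I h (n + 1 - i - j) (l z)))
      ≤ w x * w y * w z * (if A ≤ l x + l y + l z ∧ l x + l y + l z < A + 5 * h then 1 else 0) :=
        mul_le_mul_of_nonneg_left h1 h2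
    _ = _ := by
        split_ifs <;> simp

lemma l3_add (P : Finset ℕ) (w l : ℕ → ℝ) (a b c : ℝ) (hb : 0 ≤ b) (hc : 0 ≤ c) :
    t1 P w l a b + t1 P w l (a + b) c = t1 P w l a (b + c) := by
  unfold t1
  rw [← Finset.sum_add_distrib]
  apply Finset.sum_congr rfl
  intro x _
  by_cases h1 : a ≤ l x ∧ l x < a + b
  · rw [if_pos h1, if_neg (by intro h2; linarith [h2.1, h1.2]), if_pos ⟨h1.1, by linarith [h1.2]⟩, add_zero]
  · rw [if_neg h1, zero_add]
    by_cases h2 : a + b ≤ l x ∧ l x < a + b + c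
    · rw [if_pos h2, if_pos ⟨by linarith [h2.1], by linarith [h2.2]⟩]
    · rw [if_neg h2, if_neg]
      intro h3
      by_cases h4 : l x < a + b
      · exact h1 ⟨h3.1, h4⟩
      · exact h2 ⟨not_lt.1 h4, by linarith [h3.2]⟩

lemma l3_tele (P : Finset ℕ) (w l : ℕ → ℝ) {h : ℝ} (hh : 0 < h) (m0 m1 : ℕ) (hm : m0 ≤ m1) :
    ∑ j ∈ Ico m0 m1, t1 P w l (j * h) h = t1 P w l (m0 * h) (m1 * h - m0 * h) := by
  induction m1, hm using Nat.le_induction with
  | base =>
    simp only [Finset.Ico_self, Finset.sum_empty, sub_self, t1]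
    symm
    apply Finset.sum_eq_zero
    intro x _
    rw [if_neg]
    intro h1
    linarith [h1.1, h1.2]
  | succ m1 hm ih =>
    rw [Finset.sum_Ico_succ_top hm, ih]
    have h1 : (m0 : ℝ) * h ≤ m1 * h := by
      apply mul_le_mul_of_nonneg_right _ hh.le
      exact_mod_cast hm
    have h2 := l3_add P w l (m0 * h) (m1 * h - m0 * h) h (by linarith) hh.le
    rw [show (m0 : ℝ) * h + (m1 * h - m0 * h) = m1 * h by ring] at h2
    rw [h2]
    congr 1
    push_cast
    ring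

theorem low3 (M : ℝ) (hM : 0 ≤ M) : ∃ A₀ : ℝ, ∀ (P : Finset ℕ) (w l : ℕ → ℝ) (A h : ℝ), A₀ ≤ A → 0 < h → h ≤ 1 → (∀ p ∈ P, 0 ≤ w p) →
    (∀ a : ℝ, A / 5 ≤ a → a ≤ A → t1 P w l a h ≤ 2001 / 1000 * h) →
    (∀ u v : ℝ, A / 5 ≤ u → u ≤ v → v ≤ A → |t1 P w l u (v - u) - (v - u)| ≤ M) →
    A ^ 2 * h / 2000 ≤ t3 P w l A (5 * h) := by
  obtain ⟨η, hη, v₀, hfour⟩ := Pool.Agent.Helper59.PW.four
  refine ⟨2000 + 200 * (v₀ : ℝ) + 200 * (M / η), ?_⟩
  intro P w l A h hA hh hh1 hw hup hMert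
  have hMη : 0 ≤ M / η := div_nonneg hM hη.le
  have hv₀ : (0 : ℝ) ≤ v₀ := Nat.cast_nonneg _
  have hA0 : 2000 ≤ A := by linarith
  have hAh : A ≤ A / h := by
    rw [le_div_iff₀ hh]
    nlinarith
  set n : ℕ := ⌈A / h⌉₊ with hn
  have hn1 : A / h ≤ n := Nat.le_ceil _
  have hn2 : (n : ℝ) < A / h + 1 := Nat.ceil_lt_add_one (by positivity)
  have hnA : A ≤ n * h := by
    rw [div_le_iff₀ hh] at hn1
    exact hn1
  have hnA' : (n : ℝ) * h ≤ A + h := by
    have h1 : (n : ℝ) * h ≤ (A / h + 1) * h := mul_le_mul_of_nonneg_right hn2.le hh.le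
    have h2 : (A / h + 1) * h = A + h := by field_simp
    linarith
  have hn2000 : 2000 ≤ n := by
    have : (2000 : ℝ) ≤ n := by linarith
    exact_mod_cast this
  set v : ℕ := n / 100 with hv
  set p : ℕ := n / 4 with hp
  have hvn : (n : ℝ) / 100 - 1 ≤ v := by
    have h1 : n < 100 * (v + 1) := by omega
    have h2 : (n : ℝ) < 100 * (v + 1) := by exact_mod_cast h1
    linarith
  -- the function
  set f : ℕ → ℝ := fun j => if A / 5 ≤ (j : ℝ) * h ∧ (j : ℝ) * h + h ≤ A then t1 P w l (j * h) h / h else 1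
    with hf
  have ht1 : ∀ a b : ℝ, 0 ≤ t1 P w l a b := by
    intro a b
    unfold t1
    apply Finset.sum_nonneg
    intro x hx
    split_ifs
    · exact hw x hx
    · exact le_refl 0
  have hf0 : ∀ j, 0 ≤ f j := by
    intro j
    simp only [hf]
    split_ifs
    · exact div_nonneg (ht1 _ _) hh.le
    · norm_num
  have hf1 : ∀ j, f j ≤ 2001 / 1000 := by
    intro j
    simp only [hf]
    split_ifs with h1
    · rw [div_le_iff₀ hh]
      exact hup _ h1.1 (by linarith [h1.2])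
    · norm_num
  have hsum : ∀ m m' : ℕ, m ≤ m' → |∑ j ∈ Ico m m', (f j - 1)| ≤ M / h := by
    intro m m' hmm
    set m0 : ℕ := max m ⌈A / 5 / h⌉₊ with hm0
    set m1 : ℕ := min m' ⌊A / h⌋₊ with hm1
    have e1 : ∀ j : ℕ, (A / 5 ≤ (j : ℝ) * h ∧ (j : ℝ) * h + h ≤ A) ↔ (⌈A / 5 / h⌉₊ ≤ j ∧ j < ⌊A / h⌋₊) := by
      intro j
      have e2 : A / 5 ≤ (j : ℝ) * h ↔ ⌈A / 5 / h⌉₊ ≤ j := by
        rw [Nat.ceil_le, div_le_iff₀ hh]
      have e3 : (j : ℝ) * h + h ≤ A ↔ j < ⌊A / h⌋₊ := by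
        rw [← Nat.add_one_le_iff, Nat.le_floor_iff (by positivity), le_div_iff₀ hh]
        push_cast
        constructor <;> intro h1 <;> linarith
      rw [e2, e3]
    have e4 : ∑ j ∈ Ico m m', (f j - 1) = ∑ j ∈ Ico m0 m1, (t1 P w l (j * h) h / h - 1) := by
      have e5 : ∑ j ∈ Ico m m', (f j - 1) = ∑ j ∈ Ico m m',
          if A / 5 ≤ (j : ℝ) * h ∧ (j : ℝ) * h + h ≤ A then (t1 P w l (j * h) h / h - 1) else 0 := by
        apply Finset.sum_congr rfl
        intro j _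
        simp only [hf]
        split_ifs
        · rfl
        · norm_num
      rw [e5, ← Finset.sum_filter]
      apply Finset.sum_congr _ (fun _ _ => rfl)
      ext j
      rw [Finset.mem_filter, Finset.mem_Ico, Finset.mem_Ico, e1 j, hm0, hm1, max_le_iff, lt_min_iff]
      tauto
    rw [e4]
    by_cases hm : m0 ≤ m1
    · rw [Finset.sum_sub_distrib, ← Finset.sum_div, l3_tele P w l hh m0 m1 hm]
      simp only [Finset.sum_const, Nat.card_Ico, nsmul_eq_mul, mul_one]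
      rw [Nat.cast_sub hm]
      have h1 : A / 5 ≤ (m0 : ℝ) * h := by
        have h2 : ⌈A / 5 / h⌉₊ ≤ m0 := le_max_right _ _
        rw [Nat.ceil_le, div_le_iff₀ hh] at h2
        exact h2
      have h2 : (m1 : ℝ) * h ≤ A := by
        have h3 : m1 ≤ ⌊A / h⌋₊ := min_le_right _ _
        rw [Nat.le_floor_iff (by positivity), le_div_iff₀ hh] at h3
        exact h3
      have h3 : (m0 : ℝ) * h ≤ m1 * h := by
        apply mul_le_mul_of_nonneg_right _ hh.le
        exact_mod_cast hm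
      have h4 := hMert (m0 * h) (m1 * h) h1 h3 h2
      have h5 : t1 P w l (m0 * h) (m1 * h - m0 * h) / h - ((m1 : ℝ) - m0) =
          (t1 P w l (m0 * h) (m1 * h - m0 * h) - (m1 * h - m0 * h)) / h := by
        field_simp
      rw [h5, abs_div, abs_of_pos hh]
      exact div_le_div_of_nonneg_right h4 hh.le
    · rw [Finset.Ico_eq_empty (by omega)]
      simp only [Finset.sum_empty, abs_zero]
      exact div_nonneg hM hh.le
  -- the conditions
  have hvr : A / h / 200 ≤ v := by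
    have h1 : A / h / 200 ≤ A / h / 100 - 1 := by linarith
    linarith
  have hvv : v₀ ≤ v := by
    have h1 : (v₀ : ℝ) ≤ v := by linarith
    exact_mod_cast h1
  have hBv : M / h ≤ η * v := by
    have h1 : M / η ≤ A / 200 := by linarith
    have h2 : M ≤ η * (A / 200) := by
      rw [div_le_iff₀ hη] at h1
      linarith
    calc M / h ≤ η * (A / 200) / h := div_le_div_of_nonneg_right h2 hh.le
      _ = η * (A / h / 200) := by field_simp
      _ ≤ η * v := mul_le_mul_of_nonneg_left hvr hη.le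
  have hpn : p + v + p + 20 * v ≤ n := by omega
  have hmain := hfour f p p n v (20 * v) (M / h) hvv le_rfl hpn hBv hf0 hf1 hsum
  -- the values of f
  have hval : ∀ j : ℕ, n / 4 ≤ j → j + 1 < n → f j = t1 P w l (j * h) h / h := by
    intro j hj1 hj2
    simp only [hf]
    rw [if_pos]
    constructor
    · have h1 : n ≤ 4 * j + 3 := by omega
      have h2 : (n : ℝ) ≤ 4 * j + 3 := by exact_mod_cast h1
      have h3 : (n : ℝ) / 5 ≤ j := by
        have : (2000 : ℝ) ≤ n := by exact_mod_cast hn2000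
        linarith
      have h4 : (n : ℝ) / 5 * h ≤ j * h := mul_le_mul_of_nonneg_right h3 hh.le
      linarith
    · have h1 : (j : ℝ) + 1 + 1 ≤ n := by exact_mod_cast hj2
      have h2 : ((j : ℝ) + 1 + 1) * h ≤ n * h := mul_le_mul_of_nonneg_right h1 hh.le
      linarith
  have hcells := l3_cells hh P w l hw n p p v (20 * v) hnA hnA' hpn
  have heq : ∑ i ∈ Ico p (p + v), ∑ j ∈ Ico p (p + 20 * v), t1 P w l (i * h) h * t1 P w l (j * h) h *
      (t1 P w l ((n - i - j : ℕ) * h) h + t1 P w l ((n + 1 - i - j : ℕ) * h) h) =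
      h ^ 3 * ∑ i ∈ Ico p (p + v), ∑ j ∈ Ico p (p + 20 * v), f i * f j * (f (n - i - j) + f (n + 1 - i - j)) := by
    rw [Finset.mul_sum]
    apply Finset.sum_congr rfl
    intro i hi
    rw [Finset.mul_sum]
    apply Finset.sum_congr rfl
    intro j hj
    rw [Finset.mem_Ico] at hi hj
    rw [hval i (by omega) (by omega), hval j (by omega) (by omega), hval (n - i - j) (by omega) (by omega),
      hval (n + 1 - i - j) (by omega) (by omega)]
    field_simp
  rw [heq] at hcells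
  refine le_trans ?_ hcells
  have h1 : A ^ 2 * h / 2000 ≤ h ^ 3 * ((v * (20 * v : ℕ) : ℝ) / 2) := by
    push_cast
    have h2 : A / h / 100 - 1 ≤ v := by linarith
    have h3 : A / h * (9 / 1000) ≤ v := by linarith
    have h4 : (A / h * (9 / 1000)) ^ 2 ≤ (v : ℝ) ^ 2 := pow_le_pow_left₀ (by positivity) h3 2
    have h5 : A ^ 2 * h / 2000 ≤ h ^ 3 * (10 * (A / h * (9 / 1000)) ^ 2) := by
      have h6 : h ^ 3 * (10 * (A / h * (9 / 1000)) ^ 2) = A ^ 2 * h * (81 / 100000) := by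
        field_simp
        ring
      rw [h6]
      have h7 : 0 ≤ A ^ 2 * h := by positivity
      linarith
    calc A ^ 2 * h / 2000 ≤ h ^ 3 * (10 * (A / h * (9 / 1000)) ^ 2) := h5
      _ ≤ h ^ 3 * (10 * (v : ℝ) ^ 2) := by
          apply mul_le_mul_of_nonneg_left _ (by positivity)
          linarith
      _ = h ^ 3 * (v * (20 * v) / 2) := by ring
  exact h1.trans (mul_le_mul_of_nonneg_left hmain (by positivity))

end Pool.Agent.Helper34.HO
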