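import Pool.Agent.Helper34.HO.Trip

/-! Block HO-11b: triple products, (T) of the paper, section 3 (helper33). -/

set_option autoImplicit false

namespace Pool.Agent.Helper34.HO

open Finset

private lemma int_step {c X : ℝ} (w : ℝ) (hc : 0 ≤ c) :
    IntervalIntegrable (fun u : ℝ => if c < u then w else 0) MeasureTheory.volume 0 X ∧
    (0 ≤ X → ∫ u in (0 : ℝ)..X, (if c < u then w else 0) = if c < X then w * (X - c) else 0) := by
  have e1 : (fun u : ℝ => if c < u then w else 0) = (Set.Ioi c).indicator (fun _ => w) := by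
    funext u
    rw [Set.indicator_apply]
    rfl
  rw [e1]
  constructor
  · apply MeasureTheory.IntegrableOn.intervalIntegrable
    apply MeasureTheory.IntegrableOn.indicator _ measurableSet_Ioi
    exact MeasureTheory.integrableOn_const (by
      rw [Set.uIcc]
      exact (measure_Icc_lt_top).ne)
  · intro hX
    rw [intervalIntegral.integral_of_le hX, MeasureTheory.setIntegral_indicator measurableSet_Ioi,
      MeasureTheory.setIntegral_const, smul_eq_mul]
    by_cases h : c < X
    · rw [if_pos h]
      have e2 : Set.Ioc 0 X ∩ Set.Ioi c = Set.Ioc c X := by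
        ext u
        simp only [Set.mem_inter_iff, Set.mem_Ioc, Set.mem_Ioi]
        constructor
        · rintro ⟨⟨-, h2⟩, h3⟩
          exact ⟨h3, h2⟩
        · rintro ⟨h2, h3⟩
          exact ⟨⟨by linarith, h3⟩, h2⟩
      rw [e2, Real.volume_real_Ioc_of_le h.le]
      ring
    · rw [if_neg h]
      have e2 : Set.Ioc 0 X ∩ Set.Ioi c = ∅ := by
        ext u
        simp only [Set.mem_inter_iff, Set.mem_Ioc, Set.mem_Ioi, Set.mem_empty_iff_false, iff_false, not_and, not_lt]
        rintro ⟨-, h2⟩
        linarith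
      rw [e2]
      simp

/-- the mass of `[0, v)` -/
private noncomputable def Sv (P : Finset ℕ) (w l : ℕ → ℝ) (v : ℝ) : ℝ := ∑ p ∈ P, if l p < v then w p else 0

private lemma partial_sum {P : Finset ℕ} {w l : ℕ → ℝ} {M X : ℝ} (hl : ∀ p ∈ P, 0 ≤ l p)
    (hS : ∀ v : ℝ, 0 ≤ v → Sv P w l v ≤ v + M) (hX : 0 ≤ X) :
    (∑ p ∈ P, if l p < X then w p * (X - l p) else 0) ≤ X ^ 2 / 2 + M * X := by
  have hint : ∀ p ∈ P, IntervalIntegrable (fun u : ℝ => if l p < u then w p else 0)
      MeasureTheory.volume 0 X := fun p hp => (int_step (w p) (hl p hp)).1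
  have h1 : ∫ u in (0 : ℝ)..X, Sv P w l u = ∑ p ∈ P, if l p < X then w p * (X - l p) else 0 := by
    unfold Sv
    rw [intervalIntegral.integral_finset_sum hint]
    exact sum_congr rfl fun p hp => (int_step (w p) (hl p hp)).2 hX
  have hSint : IntervalIntegrable (fun u => Sv P w l u) MeasureTheory.volume 0 X := by
    unfold Sv
    have := IntervalIntegrable.sum P hint
    refine this.congr ?_
    intro u _
    rw [Finset.sum_apply]
  rw [← h1]
  have hup : ∫ u in (0 : ℝ)..X, Sv P w l u ≤ ∫ u in (0 : ℝ)..X, (u + M) := by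
    apply intervalIntegral.integral_mono_on hX hSint (Continuous.intervalIntegrable (by fun_prop) _ _)
    intro u hu
    exact hS u hu.1
  have i1 : ∫ u in (0 : ℝ)..X, (u + M) = X ^ 2 / 2 + M * X := by
    rw [intervalIntegral.integral_add (Continuous.intervalIntegrable (by fun_prop) _ _)
      (Continuous.intervalIntegrable (by fun_prop) _ _), integral_id, intervalIntegral.integral_const,
      smul_eq_mul]
    ring
  rw [i1] at hup
  exact hup

private lemma trip_aux (P : Finset ℕ) (w l : ℕ → ℝ) (X H δ κ M : ℝ) (hH0 : 0 < H) (hH1 : H ≤ 1) (hδ0 : 0 < δ)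
    (hδ1 : δ ≤ 1) (hκ0 : 0 < κ) (hκ1 : κ ≤ 1 / 4) (hM0 : 0 ≤ M) (hMX : M + 4 ≤ X) (hw' : ∀ p ∈ P, 0 ≤ w p)
    (hl : ∀ p ∈ P, 0 ≤ l p) (hM : ∀ u v : ℝ, 0 ≤ u → u ≤ v → t1 P w l u (v - u) ≤ v - u + M)
    (hS : ∀ a : ℝ, κ * X ≤ a → a ≤ X → |a * t1 P w l a H + t2 P w l a H - 2 * a * H| ≤ δ * a * H) :
    t3 P w l X H ≤ X ^ 2 / 2 * t1 P w l X H + 17 * (δ + κ + H + (M + 1) / X) * (X ^ 2 * H) := by
  have hX0 : 0 < X := by linarith
  have hX4 : 4 ≤ X := by linarith
  have hκX0 : 0 < κ * X := by positivity
  have hκX4 : κ * X ≤ X / 4 := by nlinarith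
  have ht1n : ∀ a h, 0 ≤ t1 P w l a h := fun a h => sum_nonneg fun p hp => by
    split_ifs
    · exact hw' p hp
    · exact le_rfl
  have ht2n : ∀ a h, 0 ≤ t2 P w l a h := fun a h => sum_nonneg fun p hp => sum_nonneg fun q hq => by
    split_ifs
    · exact mul_nonneg (hw' p hp) (hw' q hq)
    · exact le_rfl
  -- bounds for t1 and t2
  have hf : ∀ b, κ * X ≤ b → b ≤ X → t1 P w l b H ≤ 3 * H := by
    intro b h1 h2
    have hb0 : 0 < b := by linarith
    have h3 := (abs_le.mp (hS b h1 h2)).2
    have h4 := ht2n b H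
    have h5 : δ * b * H ≤ 1 * b * H := by gcongr
    have h6 : b * t1 P w l b H ≤ b * (3 * H) := by linarith
    exact le_of_mul_le_mul_left h6 hb0
  have hT2 : t2 P w l X H ≤ 3 * X * H := by
    have h3 := (abs_le.mp (hS X (by linarith) le_rfl)).2
    have h4 := mul_nonneg hX0.le (ht1n X H)
    have h5 : δ * X * H ≤ 1 * X * H := by gcongr
    linarith
  have hT20 := ht2n X H
  have hSv : ∀ v : ℝ, 0 ≤ v → Sv P w l v ≤ v + M := by
    intro v hv
    have h1 := hM 0 v le_rfl hv
    rw [sub_zero] at h1
    refine le_trans (le_of_eq ?_) h1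
    unfold Sv t1
    refine sum_congr rfl fun p hp => ?_
    by_cases h : l p < v
    · rw [if_pos h, if_pos ⟨hl p hp, by linarith⟩]
    · rw [if_neg h, if_neg]
      rintro ⟨-, h2⟩
      exact h (by linarith)
  have hSvn : ∀ v : ℝ, 0 ≤ Sv P w l v := fun v => sum_nonneg fun p hp => by
    split_ifs
    · exact hw' p hp
    · exact le_rfl
  have hSX : Sv P w l X ≤ 2 * X := by
    have := hSv X hX0.le
    linarith
  set c : ℝ := κ * X + H with hc
  set m : ℝ := c + M with hm
  have hc0 : 0 ≤ c := by linarith
  have hcm : c ≤ m := by linarith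
  have hm0 : 0 ≤ m := by linarith
  have hSκ : Sv P w l c ≤ m := hSv c hc0
  have hSκ0 := hSvn c
  -- splitting
  set L : ℝ := ∑ p ∈ P, if (1 - κ) * X < l p then w p * t2 P w l (X - l p) H else 0 with hL
  set Sm : ℝ := ∑ p ∈ P, if l p ≤ (1 - κ) * X then w p * t2 P w l (X - l p) H else 0 with hSm
  have hsplit : t3 P w l X H = Sm + L := by
    rw [t3_eq, hSm, hL, ← sum_add_distrib]
    refine sum_congr rfl fun p _ => ?_
    by_cases h : l p ≤ (1 - κ) * X
    · rw [if_pos h, if_neg (not_lt.mpr h), add_zero]
    · rw [if_neg h, if_pos (not_le.mp h), zero_add]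
  -- the large primes
  have hLle : L ≤ 3 * H * m ^ 2 := by
    have h1 : L ≤ ∑ q ∈ P, ∑ r ∈ P, (if l q < c then w q else 0) * ((if l r < c then w r else 0) * (3 * H)) := by
      have h2 : L = ∑ q ∈ P, ∑ r ∈ P, ∑ p ∈ P, (if (1 - κ) * X < l p ∧
          (X - l p ≤ l q + l r ∧ l q + l r < X - l p + H) then w p * (w q * w r) else 0) := by
        have h3 : L = ∑ p ∈ P, ∑ q ∈ P, ∑ r ∈ P, (if (1 - κ) * X < l p ∧
          (X - l p ≤ l q + l r ∧ l q + l r < X - l p + H) then w p * (w q * w r) else 0) := by
          rw [hL]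
          refine sum_congr rfl fun p hp => ?_
          by_cases h : (1 - κ) * X < l p
          · rw [if_pos h]
            unfold t2
            rw [mul_sum]
            refine sum_congr rfl fun q _ => ?_
            rw [mul_sum]
            refine sum_congr rfl fun r _ => ?_
            by_cases h' : X - l p ≤ l q + l r ∧ l q + l r < X - l p + H
            · rw [if_pos h', if_pos ⟨h, h'⟩]
            · rw [if_neg h', if_neg (fun h2 => h' h2.2), mul_zero]
          · rw [if_neg h]
            symm
            apply sum_eq_zero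
            intro q _
            apply sum_eq_zero
            intro r _
            rw [if_neg (fun h2 => h h2.1)]
        rw [h3, sum_comm]
        refine sum_congr rfl fun q _ => ?_
        rw [sum_comm]
      rw [h2]
      refine sum_le_sum fun q hq => sum_le_sum fun r hr => ?_
      have hq0 := hl q hq
      have hr0 := hl r hr
      have hwq := hw' q hq
      have hwr := hw' r hr
      by_cases hqr : l q + l r < c
      · rw [if_pos (by linarith), if_pos (by linarith)]
        calc ∑ p ∈ P, (if (1 - κ) * X < l p ∧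
            (X - l p ≤ l q + l r ∧ l q + l r < X - l p + H) then w p * (w q * w r) else 0)
            ≤ ∑ p ∈ P, (if (X - (l q + l r)) ≤ l p ∧ l p < (X - (l q + l r)) + H then w p else 0) * (w q * w r) := by
              refine sum_le_sum fun p hp => ?_
              by_cases h : (1 - κ) * X < l p ∧ (X - l p ≤ l q + l r ∧ l q + l r < X - l p + H)
              · rw [if_pos h, if_pos ⟨by linarith [h.2.1], by linarith [h.2.2]⟩]
              · rw [if_neg h]
                apply mul_nonneg
                · split_ifs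
                  · exact hw' p hp
                  · exact le_rfl
                · exact mul_nonneg hwq hwr
          _ = t1 P w l (X - (l q + l r)) H * (w q * w r) := by
              rw [← sum_mul]
              rfl
          _ ≤ 3 * H * (w q * w r) := by
              apply mul_le_mul_of_nonneg_right _ (mul_nonneg hwq hwr)
              exact hf _ (by linarith) (by linarith)
          _ = w q * (w r * (3 * H)) := by ring
      · have h0 : ∑ p ∈ P, (if (1 - κ) * X < l p ∧
            (X - l p ≤ l q + l r ∧ l q + l r < X - l p + H) then w p * (w q * w r) else 0) = 0 := by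
          apply sum_eq_zero
          intro p _
          rw [if_neg]
          rintro ⟨h1, -, h3⟩
          linarith
        rw [h0]
        apply mul_nonneg
        · split_ifs
          · exact hwq
          · exact le_rfl
        · apply mul_nonneg
          · split_ifs
            · exact hwr
            · exact le_rfl
          · positivity
    have h2 : ∑ q ∈ P, ∑ r ∈ P, (if l q < c then w q else 0) *
        ((if l r < c then w r else 0) * (3 * H)) = 3 * H * Sv P w l c ^ 2 := by
      have h3 : ∀ q ∈ P, ∑ r ∈ P, (if l q < c then w q else 0) * ((if l r < c then w r else 0) * (3 * H)) =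
          (if l q < c then w q else 0) * (Sv P w l c * (3 * H)) := by
        intro q _
        rw [← mul_sum, ← sum_mul]
        rfl
      rw [sum_congr rfl h3, ← sum_mul]
      change Sv P w l c * (Sv P w l c * (3 * H)) = _
      ring
    rw [h2] at h1
    refine h1.trans ?_
    have h4 : Sv P w l c ^ 2 ≤ m ^ 2 := pow_le_pow_left₀ hSκ0 hSκ 2
    gcongr
  -- the small primes
  set A1 : ℝ := ∑ p ∈ P, if l p ≤ (1 - κ) * X then w p * (X - l p) else 0 with hA1
  set A2 : ℝ := ∑ p ∈ P, if l p ≤ (1 - κ) * X then w p * ((X - l p) * t1 P w l (X - l p) H) else 0 with hA2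
  have hE : |Sm - (2 * H * A1 - A2)| ≤ δ * X * H * (2 * X) := by
    have h1 : Sm - (2 * H * A1 - A2) = ∑ p ∈ P, if l p ≤ (1 - κ) * X then
        w p * ((X - l p) * t1 P w l (X - l p) H + t2 P w l (X - l p) H - 2 * (X - l p) * H) else 0 := by
      rw [hSm, hA1, hA2, mul_sum, ← sum_sub_distrib, ← sum_sub_distrib]
      refine sum_congr rfl fun p _ => ?_
      split_ifs
      · ring
      · ring
    rw [h1]
    calc |∑ p ∈ P, if l p ≤ (1 - κ) * X then
        w p * ((X - l p) * t1 P w l (X - l p) H + t2 P w l (X - l p) H - 2 * (X - l p) * H) else 0|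
        ≤ ∑ p ∈ P, |if l p ≤ (1 - κ) * X then
        w p * ((X - l p) * t1 P w l (X - l p) H + t2 P w l (X - l p) H - 2 * (X - l p) * H) else 0| :=
          abs_sum_le_sum_abs _ _
      _ ≤ ∑ p ∈ P, δ * X * H * (if l p < X then w p else 0) := by
          refine sum_le_sum fun p hp => ?_
          have hp0 := hl p hp
          have hwp := hw' p hp
          by_cases h : l p ≤ (1 - κ) * X
          · rw [if_pos h, if_pos (by linarith), abs_mul, abs_of_nonneg hwp, mul_comm]
            apply mul_le_mul_of_nonneg_right _ hwp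
            refine (hS (X - l p) (by linarith) (by linarith)).trans ?_
            gcongr
            linarith
          · rw [if_neg h, abs_zero]
            apply mul_nonneg (by positivity)
            split_ifs
            · exact hwp
            · exact le_rfl
      _ = δ * X * H * Sv P w l X := by rw [← mul_sum]; rfl
      _ ≤ δ * X * H * (2 * X) := by gcongr
  -- A1
  have hA1b : A1 ≤ X ^ 2 / 2 + M * X := by
    refine le_trans ?_ (partial_sum hl hSv hX0.le)
    refine sum_le_sum fun p hp => ?_
    by_cases h : l p ≤ (1 - κ) * X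
    · rw [if_pos h, if_pos (by linarith)]
    · rw [if_neg h]
      split_ifs with h'
      · exact mul_nonneg (hw' p hp) (by linarith)
      · exact le_rfl
  -- A2
  set B : ℝ := ∑ p ∈ P, ∑ q ∈ P, if X ≤ l p + l q ∧ l p + l q < X + H then w p * w q * l q else 0 with hB
  have hBsym : 2 * B = ∑ p ∈ P, ∑ q ∈ P, if X ≤ l p + l q ∧ l p + l q < X + H then
      w p * w q * (l p + l q) else 0 := by
    have h1 : B = ∑ p ∈ P, ∑ q ∈ P, if X ≤ l p + l q ∧ l p + l q < X + H then w p * w q * l p else 0 := by
      rw [hB, sum_comm]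
      refine sum_congr rfl fun p _ => sum_congr rfl fun q _ => ?_
      rw [add_comm (l q) (l p), mul_comm (w q) (w p)]
    rw [two_mul]
    nth_rewrite 1 [h1]
    rw [hB, ← sum_add_distrib]
    refine sum_congr rfl fun p _ => ?_
    rw [← sum_add_distrib]
    refine sum_congr rfl fun q _ => ?_
    split_ifs
    · ring
    · ring
  have hBb : X * t2 P w l X H ≤ 2 * B := by
    rw [hBsym]
    unfold t2
    rw [mul_sum]
    refine sum_le_sum fun p hp => ?_
    rw [mul_sum]
    refine sum_le_sum fun q hq => ?_
    split_ifs with h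
    · rw [mul_comm]
      exact mul_le_mul_of_nonneg_left h.1 (mul_nonneg (hw' p hp) (hw' q hq))
    · rw [mul_zero]
  have hA2s : A2 = ∑ p ∈ P, ∑ q ∈ P, if X ≤ l p + l q ∧ l p + l q < X + H then
      (if l p ≤ (1 - κ) * X then w p * w q * (X - l p) else 0) else 0 := by
    rw [hA2]
    refine sum_congr rfl fun p hp => ?_
    by_cases h : l p ≤ (1 - κ) * X
    · rw [if_pos h]
      unfold t1
      rw [← mul_assoc, mul_sum]
      refine sum_congr rfl fun q _ => ?_
      rw [if_pos h]
      by_cases h' : X ≤ l p + l q ∧ l p + l q < X + H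
      · rw [if_pos h', if_pos ⟨by linarith [h'.1], by linarith [h'.2]⟩]
        ring
      · rw [if_neg h', if_neg, mul_zero]
        rintro ⟨h1, h2⟩
        exact h' ⟨by linarith, by linarith⟩
    · rw [if_neg h]
      symm
      apply sum_eq_zero
      intro q _
      rw [if_neg h]
      simp
  have hBA : B - A2 ≤ H * t2 P w l X H + c * (3 * H * m) := by
    have h1 : B - A2 = ∑ p ∈ P, ∑ q ∈ P, if X ≤ l p + l q ∧ l p + l q < X + H then
        w p * w q * (if l p ≤ (1 - κ) * X then (l p + l q - X) else l q) else 0 := by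
      rw [hB, hA2s, ← sum_sub_distrib]
      refine sum_congr rfl fun p _ => ?_
      rw [← sum_sub_distrib]
      refine sum_congr rfl fun q _ => ?_
      split_ifs
      · ring
      · ring
      · ring
    -- the large part
    have h2 : ∑ p ∈ P, ∑ q ∈ P, (if X ≤ l p + l q ∧ l p + l q < X + H then
        (if l q < c then w p * w q else 0) else 0) ≤ 3 * H * m := by
      rw [sum_comm]
      calc ∑ q ∈ P, ∑ p ∈ P, (if X ≤ l p + l q ∧ l p + l q < X + H then
          (if l q < c then w p * w q else 0) else 0)
          ≤ ∑ q ∈ P, 3 * H * (if l q < c then w q else 0) := by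
            refine sum_le_sum fun q hq => ?_
            have hq0 := hl q hq
            have hwq := hw' q hq
            by_cases h : l q < c
            · rw [if_pos h]
              calc ∑ p ∈ P, (if X ≤ l p + l q ∧ l p + l q < X + H then
                  (if l q < c then w p * w q else 0) else 0)
                  = t1 P w l (X - l q) H * w q := by
                    unfold t1
                    rw [sum_mul]
                    refine sum_congr rfl fun p _ => ?_
                    rw [if_pos h]
                    by_cases h' : X ≤ l p + l q ∧ l p + l q < X + H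
                    · rw [if_pos h', if_pos ⟨by linarith [h'.1], by linarith [h'.2]⟩]
                    · rw [if_neg h', if_neg, zero_mul]
                      rintro ⟨h3, h4⟩
                      exact h' ⟨by linarith, by linarith⟩
                _ ≤ 3 * H * w q := by
                    apply mul_le_mul_of_nonneg_right _ hwq
                    exact hf _ (by linarith) (by linarith)
            · rw [if_neg h, mul_zero]
              apply le_of_eq
              apply sum_eq_zero
              intro p _
              rw [if_neg h]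
              simp
        _ = 3 * H * Sv P w l c := by rw [← mul_sum]; rfl
        _ ≤ 3 * H * m := by gcongr
    rw [h1]
    have h3 : ∑ p ∈ P, ∑ q ∈ P, (if X ≤ l p + l q ∧ l p + l q < X + H then
        w p * w q * (if l p ≤ (1 - κ) * X then (l p + l q - X) else l q) else 0) ≤
        H * t2 P w l X H + c * ∑ p ∈ P, ∑ q ∈ P,
          (if X ≤ l p + l q ∧ l p + l q < X + H then (if l q < c then w p * w q else 0) else 0) := by
      unfold t2
      rw [mul_sum, mul_sum, ← sum_add_distrib]
      refine sum_le_sum fun p hp => ?_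
      rw [mul_sum, mul_sum, ← sum_add_distrib]
      refine sum_le_sum fun q hq => ?_
      have hq0 := hl q hq
      have hpq := mul_nonneg (hw' p hp) (hw' q hq)
      by_cases h : X ≤ l p + l q ∧ l p + l q < X + H
      · rw [if_pos h, if_pos h, if_pos h]
        by_cases h' : l p ≤ (1 - κ) * X
        · rw [if_pos h']
          have h5 : w p * w q * (l p + l q - X) ≤ H * (w p * w q) := by
            rw [mul_comm H]
            exact mul_le_mul_of_nonneg_left (by linarith [h.2]) hpq
          have h6 : 0 ≤ c * (if l q < c then w p * w q else 0) := by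
            apply mul_nonneg hc0
            split_ifs
            · exact hpq
            · exact le_rfl
          linarith
        · rw [if_neg h']
          rw [not_le] at h'
          have h7 : l q < c := by linarith [h.2]
          rw [if_pos h7]
          have h5 : w p * w q * l q ≤ c * (w p * w q) := by
            rw [mul_comm c]
            exact mul_le_mul_of_nonneg_left h7.le hpq
          have h6 : 0 ≤ H * (w p * w q) := mul_nonneg hH0.le hpq
          linarith
      · rw [if_neg h, if_neg h, if_neg h]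
        simp
    refine h3.trans ?_
    gcongr
  -- conclusion
  set s : ℝ := κ + H + (M + 1) / X with hs
  have hE' := (abs_le.mp hE).2
  have hmX : m ≤ X * s := by
    rw [hs, mul_add, mul_add, mul_div_cancel₀ _ hX0.ne', hm, hc]
    have : 0 ≤ X * H := by positivity
    linarith
  have hm2X : m ≤ 2 * X := by linarith
  have hs0 : 0 ≤ s := by rw [hs]; positivity
  have e2 : m ^ 2 ≤ 2 * (s * X ^ 2) := by
    calc m ^ 2 = m * m := sq m
      _ ≤ (2 * X) * (X * s) := by gcongr
      _ = 2 * (s * X ^ 2) := by ring
  have hMs : M * X ≤ s * X ^ 2 := by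
    have h1 : M ≤ X * s := by linarith
    calc M * X ≤ (X * s) * X := by gcongr
      _ = s * X ^ 2 := by ring
  have hHs : H * t2 P w l X H ≤ 3 * (s * (X ^ 2 * H)) := by
    have h1 : H ≤ s := by rw [hs]; have : 0 ≤ (M + 1) / X := by positivity
                          linarith
    calc H * t2 P w l X H ≤ s * (3 * X * H) := by gcongr
      _ = 3 * (s * (X * H)) := by ring
      _ ≤ 3 * (s * (X ^ 2 * H)) := by
          have : X ≤ X ^ 2 := by nlinarith
          gcongr
  have e3 : c * (3 * H * m) ≤ 3 * H * m ^ 2 := by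
    calc c * (3 * H * m) ≤ m * (3 * H * m) := by gcongr
      _ = 3 * H * m ^ 2 := by ring
  have e4 : 3 * H * m ^ 2 ≤ 6 * (s * (X ^ 2 * H)) := by
    calc 3 * H * m ^ 2 ≤ 3 * H * (2 * (s * X ^ 2)) := by gcongr
      _ = 6 * (s * (X ^ 2 * H)) := by ring
  have e5 : 2 * H * A1 ≤ X ^ 2 * H + 2 * (s * (X ^ 2 * H)) := by
    calc 2 * H * A1 ≤ 2 * H * (X ^ 2 / 2 + s * X ^ 2) := by
          gcongr
          linarith
      _ = X ^ 2 * H + 2 * (s * (X ^ 2 * H)) := by ring
  have e8 : |X / 2 * (X * t1 P w l X H + t2 P w l X H - 2 * X * H)| ≤ 1 / 2 * (δ * (X ^ 2 * H)) := by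
    rw [abs_mul, abs_of_nonneg (by positivity)]
    calc X / 2 * |X * t1 P w l X H + t2 P w l X H - 2 * X * H| ≤ X / 2 * (δ * X * H) := by
          gcongr
          exact hS X (by linarith) le_rfl
      _ = 1 / 2 * (δ * (X ^ 2 * H)) := by ring
  have e8' := (abs_le.mp e8).1
  have e9 : X / 2 * (X * t1 P w l X H + t2 P w l X H - 2 * X * H) =
      X ^ 2 / 2 * t1 P w l X H + X * t2 P w l X H / 2 - X ^ 2 * H := by ring
  rw [e9] at e8'
  have e6 : δ * X * H * (2 * X) = 2 * (δ * (X ^ 2 * H)) := by ring
  rw [e6] at hE'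
  have hd : 0 ≤ δ * (X ^ 2 * H) := by positivity
  have hg : 17 * (δ + κ + H + (M + 1) / X) * (X ^ 2 * H) = 17 * (δ * (X ^ 2 * H)) + 17 * (s * (X ^ 2 * H)) := by
    rw [hs]
    ring
  rw [hsplit, hg]
  linarith

theorem trip : ∃ C : ℝ, 0 < C ∧ ∀ (P : Finset ℕ) (w l : ℕ → ℝ) (A H δ κ₁ M : ℝ), 0 < H → H ≤ 1 → 0 < δ → δ ≤ 1 → 0 < κ₁ →
    κ₁ ≤ 1 / 4 → 0 ≤ M → M + 4 ≤ A → (∀ p ∈ P, 0 ≤ w p) → (∀ p ∈ P, 0 ≤ l p) →
    (∀ u v : ℝ, 0 ≤ u → u ≤ v → t1 P w l u (v - u) ≤ v - u + M) →
    (∀ a : ℝ, κ₁ * A ≤ a → a ≤ A → |a * t1 P w l a H + t2 P w l a H - 2 * a * H| ≤ δ * a * H) →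
    t3 P w l A H ≤ A ^ 2 / 2 * t1 P w l A H + C * (δ + κ₁ + H + (M + 1) / A) * (A ^ 2 * H) :=
  ⟨17, by norm_num, fun P w l A H δ κ₁ M h1 h2 h3 h4 h5 h6 h7 h8 h9 h10 h11 h12 =>
    trip_aux P w l A H δ κ₁ M h1 h2 h3 h4 h5 h6 h7 h8 h9 h10 h11 h12⟩

end Pool.Agent.Helper34.HO
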