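import Pool.Agent.Helper34.HO.Selb
import Pool.Agent.Helper34.HO.TripMain
import Pool.Agent.Helper34.HO.Low3
import Pool.Agent.Helper28.PR.Defs

/-! Block HO-13: primes in every window. -/

set_option autoImplicit false

namespace Pool.Agent.Helper34.HO

open Finset

private theorem alg34 {A H t C D : ℝ} (hA : 0 < A) (hD : C * D ≤ 1 / 20000) (hH : 0 < H)
    (h1 : A ^ 2 * (H / 5) / 2000 ≤ A ^ 2 / 2 * t + C * D * (A ^ 2 * H)) : 1 / 10000 * H ≤ t := by
  have hA2 : 0 < A ^ 2 * H := by positivity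
  have h2 : C * D * (A ^ 2 * H) ≤ 1 / 20000 * (A ^ 2 * H) := mul_le_mul_of_nonneg_right hD hA2.le
  have h3 : A ^ 2 * (1 / 10000 * H) ≤ A ^ 2 * t := by
    have e : A ^ 2 * (H / 5) / 2000 = A ^ 2 * H / 10000 := by ring
    rw [e] at h1
    linarith
  exact le_of_mul_le_mul_left h3 (by positivity)

/-- From `selberg`, `trip` (with `A = X`, `H = h`), `low3` (with `h / 5`), `mert_t1`. -/
theorem mass_low : ∃ c κ η X₀ h₀ : ℝ, 0 < c ∧ 0 < κ ∧ 0 < η ∧ 0 < h₀ ∧ ∀ X h : ℝ, X₀ ≤ X → Real.exp (-(η * X)) ≤ h → h ≤ h₀ →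
    c * h ≤ t1 (Pz (Real.exp (κ * X)) (2 * X)) wp lp X h := by
  obtain ⟨C, hC, hT⟩ := trip
  obtain ⟨M, hM, hMe⟩ := mert_t1
  obtain ⟨A₀, hLow⟩ := low3 M hM.le
  obtain ⟨δ, hδ, hδ1, hδC⟩ : ∃ δ : ℝ, 0 < δ ∧ δ ≤ 1 / 1000 ∧ C * δ ≤ 1 / 80000 := by
    refine ⟨min (1 / 1000) (1 / 80000 / C), by positivity, min_le_left _ _, ?_⟩
    calc C * min (1 / 1000) (1 / 80000 / C) ≤ C * (1 / 80000 / C) := mul_le_mul_of_nonneg_left (min_le_right _ _) hC.le
      _ = 1 / 80000 := by field_simp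
  obtain ⟨κ, h₀, X₀, hκ, hκδ, hh₀, hS⟩ := selberg δ δ hδ (by linarith) hδ (by linarith)
  have hκ5 : κ ≤ 1 / 5 := by nlinarith
  refine ⟨1 / 10000, κ, κ / 2, max (max X₀ A₀) (max (4 / κ) (max (M + 4) (80000 * C * (M + 1)))), min h₀ (min 1 (1 / 80000 / C)),
    by norm_num, hκ, by positivity, by positivity, fun X h hX hh1 hh2 => ?_⟩
  have k1 : X₀ ≤ X := (le_max_left _ _).trans ((le_max_left _ _).trans hX)
  have k2 : A₀ ≤ X := (le_max_right _ _).trans ((le_max_left _ _).trans hX)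
  have k0 := (le_max_right _ _).trans hX
  have k3 : 4 / κ ≤ X := (le_max_left _ _).trans k0
  have k0 := (le_max_right _ _).trans k0
  have k4 : M + 4 ≤ X := (le_max_left _ _).trans k0
  have k5 : 80000 * C * (M + 1) ≤ X := (le_max_right _ _).trans k0
  clear k0
  rw [div_le_iff₀ hκ] at k3
  have hX0 : 0 < X := by linarith
  have m1 : h ≤ h₀ := hh2.trans (min_le_left _ _)
  have m2 : h ≤ 1 := hh2.trans ((min_le_right _ _).trans (min_le_left _ _))
  have m3 : h ≤ 1 / 80000 / C := hh2.trans ((min_le_right _ _).trans (min_le_right _ _))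
  have hh : 0 < h := lt_of_lt_of_le (Real.exp_pos _) hh1
  have m4 : C * h ≤ 1 / 80000 := by
    have := mul_le_mul_of_nonneg_left m3 hC.le
    calc C * h ≤ _ := this
      _ = 1 / 80000 := by field_simp
  have m5 : C * ((M + 1) / X) ≤ 1 / 80000 := by
    rw [← mul_div_assoc, div_le_iff₀ hX0]
    linarith
  have hw5 : Real.exp (-(κ * X)) ≤ h / 5 := by
    have e1 : Real.exp (-(κ * X)) = Real.exp (-(κ / 2 * X)) * Real.exp (-(κ / 2 * X)) := by
      rw [← Real.exp_add]; congr 1; ring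
    have e2 : Real.exp (-(κ / 2 * X)) ≤ 1 / 5 := by
      have i1 : Real.exp (-(κ / 2 * X)) ≤ Real.exp (-2) := Real.exp_le_exp.2 (by linarith)
      have i2 : Real.exp (-2) ≤ 1 / 5 := by
        have j1 : Real.exp (-2) = 1 / (Real.exp 1 * Real.exp 1) := by
          rw [← Real.exp_add, Real.exp_neg, one_div]; norm_num
        rw [j1]
        have j2 := Real.exp_one_gt_d9
        exact one_div_le_one_div_of_le (by norm_num) (by nlinarith)
      exact i1.trans i2
    rw [e1]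
    have := mul_le_mul hh1 e2 (Real.exp_pos _).le hh.le
    linarith
  have hw1 : Real.exp (-(κ * X)) ≤ h := by linarith
  obtain ⟨z, hz⟩ : ∃ z : ℝ, z = Real.exp (κ * X) := ⟨_, rfl⟩
  obtain ⟨P, hP⟩ : ∃ P : Finset ℕ, P = Pz z (2 * X) := ⟨_, rfl⟩
  rw [← hz, ← hP]
  have hκX : 0 < κ * X := by positivity
  have hz1 : 1 ≤ z := by rw [hz]; exact Real.one_le_exp hκX.le
  have hlz : Real.log z = κ * X := by rw [hz, Real.log_exp]
  have hw : ∀ p ∈ P, 0 ≤ wp p := fun p _ => wp_nonneg p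
  have hlp : ∀ p ∈ P, 0 ≤ lp p := fun p _ => lp_nonneg p
  have hMu : ∀ u v : ℝ, 0 ≤ u → u ≤ v → t1 P wp lp u (v - u) ≤ v - u + M := by
    intro u v hu huv
    rw [hP]
    exact (hMe z (2 * X) u v hz1 hu huv).1
  have hSel : ∀ a g : ℝ, δ * X ≤ a → a ≤ X → Real.exp (-(κ * X)) ≤ g → g ≤ h → |a * t1 P wp lp a g + t2 P wp lp a g - 2 * a * g| ≤ δ * a * g := by
    intro a g ha1 ha2 hg1 hg2
    have := hS X a g k1 ha1 (by linarith) hg1 (hg2.trans m1)
    rwa [← hz, ← hP] at this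
  have hδX : 0 < δ * X := by positivity
  have hδX5 : δ * X ≤ X / 5 := by nlinarith
  have hκX5 : κ * X ≤ X / 5 := by nlinarith
  have h1 := hT P wp lp X h δ δ M hh m2 hδ (by linarith) hδ (by linarith) hM.le k4 hw hlp hMu
    (fun a ha1 ha2 => hSel a h ha1 ha2 hw1 le_rfl)
  have h2 := hLow P wp lp X (h / 5) k2 (by positivity) (by linarith) hw (by
      intro a ha1 ha2
      have ha0 : 0 < a := by linarith
      have i1 := hSel a (h / 5) (by linarith) ha2 hw5 (by linarith)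
      have i2 := (abs_le.1 i1).2
      have i3 := t2_nonneg (l := lp) hw a (h / 5)
      have i4 : a * t1 P wp lp a (h / 5) ≤ a * ((2 + δ) * (h / 5)) := by
        have : a * ((2 + δ) * (h / 5)) = 2 * a * (h / 5) + δ * a * (h / 5) := by ring
        linarith
      have i5 := le_of_mul_le_mul_left i4 ha0
      refine i5.trans (mul_le_mul_of_nonneg_right (by linarith) (by positivity)))
    (by
      intro u v hu huv hv
      have i1 := hMe z (2 * X) u v hz1 (by linarith) huv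
      rw [← hP] at i1
      have i2 := i1.2 (by rw [hlz]; linarith) (by linarith)
      rw [abs_le]
      constructor
      · linarith
      · linarith [i1.1])
  rw [show 5 * (h / 5) = h by ring] at h2
  refine alg34 (A := X) (C := C) (D := δ + δ + h + (M + 1) / X) hX0 ?_ hh (h2.trans h1)
  have : C * (δ + δ + h + (M + 1) / X) = C * δ + C * δ + C * h + C * ((M + 1) / X) := by ring
  rw [this]
  linarith

/-- **Primes in every window.** -/
theorem pw : Pool.Agent.Helper28.PR.PWStmt := by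
  obtain ⟨c, κ, η', X₀, h₀, hc, hκ, hη', hh₀, hm⟩ := mass_low
  obtain ⟨η, hη, hη2, hηη⟩ : ∃ η : ℝ, 0 < η ∧ η ≤ 1 / 2 ∧ 2 * η ≤ η' :=
    ⟨min (1 / 2) (η' / 2), by positivity, min_le_left _ _, by linarith [min_le_right (1 / 2) (η' / 2)]⟩
  -- the threshold
  obtain ⟨N0, hN0⟩ : ∃ N0 : ℕ, ∀ N : ℕ, N0 ≤ N → X₀ ≤ Real.log (N + 1) ∧ 1 / h₀ ≤ Real.log N ∧ 1 ≤ Real.log N ∧ 4 ≤ (N : ℝ) ^ η := by
    have t1 : Filter.Tendsto (fun N : ℕ => Real.log ((N : ℝ) + 1)) Filter.atTop Filter.atTop :=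
      Real.tendsto_log_atTop.comp (Filter.tendsto_atTop_add_const_right _ _ tendsto_natCast_atTop_atTop)
    have t2 : Filter.Tendsto (fun N : ℕ => Real.log (N : ℝ)) Filter.atTop Filter.atTop :=
      Real.tendsto_log_atTop.comp tendsto_natCast_atTop_atTop
    have t3 : Filter.Tendsto (fun N : ℕ => (N : ℝ) ^ η) Filter.atTop Filter.atTop :=
      (tendsto_rpow_atTop hη).comp tendsto_natCast_atTop_atTop
    have := ((t1.eventually_ge_atTop X₀).and ((t2.eventually_ge_atTop (1 / h₀)).and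
      ((t2.eventually_ge_atTop 1).and (t3.eventually_ge_atTop 4))))
    exact Filter.eventually_atTop.1 this
  refine ⟨η, c / 6, max N0 3, hη, by linarith, by positivity, fun N l hN hl1 hl2 => ?_⟩
  obtain ⟨n1, n2, n3, n4⟩ := hN0 N ((le_max_left _ _).trans hN)
  have hN3 : 3 ≤ N := (le_max_right _ _).trans hN
  have hN3r : (3 : ℝ) ≤ N := by exact_mod_cast hN3
  have hNpos : (0 : ℝ) < N := by linarith
  have hN1 : (0 : ℝ) < (N : ℝ) + 1 := by linarith
  have hlogN : 0 < Real.log N := by linarith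
  have hlN : (l : ℝ) ≤ N := hl2.trans (div_le_self hNpos.le n3)
  have hl0 : (0 : ℝ) < l := lt_of_lt_of_le (Real.rpow_pos_of_pos hNpos _) hl1
  obtain ⟨X, hX⟩ : ∃ X : ℝ, X = Real.log ((N : ℝ) + 1) := ⟨_, rfl⟩
  obtain ⟨h, hh⟩ : ∃ h : ℝ, h = Real.log (1 + l / ((N : ℝ) + 1)) := ⟨_, rfl⟩
  obtain ⟨t, ht⟩ : ∃ t : ℝ, t = (l : ℝ) / ((N : ℝ) + 1) := ⟨_, rfl⟩
  have ht0 : 0 < t := by rw [ht]; positivity
  have ht1 : t ≤ 1 := by rw [ht, div_le_one hN1]; linarith
  have htl : t * ((N : ℝ) + 1) = l := by rw [ht]; field_simp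
  rw [← ht] at hh
  have hXe : Real.exp X = (N : ℝ) + 1 := by rw [hX, Real.exp_log hN1]
  have hhe : Real.exp h = 1 + t := by rw [hh, Real.exp_log (by linarith)]
  have hXh : Real.exp (X + h) = (N : ℝ) + l + 1 := by
    rw [Real.exp_add, hXe, hhe]
    linear_combination htl
  have hht : h ≤ t := by
    rw [hh]
    have := Real.log_le_sub_one_of_pos (show 0 < 1 + t by linarith)
    linarith
  have hht2 : t / 2 ≤ h := by
    rw [hh]
    have i1 := Real.one_sub_inv_le_log_of_pos (show 0 < 1 + t by linarith)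
    have i2 : t / 2 ≤ 1 - (1 + t)⁻¹ := by
      have : 1 - (1 + t)⁻¹ = t / (1 + t) := by
        have : (1 + t) ≠ 0 := by linarith
        field_simp
        ring
      rw [this]
      exact div_le_div_of_nonneg_left ht0.le (by linarith) (by linarith)
    linarith
  have hhh₀ : h ≤ h₀ := by
    have i1 : t ≤ 1 / Real.log N := by
      rw [ht, div_le_div_iff₀ hN1 hlogN, one_mul]
      have := (le_div_iff₀ hlogN).1 hl2
      linarith
    have i2 : 1 / Real.log N ≤ h₀ := by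
      rw [div_le_iff₀ hh₀] at n2
      rw [div_le_iff₀ hlogN]
      linarith
    linarith
  have hhη : Real.exp (-(η' * X)) ≤ h := by
    have hlx : Real.log N ≤ X := by rw [hX]; exact Real.log_le_log hNpos (by linarith)
    have i1 : Real.exp (-(η' * X)) ≤ Real.exp (-(2 * η * Real.log N)) := by
      refine Real.exp_le_exp.2 (neg_le_neg ?_)
      calc 2 * η * Real.log N ≤ 2 * η * X := mul_le_mul_of_nonneg_left hlx (by positivity)
        _ ≤ η' * X := mul_le_mul_of_nonneg_right hηη (by linarith)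
    obtain ⟨y, hy⟩ : ∃ y : ℝ, y = (N : ℝ) ^ η := ⟨_, rfl⟩
    rw [← hy] at n4
    have hye : y = Real.exp (η * Real.log N) := by rw [hy, Real.rpow_def_of_pos hNpos, mul_comm]
    have i2 : Real.exp (-(2 * η * Real.log N)) = 1 / (y * y) := by
      rw [hye, ← Real.exp_add, one_div, ← Real.exp_neg]
      congr 1
      ring
    have i3 : (N : ℝ) ^ (1 - η) = N / y := by rw [Real.rpow_sub hNpos, Real.rpow_one, hy]
    have hy0 : 0 < y := by linarith
    have i4 : 1 / (4 * y) ≤ t / 2 := by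
      rw [i3, div_le_iff₀ hy0] at hl1
      rw [div_le_div_iff₀ (by positivity) (by norm_num)]
      rw [← htl] at hl1
      by_contra hcon
      push Not at hcon
      have h5 : t * y < 1 / 2 := by linarith
      have h6 := mul_lt_mul_of_pos_right h5 hN1
      linarith
    have i5 : 1 / (y * y) ≤ 1 / (4 * y) := one_div_le_one_div_of_le (by linarith) (mul_le_mul_of_nonneg_right n4 (by linarith))
    linarith [i1.trans (le_of_eq i2)]
  have hmass := hm X h (by rw [hX]; exact n1) hhη hhh₀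
  -- counting
  obtain ⟨P, hP⟩ : ∃ P : Finset ℕ, P = Pz (Real.exp (κ * X)) (2 * X) := ⟨_, rfl⟩
  rw [← hP] at hmass
  have hcount : t1 P wp lp X h ≤ ((P.filter (fun p => X ≤ lp p ∧ lp p < X + h)).card : ℝ) * ((X + h) / ((N : ℝ) + 1)) := by
    unfold t1
    rw [← sum_filter, ← nsmul_eq_mul]
    refine sum_le_card_nsmul _ _ _ fun p hp => ?_
    obtain ⟨hp1, hp2, hp3⟩ := mem_filter.1 hp
    rw [hP] at hp1
    have hpp := (mem_filter.1 hp1).2.1
    have hp0 : (0 : ℝ) < p := by exact_mod_cast hpp.pos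
    unfold wp
    unfold lp at hp2 hp3
    have i1 : (N : ℝ) + 1 ≤ p := by
      rw [← hXe]
      exact (Real.le_log_iff_exp_le hp0).1 hp2
    exact div_le_div₀ (by linarith [Real.log_nonneg (show (1 : ℝ) ≤ p by linarith)]) hp3.le hN1 i1
  have hsub : ((P.filter (fun p => X ≤ lp p ∧ lp p < X + h)).card : ℝ) ≤
      ({p : ℕ | p.Prime ∧ N < p ∧ p ≤ N + l}.ncard : ℝ) := by
    rw [← Set.ncard_coe_finset]
    refine Nat.cast_le.2 (Set.ncard_le_ncard ?_ ((Set.finite_Iic (N + l)).subset fun p hp => hp.2.2))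
    intro p hp
    obtain ⟨hp1, hp2, hp3⟩ := mem_filter.1 (mem_coe.1 hp)
    rw [hP] at hp1
    have hpp := (mem_filter.1 hp1).2.1
    have hp0 : (0 : ℝ) < p := by exact_mod_cast hpp.pos
    unfold lp at hp2 hp3
    have i1 : (N : ℝ) + 1 ≤ p := by
      rw [← hXe]
      exact (Real.le_log_iff_exp_le hp0).1 hp2
    have i2 : (p : ℝ) < (N : ℝ) + l + 1 := by
      rw [← hXh]
      exact (Real.log_lt_iff_lt_exp hp0).1 hp3
    refine ⟨hpp, ?_, ?_⟩
    · exact_mod_cast (by linarith : (N : ℝ) < p)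
    · have : p < N + l + 1 := by exact_mod_cast i2
      omega
  have hXlog : X + h ≤ 3 * Real.log N := by
    have i1 : X ≤ Real.log N + 1 := by
      rw [hX]
      have e : (N : ℝ) + 1 = N * (1 + 1 / N) := by field_simp
      rw [e, Real.log_mul hNpos.ne' (by positivity)]
      have i2 := Real.log_le_sub_one_of_pos (show (0 : ℝ) < 1 + 1 / N by positivity)
      have i3 : (1 : ℝ) / N ≤ 1 := by rw [div_le_one hNpos]; linarith
      linarith
    linarith
  have hXh0 : 0 < X + h := by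
    have : 0 < h := by linarith
    have : 0 ≤ X := by rw [hX]; exact Real.log_nonneg (by linarith)
    linarith
  obtain ⟨n, hn⟩ : ∃ n : ℝ, n = ({p : ℕ | p.Prime ∧ N < p ∧ p ≤ N + l}.ncard : ℝ) := ⟨_, rfl⟩
  rw [← hn] at hsub ⊢
  have hn0 : 0 ≤ n := by rw [hn]; positivity
  have f1 : c * h ≤ n * ((X + h) / ((N : ℝ) + 1)) := (hmass.trans hcount).trans (mul_le_mul_of_nonneg_right hsub (by positivity))
  have f2 : c * h * ((N : ℝ) + 1) ≤ n * (X + h) := by
    rw [← mul_div_assoc, le_div_iff₀ hN1] at f1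
    exact f1
  have f3 : c * (t / 2) * ((N : ℝ) + 1) ≤ c * h * ((N : ℝ) + 1) :=
    mul_le_mul_of_nonneg_right (mul_le_mul_of_nonneg_left hht2 hc.le) hN1.le
  have f4 : n * (X + h) ≤ n * (3 * Real.log N) := mul_le_mul_of_nonneg_left hXlog hn0
  have f5 : c * l ≤ n * (6 * Real.log N) := by
    have : c * (t / 2) * ((N : ℝ) + 1) = c * l / 2 := by rw [← htl]; ring
    linarith
  rw [← mul_div_assoc, div_le_iff₀ hlogN]
  linarith

end Pool.Agent.Helper34.HO
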