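import Pool.Agent.Helper34.HO.Defs

/-! Block HO-3: the function `Λ₂ = Λ log + Λ * Λ`. -/

set_option autoImplicit false

namespace Pool.Agent.Helper34.HO

open Finset

open scoped ArithmeticFunction.Moebius ArithmeticFunction.zeta ArithmeticFunction.vonMangoldt in
/-- Multiplication by the logarithm is a derivation. -/
private theorem deriv63 (f g : ArithmeticFunction ℝ) :
    (f * g).pmul ArithmeticFunction.log =
      f.pmul ArithmeticFunction.log * g + f * g.pmul ArithmeticFunction.log := by
  ext n
  simp only [ArithmeticFunction.pmul_apply, ArithmeticFunction.mul_apply, ArithmeticFunction.add_apply,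
    ArithmeticFunction.log_apply, Finset.sum_mul, ← Finset.sum_add_distrib]
  refine Finset.sum_congr rfl fun x hx => ?_
  obtain ⟨h1, h2⟩ := Nat.mem_divisorsAntidiagonal.1 hx
  have ha : (x.1 : ℝ) ≠ 0 := by
    have : x.1 ≠ 0 := fun h => h2 (by rw [← h1, h, zero_mul])
    exact_mod_cast this
  have hb : (x.2 : ℝ) ≠ 0 := by
    have : x.2 ≠ 0 := fun h => h2 (by rw [← h1, h, mul_zero])
    exact_mod_cast this
  rw [← h1, Nat.cast_mul, Real.log_mul ha hb]
  ring

open scoped ArithmeticFunction.Moebius ArithmeticFunction.zeta ArithmeticFunction.vonMangoldt in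
/-- The convolution identity of Selberg. -/
private theorem conv63 :
    ((Λ).pmul ArithmeticFunction.log + Λ * Λ) * (ζ : ArithmeticFunction ℝ) =
      (ArithmeticFunction.log).pmul ArithmeticFunction.log := by
  have h1 := deriv63 Λ (ζ : ArithmeticFunction ℝ)
  rw [ArithmeticFunction.vonMangoldt_mul_zeta] at h1
  have h2 : (ζ : ArithmeticFunction ℝ).pmul ArithmeticFunction.log = ArithmeticFunction.log := by
    ext n
    rw [ArithmeticFunction.pmul_apply, ArithmeticFunction.log_apply]
    rcases Nat.eq_zero_or_pos n with h | h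
    · subst h; simp
    · rw [ArithmeticFunction.natCoe_apply, ArithmeticFunction.zeta_apply_ne h.ne']; simp
  rw [h2] at h1
  rw [h1, add_mul, mul_assoc, ArithmeticFunction.vonMangoldt_mul_zeta]

open scoped ArithmeticFunction.Moebius ArithmeticFunction.zeta ArithmeticFunction.vonMangoldt in
/-- `L2` is the function `Λ log + Λ * Λ`. -/
private theorem L2_eq63 (n : ℕ) :
    L2 n = ((Λ).pmul ArithmeticFunction.log + Λ * Λ : ArithmeticFunction ℝ) n := by
  have h : ((Λ).pmul ArithmeticFunction.log + Λ * Λ : ArithmeticFunction ℝ) =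
      (μ : ArithmeticFunction ℝ) * (ArithmeticFunction.log).pmul ArithmeticFunction.log := by
    rw [← conv63, mul_comm (μ : ArithmeticFunction ℝ), mul_assoc, ArithmeticFunction.coe_zeta_mul_coe_moebius, mul_one]
  rw [h, ArithmeticFunction.mul_apply]
  simp only [ArithmeticFunction.intCoe_apply, ArithmeticFunction.pmul_apply, ArithmeticFunction.log_apply]
  rw [Nat.sum_divisorsAntidiagonal (fun i j => ((μ i : ℤ) : ℝ) * (Real.log (j : ℕ) * Real.log (j : ℕ)))]
  unfold L2
  refine Finset.sum_congr rfl fun d hd => ?_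
  obtain ⟨h1, h2⟩ := Nat.mem_divisors.1 hd
  have hd0 : (d : ℝ) ≠ 0 := by
    have : d ≠ 0 := fun h => h2 (by rw [h] at h1; exact Nat.eq_zero_of_zero_dvd h1)
    exact_mod_cast this
  have hn0 : (n : ℝ) ≠ 0 := by exact_mod_cast h2
  rw [Nat.cast_div h1 hd0, Real.log_div hn0 hd0, sq]

theorem L2_nonneg (n : ℕ) : 0 ≤ L2 n := by
  rw [L2_eq63, ArithmeticFunction.add_apply, ArithmeticFunction.pmul_apply, ArithmeticFunction.mul_apply,
    ArithmeticFunction.log_apply]
  exact add_nonneg (mul_nonneg ArithmeticFunction.vonMangoldt_nonneg (Real.log_natCast_nonneg n))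
    (Finset.sum_nonneg fun x _ => mul_nonneg ArithmeticFunction.vonMangoldt_nonneg
      ArithmeticFunction.vonMangoldt_nonneg)

theorem L2_le (n : ℕ) : L2 n ≤ Real.log n ^ 2 := by
  rcases Nat.eq_zero_or_pos n with h0 | h0
  · subst h0; simp [L2]
  have h := congrArg (fun f : ArithmeticFunction ℝ => f n) conv63
  simp only [ArithmeticFunction.coe_mul_zeta_apply,
    ArithmeticFunction.pmul_apply, ArithmeticFunction.log_apply] at h
  rw [sq, ← h, L2_eq63]
  have hs : ∀ d ∈ n.divisors, 0 ≤ ((ArithmeticFunction.vonMangoldt).pmul ArithmeticFunction.log +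
      ArithmeticFunction.vonMangoldt * ArithmeticFunction.vonMangoldt : ArithmeticFunction ℝ) d := fun d _ => by
    rw [← L2_eq63]; exact L2_nonneg d
  exact Finset.single_le_sum hs (Nat.mem_divisors_self n h0.ne')

/-- The function of von Mangoldt at a squarefree number. -/
private theorem mang63 {n : ℕ} (hn : Squarefree n) :
    ArithmeticFunction.vonMangoldt n = if n.Prime then Real.log n else 0 := by
  split_ifs with hp
  · exact ArithmeticFunction.vonMangoldt_apply_prime hp
  · rw [ArithmeticFunction.vonMangoldt_eq_zero_iff]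
    intro h
    obtain ⟨p, k, hp1, hk, hpk⟩ := (isPrimePow_nat_iff n).1 h
    have hk1 : k = 1 := by
      by_contra hne
      have h2 : 2 ≤ k := by omega
      have h3 : p * p ∣ n := by
        rw [← hpk]
        calc p * p = p ^ 2 := (sq p).symm
          _ ∣ p ^ k := pow_dvd_pow p h2
      have := hn p h3
      exact hp1.one_lt.ne' (Nat.isUnit_iff.1 this)
    rw [hk1, pow_one] at hpk
    exact hp (hpk ▸ hp1)

theorem L2_sqfree {n : ℕ} (hn : Squarefree n) : L2 n = (if n.Prime then Real.log n ^ 2 else 0) +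
    ∑ x ∈ n.divisorsAntidiagonal.filter (fun x => x.1.Prime ∧ x.2.Prime), Real.log x.1 * Real.log x.2 := by
  rw [L2_eq63, ArithmeticFunction.add_apply, ArithmeticFunction.pmul_apply, ArithmeticFunction.mul_apply,
    ArithmeticFunction.log_apply, mang63 hn, Finset.sum_filter]
  congr 1
  · split_ifs
    · rw [sq]
    · rw [zero_mul]
  · refine Finset.sum_congr rfl fun x hx => ?_
    obtain ⟨h1, h2⟩ := Nat.mem_divisorsAntidiagonal.1 hx
    have s1 : Squarefree x.1 := hn.squarefree_of_dvd ⟨x.2, h1.symm⟩
    have s2 : Squarefree x.2 := hn.squarefree_of_dvd ⟨x.1, by rw [mul_comm]; exact h1.symm⟩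
    rw [mang63 s1, mang63 s2]
    by_cases p1 : x.1.Prime <;> by_cases p2 : x.2.Prime <;> simp [p1, p2]

end Pool.Agent.Helper34.HO
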