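import Pool.Agent.Helper34.HO.Diff2
import Pool.Agent.Helper34.HO.Sel

/-! Block HO-7: from `L2` to the primes (`L2_sqfree`, `L2_le`, `nonsq_count`; the pairs `p = q` are negligible). -/

set_option autoImplicit false

namespace Pool.Agent.Helper34.HO

open Finset

private theorem mem_Rw93 {z a h : ℝ} {n : ℕ} : n ∈ Rw z a h ↔ Real.exp a ≤ (n : ℝ) ∧ (n : ℝ) < Real.exp (a + h) ∧ Rough z n := by
  rw [Rw, mem_filter, mem_range, Nat.lt_ceil]
  tauto

/-- The prime pairs with product `n`. -/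
private noncomputable def pr93 (n : ℕ) : Finset (ℕ × ℕ) :=
  n.divisorsAntidiagonal.filter (fun x => x.1.Prime ∧ x.2.Prime)

/-- `L2` up to the numbers which are not squarefree. -/
private noncomputable def G93 (n : ℕ) : ℝ :=
  (if n.Prime then Real.log n ^ 2 else 0) + ∑ x ∈ pr93 n, Real.log x.1 * Real.log x.2

private theorem mem_pr93 {n : ℕ} {x : ℕ × ℕ} : x ∈ pr93 n ↔ x.1 * x.2 = n ∧ x.1.Prime ∧ x.2.Prime := by
  rw [pr93, mem_filter, Nat.mem_divisorsAntidiagonal]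
  constructor
  · rintro ⟨⟨h1, _⟩, h2⟩
    exact ⟨h1, h2⟩
  · rintro ⟨h1, h2, h3⟩
    refine ⟨⟨h1, ?_⟩, h2, h3⟩
    rw [← h1]
    exact Nat.mul_ne_zero h2.ne_zero h3.ne_zero

private theorem G_nonneg93 (n : ℕ) : 0 ≤ G93 n := by
  unfold G93
  refine add_nonneg ?_ (sum_nonneg fun x _ => mul_nonneg (Real.log_natCast_nonneg _) (Real.log_natCast_nonneg _))
  split_ifs
  · exact sq_nonneg _
  · exact le_refl _

private theorem G_le93 {n : ℕ} (hn : ¬ Squarefree n) : G93 n ≤ Real.log n ^ 2 := by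
  unfold G93
  have h1 : ¬ n.Prime := fun h => hn h.prime.squarefree
  rw [if_neg h1, zero_add]
  have h2 : ∀ x ∈ pr93 n, x.1 = x.2 := by
    intro x hx
    obtain ⟨h3, h4, h5⟩ := mem_pr93.1 hx
    by_contra h6
    apply hn
    rw [← h3, Nat.squarefree_mul_iff]
    exact ⟨(Nat.coprime_primes h4 h5).2 h6, h4.prime.squarefree, h5.prime.squarefree⟩
  have h3 : ∀ x ∈ pr93 n, ∀ y ∈ pr93 n, x = y := by
    intro x hx y hy
    have hx1 := (mem_pr93.1 hx).1
    have hy1 := (mem_pr93.1 hy).1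
    have e1 := h2 x hx
    have e2 := h2 y hy
    have h4 : x.1 * x.1 = y.1 * y.1 := by
      calc x.1 * x.1 = n := by rw [← hx1, ← e1]
        _ = y.1 * y.1 := by rw [← hy1, ← e2]
    have h5 : x.1 = y.1 := Nat.mul_self_inj.1 h4
    exact Prod.ext h5 (by rw [← e1, ← e2, h5])
  rcases (pr93 n).eq_empty_or_nonempty with h4 | ⟨x, hx⟩
  · rw [h4, sum_empty]
    exact sq_nonneg _
  · have h5 : pr93 n = {x} := by
      ext y
      rw [mem_singleton]
      exact ⟨fun hy => h3 y hy x hx, fun hy => hy ▸ hx⟩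
    rw [h5, sum_singleton, sq]
    obtain ⟨h6, h7, h8⟩ := mem_pr93.1 hx
    have hn0 : 0 < n := by
      rw [← h6]
      exact Nat.mul_pos h7.pos h8.pos
    have d1 : x.1 ≤ n := Nat.le_of_dvd hn0 ⟨x.2, h6.symm⟩
    have d2 : x.2 ≤ n := Nat.le_of_dvd hn0 ⟨x.1, by rw [mul_comm]; exact h6.symm⟩
    have l1 : Real.log x.1 ≤ Real.log n := Real.log_le_log (by exact_mod_cast h7.pos) (by exact_mod_cast d1)
    have l2 : Real.log x.2 ≤ Real.log n := Real.log_le_log (by exact_mod_cast h8.pos) (by exact_mod_cast d2)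
    exact mul_le_mul l1 l2 (Real.log_natCast_nonneg _) (Real.log_natCast_nonneg _)

private theorem G_eq93 {n : ℕ} (hn : Squarefree n) : L2 n = G93 n := L2_sqfree hn

/-- The primes of `Pz` in the window are the primes of `Rw`. -/
private theorem primes93 {z a h B : ℝ} (hB : a + h ≤ B) :
    (Pz z B).filter (fun p => a ≤ lp p ∧ lp p < a + h) = (Rw z a h).filter Nat.Prime := by
  ext p
  rw [mem_filter, mem_filter, mem_Rw93, Pz, mem_filter, mem_range, Nat.lt_ceil]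
  unfold lp Rough
  constructor
  · rintro ⟨⟨_, h2, h3⟩, h4, h5⟩
    have hp : (0 : ℝ) < p := by exact_mod_cast h2.pos
    refine ⟨⟨(Real.le_log_iff_exp_le hp).1 h4, (Real.log_lt_iff_lt_exp hp).1 h5, h2.pos, ?_⟩, h2⟩
    intro q hq hqp
    rw [(Nat.prime_dvd_prime_iff_eq hq h2).1 hqp]
    exact h3
  · rintro ⟨⟨h1, h2, h3, h4⟩, h5⟩
    have hp : (0 : ℝ) < p := by exact_mod_cast h3
    exact ⟨⟨h2.trans_le (Real.exp_le_exp.2 hB), h5, h4 p h5 dvd_rfl⟩, (Real.le_log_iff_exp_le hp).2 h1,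
      (Real.log_lt_iff_lt_exp hp).2 h2⟩

private theorem t1_eq93 {z a h B : ℝ} (hB : a + h ≤ B) :
    t1 (Pz z B) wp lp a h = ∑ n ∈ Rw z a h, (if n.Prime then wp n else 0) := by
  rw [← sum_filter, ← primes93 hB, sum_filter]
  rfl

/-- The pairs of primes of `Pz` in the window. -/
private noncomputable def pairs93 (z B a h : ℝ) : Finset (ℕ × ℕ) :=
  (Pz z B ×ˢ Pz z B).filter (fun x => a ≤ lp x.1 + lp x.2 ∧ lp x.1 + lp x.2 < a + h)

private theorem mem_pairs93 {z a h B : ℝ} {x : ℕ × ℕ} (_hz : 1 ≤ z) (hB : a + h ≤ B) :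
    x ∈ pairs93 z B a h ↔ x.1.Prime ∧ x.2.Prime ∧ x.1 * x.2 ∈ Rw z a h := by
  rw [pairs93, mem_filter, mem_product, mem_Rw93, Pz, mem_filter, mem_filter, mem_range, mem_range, Nat.lt_ceil, Nat.lt_ceil]
  unfold lp Rough
  constructor
  · rintro ⟨⟨⟨_, h2, h3⟩, ⟨_, h5, h6⟩⟩, h7, h8⟩
    have hp : (0 : ℝ) < x.1 := by exact_mod_cast h2.pos
    have hq : (0 : ℝ) < x.2 := by exact_mod_cast h5.pos
    rw [← Real.log_mul hp.ne' hq.ne'] at h7 h8
    refine ⟨h2, h5, ?_, ?_, Nat.mul_pos h2.pos h5.pos, ?_⟩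
    · push_cast
      exact (Real.le_log_iff_exp_le (mul_pos hp hq)).1 h7
    · push_cast
      exact (Real.log_lt_iff_lt_exp (mul_pos hp hq)).1 h8
    · intro q hq hqp
      rcases (Nat.Prime.dvd_mul hq).1 hqp with h9 | h9
      · rw [(Nat.prime_dvd_prime_iff_eq hq h2).1 h9]
        exact h3
      · rw [(Nat.prime_dvd_prime_iff_eq hq h5).1 h9]
        exact h6
  · rintro ⟨h2, h5, h7, h8, h9, h10⟩
    have hp : (0 : ℝ) < x.1 := by exact_mod_cast h2.pos
    have hq : (0 : ℝ) < x.2 := by exact_mod_cast h5.pos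
    have hp1 : (1 : ℝ) ≤ x.1 := by exact_mod_cast h2.pos
    have hq1 : (1 : ℝ) ≤ x.2 := by exact_mod_cast h5.pos
    rw [← Real.log_mul hp.ne' hq.ne']
    push_cast at h7 h8
    have hB' : Real.exp (a + h) ≤ Real.exp B := Real.exp_le_exp.2 hB
    refine ⟨⟨⟨?_, h2, h10 _ h2 (dvd_mul_right _ _)⟩, ⟨?_, h5, h10 _ h5 (dvd_mul_left _ _)⟩⟩,
      (Real.le_log_iff_exp_le (mul_pos hp hq)).2 h7, (Real.log_lt_iff_lt_exp (mul_pos hp hq)).2 h8⟩
    · nlinarith
    · nlinarith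

private theorem pairs_sum93 {z a h B : ℝ} (hz : 1 ≤ z) (hB : a + h ≤ B) (F : ℕ × ℕ → ℝ) :
    ∑ x ∈ pairs93 z B a h, F x = ∑ n ∈ Rw z a h, ∑ x ∈ pr93 n, F x := by
  rw [← sum_fiberwise_of_maps_to (g := fun x : ℕ × ℕ => x.1 * x.2) (t := Rw z a h)
    (fun x hx => ((mem_pairs93 hz hB).1 hx).2.2)]
  refine sum_congr rfl fun n hn => sum_congr ?_ fun _ _ => rfl
  ext x
  rw [mem_filter, mem_pr93, mem_pairs93 hz hB]
  constructor
  · rintro ⟨⟨h1, h2, _⟩, h3⟩
    exact ⟨h3, h1, h2⟩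
  · rintro ⟨h1, h2, h3⟩
    exact ⟨⟨h2, h3, h1 ▸ hn⟩, h1⟩

private theorem t2_eq93 {z a h B : ℝ} (hz : 1 ≤ z) (hB : a + h ≤ B) :
    t2 (Pz z B) wp lp a h = ∑ n ∈ Rw z a h, ∑ x ∈ pr93 n, wp x.1 * wp x.2 := by
  rw [← pairs_sum93 hz hB (fun x => wp x.1 * wp x.2), pairs93, sum_filter, sum_product]
  rfl

/-- One `n` of the window. -/
private theorem one93 {a h : ℝ} (ha : 1 ≤ a) (hh : 0 ≤ h) {n : ℕ} (h1 : Real.exp a ≤ (n : ℝ)) (h2 : (n : ℝ) < Real.exp (a + h)) :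
    a * (if n.Prime then wp n else 0) + ∑ x ∈ pr93 n, wp x.1 * wp x.2 ≤ Real.exp (-a) * G93 n ∧
    Real.exp (-a) * G93 n ≤ Real.exp (2 * h) * (a * (if n.Prime then wp n else 0) + ∑ x ∈ pr93 n, wp x.1 * wp x.2) := by
  have hn : (0 : ℝ) < n := (Real.exp_pos a).trans_le h1
  have l1 : a ≤ Real.log n := (Real.le_log_iff_exp_le hn).2 h1
  have l2 : Real.log n < a + h := (Real.log_lt_iff_lt_exp hn).2 h2
  have i1 : 1 / (n : ℝ) ≤ Real.exp (-a) := by
    rw [Real.exp_neg, ← one_div]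
    exact one_div_le_one_div_of_le (Real.exp_pos a) h1
  have i2 : Real.exp (-a) ≤ Real.exp h * (1 / (n : ℝ)) := by
    rw [mul_one_div, le_div_iff₀ hn]
    calc Real.exp (-a) * n ≤ Real.exp (-a) * Real.exp (a + h) := mul_le_mul_of_nonneg_left h2.le (Real.exp_pos _).le
      _ = Real.exp h := by rw [← Real.exp_add]; congr 1; ring
  have eh : 1 ≤ Real.exp h := Real.one_le_exp hh
  have e2 : Real.exp (2 * h) = Real.exp h * Real.exp h := by rw [← Real.exp_add]; congr 1; ring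
  have hlog : 0 ≤ Real.log n := by linarith
  have hah : a + h ≤ a * Real.exp h := by
    have h3 := Real.add_one_le_exp h
    nlinarith
  have hpair : ∀ x ∈ pr93 n, wp x.1 * wp x.2 = Real.log x.1 * Real.log x.2 * (1 / (n : ℝ)) := by
    intro x hx
    obtain ⟨h3, h4, h5⟩ := mem_pr93.1 hx
    unfold wp
    rw [← h3]
    push_cast
    have hp : (x.1 : ℝ) ≠ 0 := by exact_mod_cast h4.ne_zero
    have hq : (x.2 : ℝ) ≠ 0 := by exact_mod_cast h5.ne_zero
    field_simp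
  have hD : ∑ x ∈ pr93 n, wp x.1 * wp x.2 = (∑ x ∈ pr93 n, Real.log x.1 * Real.log x.2) * (1 / (n : ℝ)) := by
    rw [sum_mul]
    exact sum_congr rfl hpair
  set D := ∑ x ∈ pr93 n, Real.log x.1 * Real.log x.2 with hDdef
  have hD0 : 0 ≤ D := sum_nonneg fun x _ => mul_nonneg (Real.log_natCast_nonneg _) (Real.log_natCast_nonneg _)
  have hi0 : 0 ≤ 1 / (n : ℝ) := by positivity
  rw [hD]
  unfold G93
  rw [← hDdef]
  have hDi1 : D * (1 / (n : ℝ)) ≤ Real.exp (-a) * D := by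
    rw [mul_comm]
    exact mul_le_mul_of_nonneg_right i1 hD0
  have hDi2 : Real.exp (-a) * D ≤ Real.exp (2 * h) * (D * (1 / (n : ℝ))) := by
    calc Real.exp (-a) * D ≤ Real.exp h * (1 / (n : ℝ)) * D := mul_le_mul_of_nonneg_right i2 hD0
      _ ≤ Real.exp (2 * h) * (1 / (n : ℝ)) * D := by
          refine mul_le_mul_of_nonneg_right (mul_le_mul_of_nonneg_right ?_ hi0) hD0
          rw [e2]
          nlinarith [Real.exp_pos h]
      _ = _ := by ring
  by_cases hp : n.Prime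
  · rw [if_pos hp, if_pos hp]
    have hw : wp n = Real.log n * (1 / (n : ℝ)) := by unfold wp; rw [mul_one_div]
    rw [hw]
    have p1 : a * (Real.log n * (1 / (n : ℝ))) ≤ Real.exp (-a) * Real.log n ^ 2 := by
      calc a * (Real.log n * (1 / (n : ℝ))) = (a * Real.log n) * (1 / (n : ℝ)) := by ring
        _ ≤ (Real.log n * Real.log n) * Real.exp (-a) :=
            mul_le_mul (mul_le_mul_of_nonneg_right l1 hlog) i1 hi0 (mul_nonneg hlog hlog)
        _ = _ := by ring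
    have p2 : Real.exp (-a) * Real.log n ^ 2 ≤ Real.exp (2 * h) * (a * (Real.log n * (1 / (n : ℝ)))) := by
      calc Real.exp (-a) * Real.log n ^ 2 = Real.exp (-a) * (Real.log n * Real.log n) := by ring
        _ ≤ (Real.exp h * (1 / (n : ℝ))) * ((a * Real.exp h) * Real.log n) := by
            refine mul_le_mul i2 (mul_le_mul_of_nonneg_right (l2.le.trans hah) hlog) (mul_nonneg hlog hlog) ?_
            exact mul_nonneg (Real.exp_pos _).le hi0
        _ = _ := by rw [e2]; ring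
    constructor
    · rw [mul_add]; linarith
    · rw [mul_add, mul_add]; linarith
  · rw [if_neg hp, if_neg hp]
    constructor
    · rw [mul_zero, zero_add, zero_add]; exact hDi1
    · rw [mul_zero, zero_add, zero_add]; exact hDi2

theorem conn (κ κ₁ τ : ℝ) (hκ : 0 < κ) (hκ₁ : 8 * κ ≤ κ₁) (hκ1 : κ₁ ≤ 1) (hτ : 0 < τ) : ∃ X₀ : ℝ, ∀ X a h : ℝ, X₀ ≤ X →
    κ₁ * X ≤ a → a ≤ 2 * X → Real.exp (-(κ * X)) ≤ h → h ≤ 1 → ∀ B : ℝ, a + h ≤ B →
    a * t1 (Pz (Real.exp (κ * X)) B) wp lp a h + t2 (Pz (Real.exp (κ * X)) B) wp lp a h ≤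
      Real.exp (-a) * ∑ n ∈ Rw (Real.exp (κ * X)) a h, L2 n + τ * h ∧
    Real.exp (-a) * ∑ n ∈ Rw (Real.exp (κ * X)) a h, L2 n ≤
      Real.exp (2 * h) * (a * t1 (Pz (Real.exp (κ * X)) B) wp lp a h + t2 (Pz (Real.exp (κ * X)) B) wp lp a h) + τ * h := by
  obtain ⟨X₁, hX₁⟩ := nonsq_count κ κ₁ hκ hκ₁ (9 / τ)
  have hκ₁0 : 0 < κ₁ := by linarith
  refine ⟨max X₁ (1 / κ₁), ?_⟩
  intro X a h hX ha ha2 hh hh1 B hB
  have hX1 : X₁ ≤ X := (le_max_left _ _).trans hX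
  have hX2 : 1 / κ₁ ≤ X := (le_max_right _ _).trans hX
  have ha1 : 1 ≤ a := by
    have : 1 ≤ κ₁ * X := by
      rw [div_le_iff₀ hκ₁0] at hX2
      linarith
    linarith
  have hX3 : 1 ≤ X := by
    have : 1 ≤ 1 / κ₁ := by
      rw [le_div_iff₀ hκ₁0]
      linarith
    linarith
  have hh0 : 0 < h := lt_of_lt_of_le (Real.exp_pos _) hh
  set z := Real.exp (κ * X) with hz
  have hz1 : 1 ≤ z := Real.one_le_exp (by positivity)
  have hcnt := hX₁ X a h hX1 ha ha2 hh hh1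
  set N := (Rw z a h).filter (fun n => ¬ Squarefree n) with hN
  -- the error
  have herr : ∑ n ∈ N, Real.log n ^ 2 ≤ τ * (Real.exp a * h) := by
    have h1 : ∑ n ∈ N, Real.log n ^ 2 ≤ ∑ _n ∈ N, 9 * X ^ 2 := by
      refine sum_le_sum fun n hn => ?_
      rw [hN, mem_filter, mem_Rw93] at hn
      obtain ⟨⟨h2, h3, _⟩, _⟩ := hn
      have hn0 : (0 : ℝ) < n := (Real.exp_pos a).trans_le h2
      have l1 : a ≤ Real.log n := (Real.le_log_iff_exp_le hn0).2 h2
      have l2 : Real.log n < a + h := (Real.log_lt_iff_lt_exp hn0).2 h3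
      have l3 : Real.log n ≤ 3 * X := by linarith
      have l4 : 0 ≤ Real.log n := by linarith
      calc Real.log n ^ 2 ≤ (3 * X) ^ 2 := pow_le_pow_left₀ l4 l3 2
        _ = 9 * X ^ 2 := by ring
    rw [sum_const, nsmul_eq_mul] at h1
    have h2 : (N.card : ℝ) * (9 * X ^ 2) = τ * (9 / τ * X ^ 2 * N.card) := by
      field_simp
    rw [h2] at h1
    exact h1.trans (mul_le_mul_of_nonneg_left hcnt hτ.le)
  have hea : Real.exp (-a) * (τ * (Real.exp a * h)) = τ * h := by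
    calc Real.exp (-a) * (τ * (Real.exp a * h)) = (Real.exp (-a) * Real.exp a) * (τ * h) := by ring
      _ = _ := by rw [← Real.exp_add, neg_add_cancel, Real.exp_zero, one_mul]
  have hea0 : 0 < Real.exp (-a) := Real.exp_pos _
  -- comparison of `L2` and `G93`
  have c1 : ∑ n ∈ Rw z a h, G93 n ≤ ∑ n ∈ Rw z a h, L2 n + ∑ n ∈ N, Real.log n ^ 2 := by
    rw [hN, sum_filter, ← sum_add_distrib]
    refine sum_le_sum fun n _ => ?_
    by_cases hs : Squarefree n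
    · rw [if_neg (not_not.2 hs), add_zero, G_eq93 hs]
    · rw [if_pos hs]
      have := G_le93 hs
      have := L2_nonneg n
      linarith
  have c2 : ∑ n ∈ Rw z a h, L2 n ≤ ∑ n ∈ Rw z a h, G93 n + ∑ n ∈ N, Real.log n ^ 2 := by
    rw [hN, sum_filter, ← sum_add_distrib]
    refine sum_le_sum fun n _ => ?_
    by_cases hs : Squarefree n
    · rw [if_neg (not_not.2 hs), add_zero, G_eq93 hs]
    · rw [if_pos hs]
      have := G_nonneg93 n
      have := L2_le n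
      linarith
  have d1 : a * t1 (Pz z B) wp lp a h + t2 (Pz z B) wp lp a h =
      ∑ n ∈ Rw z a h, (a * (if n.Prime then wp n else 0) + ∑ x ∈ pr93 n, wp x.1 * wp x.2) := by
    rw [t1_eq93 hB, t2_eq93 hz1 hB, mul_sum, ← sum_add_distrib]
  have d2 : a * t1 (Pz z B) wp lp a h + t2 (Pz z B) wp lp a h ≤ Real.exp (-a) * ∑ n ∈ Rw z a h, G93 n := by
    rw [d1, mul_sum]
    refine sum_le_sum fun n hn => ?_
    obtain ⟨h1, h2, _⟩ := mem_Rw93.1 hn
    exact (one93 ha1 hh0.le h1 h2).1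
  have d3 : Real.exp (-a) * ∑ n ∈ Rw z a h, G93 n ≤
      Real.exp (2 * h) * (a * t1 (Pz z B) wp lp a h + t2 (Pz z B) wp lp a h) := by
    rw [d1, mul_sum, mul_sum]
    refine sum_le_sum fun n hn => ?_
    obtain ⟨h1, h2, _⟩ := mem_Rw93.1 hn
    exact (one93 ha1 hh0.le h1 h2).2
  constructor
  · calc a * t1 (Pz z B) wp lp a h + t2 (Pz z B) wp lp a h ≤ Real.exp (-a) * ∑ n ∈ Rw z a h, G93 n := d2
      _ ≤ Real.exp (-a) * (∑ n ∈ Rw z a h, L2 n + τ * (Real.exp a * h)) :=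
          mul_le_mul_of_nonneg_left (c1.trans (by linarith)) hea0.le
      _ = _ := by rw [mul_add, hea]
  · calc Real.exp (-a) * ∑ n ∈ Rw z a h, L2 n ≤ Real.exp (-a) * (∑ n ∈ Rw z a h, G93 n + τ * (Real.exp a * h)) :=
          mul_le_mul_of_nonneg_left (c2.trans (by linarith)) hea0.le
      _ = Real.exp (-a) * ∑ n ∈ Rw z a h, G93 n + τ * h := by rw [mul_add, hea]
      _ ≤ _ := by linarith

end Pool.Agent.Helper34.HO
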