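import Pool.Agent.Helper34.HO.Defs

/-! Block HO-11: triple products, (T) of the paper. -/

set_option autoImplicit false

namespace Pool.Agent.Helper34.HO

open Finset

theorem t2_eq (P : Finset ℕ) (w l : ℕ → ℝ) (a h : ℝ) : t2 P w l a h = ∑ p ∈ P, w p * t1 P w l (a - l p) h := by
  unfold t2 t1
  refine sum_congr rfl fun p _ => ?_
  rw [mul_sum]
  refine sum_congr rfl fun q _ => ?_
  by_cases h1 : a ≤ l p + l q ∧ l p + l q < a + h
  · rw [if_pos h1, if_pos ⟨by linarith [h1.1], by linarith [h1.2]⟩]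
  · rw [if_neg h1, if_neg, mul_zero]
    rintro ⟨h2, h3⟩
    exact h1 ⟨by linarith, by linarith⟩

theorem t3_eq (P : Finset ℕ) (w l : ℕ → ℝ) (a h : ℝ) : t3 P w l a h = ∑ p ∈ P, w p * t2 P w l (a - l p) h := by
  unfold t3 t2
  refine sum_congr rfl fun p _ => ?_
  rw [mul_sum]
  refine sum_congr rfl fun q _ => ?_
  rw [mul_sum]
  refine sum_congr rfl fun r _ => ?_
  by_cases h1 : a ≤ l p + l q + l r ∧ l p + l q + l r < a + h
  · rw [if_pos h1, if_pos ⟨by linarith [h1.1], by linarith [h1.2]⟩, mul_assoc]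
  · rw [if_neg h1, if_neg, mul_zero]
    rintro ⟨h2, h3⟩
    exact h1 ⟨by linarith, by linarith⟩

end Pool.Agent.Helper34.HO
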