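import Pool.Agent.Helper34.HO.Mert
import Pool.Agent.Helper34.HO.Trip

/-! Block HO-9a: the twofold convolution on a long interval, from `mert_t1` and `t2_eq`. -/

set_option autoImplicit false

namespace Pool.Agent.Helper34.HO

open Finset

private theorem wp_nonneg93 (p : ℕ) : 0 ≤ wp p := by
  unfold wp
  exact div_nonneg (Real.log_natCast_nonneg p) (Nat.cast_nonneg p)

private theorem t1_nonneg93 (P : Finset ℕ) (a h : ℝ) : 0 ≤ t1 P wp lp a h := by
  unfold t1
  refine sum_nonneg fun p _ => ?_
  split_ifs
  · exact wp_nonneg93 p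
  · exact le_refl _

/-- A window which contains the other one (on the places of `P`) has more mass. -/
private theorem t1_mono93 (P : Finset ℕ) {a h a' h' : ℝ}
    (H : ∀ p ∈ P, a ≤ lp p → lp p < a + h → a' ≤ lp p ∧ lp p < a' + h') :
    t1 P wp lp a h ≤ t1 P wp lp a' h' := by
  unfold t1
  refine sum_le_sum fun p hp => ?_
  by_cases h1 : a ≤ lp p ∧ lp p < a + h
  · rw [if_pos h1, if_pos (H p hp h1.1 h1.2)]
  · rw [if_neg h1]
    split_ifs
    · exact wp_nonneg93 p
    · exact le_refl _

theorem t2_long : ∃ C : ℝ, 0 < C ∧ ∀ κ X a L B : ℝ, 0 < κ → κ ≤ 1 / 4 → 1 ≤ κ * X → 4 * (κ * X) ≤ a → a ≤ 2 * X → 0 ≤ L → L ≤ κ * X → a + L ≤ B →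
    |t2 (Pz (Real.exp (κ * X)) B) wp lp a L - a * L| ≤ C * (κ * X * L + L ^ 2 + X) := by
  obtain ⟨M, hM, hmert⟩ := mert_t1
  refine ⟨10 * (M + 1) ^ 2, by positivity, ?_⟩
  intro κ X a L B hκ hκ4 hκX hka haX hL0 hLk haB
  set k := κ * X with hk
  set z := Real.exp k with hz
  set P := Pz z B with hP
  have hX4 : 4 ≤ X := by
    have : κ * X ≤ 1 / 4 * X := by
      have hX0 : 0 ≤ X := by
        by_contra hneg
        push Not at hneg
        have : κ * X < 0 := mul_neg_of_pos_of_neg hκ hneg
        linarith
      exact mul_le_mul_of_nonneg_right hκ4 hX0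
    linarith
  have hz1 : 1 ≤ z := by rw [hz]; exact Real.one_le_exp (by linarith)
  have hlogz : Real.log z = k := by rw [hz, Real.log_exp]
  -- the places of `P` are at least `k`
  have hPk : ∀ p ∈ P, k ≤ lp p := by
    intro p hp
    rw [hP, Pz, mem_filter] at hp
    have h1 : z ≤ (p : ℝ) := hp.2.2
    unfold lp
    rw [← hlogz]
    exact Real.log_le_log (by rw [hz]; exact Real.exp_pos _) h1
  -- upper bound for all windows of length `L`
  have hup : ∀ u : ℝ, t1 P wp lp u L ≤ L + M := by
    intro u
    rcases le_total 0 u with hu | hu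
    · have := (hmert z B u (u + L) hz1 hu (by linarith)).1
      rw [add_sub_cancel_left] at this
      exact this
    · have h1 : t1 P wp lp u L ≤ t1 P wp lp 0 L := by
        refine t1_mono93 P fun p hp h2 h3 => ⟨?_, by linarith⟩
        have := hPk p hp
        linarith
      have := (hmert z B 0 L hz1 (le_refl _) hL0).1
      rw [sub_zero] at this
      exact h1.trans this
  -- the small places
  set S := ∑ p ∈ P, (if lp p < a - k then wp p else 0) with hS
  have hSt : S = t1 P wp lp k (a - k - k) := by
    rw [hS]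
    unfold t1
    refine sum_congr rfl fun p hp => ?_
    have h1 := hPk p hp
    have e : k + (a - k - k) = a - k := by ring
    rw [e]
    by_cases h2 : lp p < a - k
    · rw [if_pos h2, if_pos ⟨h1, h2⟩]
    · rw [if_neg h2, if_neg (fun h3 => h2 h3.2)]
  have hS1 := (hmert z B k (a - k) hz1 (by linarith) (by linarith)).1
  have hS2 := (hmert z B k (a - k) hz1 (by linarith) (by linarith)).2 (le_of_eq hlogz) (by linarith)
  rw [← hSt] at hS1 hS2
  have hS0 : 0 ≤ S := by
    rw [hSt]; exact t1_nonneg93 _ _ _
  -- lower bound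
  have hlow : S * (L - M) ≤ t2 P wp lp a L := by
    rw [t2_eq, hS, sum_mul]
    refine sum_le_sum fun p hp => ?_
    have hw := wp_nonneg93 p
    have ht := t1_nonneg93 P (a - lp p) L
    have hpk := hPk p hp
    by_cases h2 : lp p < a - k
    · rw [if_pos h2]
      refine mul_le_mul_of_nonneg_left ?_ hw
      have := (hmert z B (a - lp p) (a - lp p + L) hz1 (by linarith) (by linarith)).2 (by rw [hlogz]; linarith) (by linarith)
      rw [add_sub_cancel_left] at this
      exact this
    · rw [if_neg h2, zero_mul]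
      exact mul_nonneg hw ht
  -- upper bound
  have hupp : t2 P wp lp a L ≤ S * (L + M) + (L + M) * (L + M) := by
    have hR : ∑ p ∈ P, (if a - k ≤ lp p ∧ lp p < a - k + L then wp p else 0) = t1 P wp lp (a - k) L := rfl
    have h0 : t1 P wp lp (a - k) L * (L + M) ≤ (L + M) * (L + M) :=
      mul_le_mul_of_nonneg_right (hup _) (by linarith)
    refine le_trans ?_ (add_le_add (le_refl (S * (L + M))) h0)
    rw [t2_eq, hS, ← hR, sum_mul, sum_mul, ← sum_add_distrib]
    refine sum_le_sum fun p hp => ?_
    have hw := wp_nonneg93 p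
    have ht := hup (a - lp p)
    have hLM : 0 ≤ L + M := by linarith
    by_cases h2 : lp p < a - k
    · rw [if_pos h2]
      have h3 : 0 ≤ (if a - k ≤ lp p ∧ lp p < a - k + L then wp p else 0) * (L + M) := by
        refine mul_nonneg ?_ hLM
        split_ifs
        · exact hw
        · exact le_refl _
      have h4 := mul_le_mul_of_nonneg_left ht hw
      linarith
    · rw [if_neg h2, zero_mul, zero_add]
      by_cases h3 : lp p < a - k + L
      · rw [if_pos ⟨not_lt.1 h2, h3⟩]
        exact mul_le_mul_of_nonneg_left ht hw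
      · rw [if_neg (fun h4 => h3 h4.2), zero_mul]
        have h4 : t1 P wp lp (a - lp p) L = 0 := by
          unfold t1
          refine sum_eq_zero fun q hq => ?_
          rw [if_neg]
          rintro ⟨_, h5⟩
          have h6 := hPk q hq
          push Not at h3
          linarith
        rw [h4, mul_zero]
  have hX0 : 0 ≤ X := by linarith
  have hkL : 0 ≤ k * L := mul_nonneg (by linarith) hL0
  have hML : M * L ≤ M * X := mul_le_mul_of_nonneg_left (by
    have : k ≤ 1 / 4 * X := by
      rw [hk]; exact mul_le_mul_of_nonneg_right hκ4 hX0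
    linarith) hM.le
  have hMM : M * M ≤ M * M * X := by
    have : 0 ≤ M * M := by positivity
    nlinarith
  have haM : a * M ≤ 2 * X * M := mul_le_mul_of_nonneg_right haX hM.le
  have hC : 10 * (M + 1) ^ 2 * (k * L + L ^ 2 + X) =
      10 * (k * L) + 20 * (M * (k * L)) + 10 * (M * M * (k * L)) + 10 * (L ^ 2) + 20 * (M * L ^ 2) + 10 * (M * M * L ^ 2) +
        10 * X + 20 * (M * X) + 10 * (M * M * X) := by ring
  have n1 : 0 ≤ M * (k * L) := mul_nonneg hM.le hkL
  have n2 : 0 ≤ M * M * (k * L) := by positivity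
  have n3 : 0 ≤ M * L ^ 2 := by positivity
  have n4 : 0 ≤ M * M * L ^ 2 := by positivity
  have n5 : 0 ≤ M * X := by positivity
  have n6 : 0 ≤ M * M * X := by positivity
  have n7 : 0 ≤ L ^ 2 := by positivity
  rw [hC, abs_le]
  constructor
  · -- lower
    have h1 : (a - k - k - M) * L ≤ S * L := mul_le_mul_of_nonneg_right hS2 hL0
    have h2 : S * M ≤ (a - k - k + M) * M := mul_le_mul_of_nonneg_right hS1 hM.le
    have h3 : 0 ≤ k * M := mul_nonneg (by linarith) hM.le
    have e1 : S * (L - M) = S * L - S * M := by ring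
    rw [e1] at hlow
    nlinarith
  · have h1 : S * (L + M) ≤ (a - k - k + M) * (L + M) := mul_le_mul_of_nonneg_right hS1 (by linarith)
    have h3 : 0 ≤ k * M := mul_nonneg (by linarith) hM.le
    nlinarith

end Pool.Agent.Helper34.HO
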