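import Pool.Agent.Helper34.HO.Defs

/-! Additivity of `t1`, `t2` in the window. -/

set_option autoImplicit false

namespace Pool.Agent.Helper34.HO

open Finset

variable (P : Finset ℕ) (w l : ℕ → ℝ)

private theorem ite34 {x a u v c : ℝ} (hu : 0 ≤ u) (hv : 0 ≤ v) : (if a ≤ x ∧ x < a + (u + v) then c else 0) =
    (if a ≤ x ∧ x < a + u then c else 0) + (if a + u ≤ x ∧ x < a + u + v then c else 0) := by
  by_cases h1 : a ≤ x
  · by_cases h2 : x < a + u
    · have h3 : ¬ (a + u ≤ x) := not_le.2 h2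
      have h4 : x < a + (u + v) := by linarith
      simp [h1, h2, h4, h3]
    · have h3 : a + u ≤ x := not_lt.1 h2
      by_cases h4 : x < a + u + v
      · have h5 : x < a + (u + v) := by linarith
        simp [h1, h2, h3, h4, h5]
      · have h5 : ¬ x < a + (u + v) := by intro h; exact h4 (by linarith)
        simp [h1, h2, h3, h4, h5]
  · have h3 : ¬ (a + u ≤ x) := by intro h; exact h1 (by linarith)
    simp [h1, h3]

theorem t1_add {a u v : ℝ} (hu : 0 ≤ u) (hv : 0 ≤ v) : t1 P w l a (u + v) = t1 P w l a u + t1 P w l (a + u) v := by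
  unfold t1
  rw [← sum_add_distrib]
  exact sum_congr rfl fun p _ => ite34 hu hv

theorem t2_add {a u v : ℝ} (hu : 0 ≤ u) (hv : 0 ≤ v) : t2 P w l a (u + v) = t2 P w l a u + t2 P w l (a + u) v := by
  unfold t2
  rw [← sum_add_distrib]
  refine sum_congr rfl fun p _ => ?_
  rw [← sum_add_distrib]
  exact sum_congr rfl fun q _ => ite34 hu hv

theorem t1_zero (a : ℝ) : t1 P w l a 0 = 0 := by
  unfold t1
  refine sum_eq_zero fun p _ => if_neg ?_
  rintro ⟨h1, h2⟩
  linarith

theorem t2_zero (a : ℝ) : t2 P w l a 0 = 0 := by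
  unfold t2
  refine sum_eq_zero fun p _ => sum_eq_zero fun q _ => if_neg ?_
  rintro ⟨h1, h2⟩
  linarith

theorem t1_tile {a h : ℝ} (hh : 0 ≤ h) (K : ℕ) : ∑ k ∈ range K, t1 P w l (a + k * h) h = t1 P w l a (K * h) := by
  induction K with
  | zero => simp [t1_zero]
  | succ K ih =>
    rw [sum_range_succ, ih]
    push_cast
    rw [add_mul, one_mul, t1_add P w l (by positivity) hh]

theorem t2_tile {a h : ℝ} (hh : 0 ≤ h) (K : ℕ) : ∑ k ∈ range K, t2 P w l (a + k * h) h = t2 P w l a (K * h) := by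
  induction K with
  | zero => simp [t2_zero]
  | succ K ih =>
    rw [sum_range_succ, ih]
    push_cast
    rw [add_mul, one_mul, t2_add P w l (by positivity) hh]

variable {P} {w l}

theorem t1_nonneg (hw : ∀ p ∈ P, 0 ≤ w p) (a h : ℝ) : 0 ≤ t1 P w l a h := by
  unfold t1
  refine sum_nonneg fun p hp => ?_
  split_ifs
  · exact hw p hp
  · exact le_rfl

theorem t2_nonneg (hw : ∀ p ∈ P, 0 ≤ w p) (a h : ℝ) : 0 ≤ t2 P w l a h := by
  unfold t2
  refine sum_nonneg fun p hp => sum_nonneg fun q hq => ?_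
  split_ifs
  · exact mul_nonneg (hw p hp) (hw q hq)
  · exact le_rfl

theorem wp_nonneg (p : ℕ) : 0 ≤ wp p := div_nonneg (Real.log_natCast_nonneg p) (Nat.cast_nonneg p)

theorem lp_nonneg (p : ℕ) : 0 ≤ lp p := Real.log_natCast_nonneg p

end Pool.Agent.Helper34.HO
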