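import Pool.Agent.Helper34.HO.WinA
import Pool.Agent.Helper34.HO.Conn
import Pool.Agent.Helper34.HO.TLong
import Pool.Agent.Helper34.HO.Tile

/-! Block HO-9: the value of the main term, by an average over a long interval ((2c) of the paper). -/

set_option autoImplicit false

namespace Pool.Agent.Helper34.HO

open Finset

private theorem exp34 {h : ℝ} (h0 : 0 ≤ h) (h1 : h ≤ 1 / 2) : Real.exp (2 * h) ≤ 1 + 4 * h := by
  have h2 := Real.exp_bound' (x := 2 * h) (by linarith) (by linarith) (n := 1) (by norm_num)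
  norm_num at h2
  linarith

private theorem fin34 {a L X M C1 C3 κ τ τ₀ E V h lam SS TT u1 u2 : ℝ} (ha2 : a ≤ 3 / 2 * X) (ha0 : 0 ≤ a) (hX0 : 0 < X) (hX10 : 10 ≤ X)
    (hM : 0 < M) (hC3 : 0 < C3) (hκ : 0 < κ) (hκ1 : κ ≤ 1 / 10) (hτ : 0 < τ) (hττ : 20 * τ ≤ τ₀) (hEκ : κ ≤ E) (hh : 0 < h) (hh2 : h ≤ 1 / 2)
    (hhτ : 4 * h * (3 + C3 + 4 * τ) ≤ τ) (hlamτ : lam ≤ τ) (hlamC : C3 * lam ≤ τ) (hL1 : L ≤ lam * X)
    (hL2 : lam * X / 2 ≤ L) (hL0 : 0 < L) (hLX : a + L ≤ 2 * X) (k6 : 2 * C3 ≤ X * (lam * τ)) (k7 : 4 * M ≤ X * (lam * τ))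
    (e3 : |SS - L * V| ≤ L * X * (C1 * E + 2 * τ)) (e4 : TT ≤ SS + τ * L) (e5 : SS ≤ Real.exp (2 * h) * TT + τ * L)
    (e61 : a * u1 + u2 ≤ TT) (e62 : TT ≤ (a + L) * u1 + u2) (m1 : u1 ≤ L + M) (m2 : L - M ≤ u1) (hu1 : 0 ≤ u1) (hu2 : 0 ≤ u2)
    (n1 : -(C3 * (κ * X * L + L ^ 2 + X)) ≤ u2 - a * L) (n2 : u2 - a * L ≤ C3 * (κ * X * L + L ^ 2 + X)) :
    |V - 2 * a| ≤ X * ((C1 + C3) * E + τ₀) := by
  obtain ⟨p1, p2⟩ := abs_le.1 e3
  -- the error terms
  have r1 : L ^ 2 ≤ τ * X * L := by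
    have h1 : L ≤ τ * X := hL1.trans (mul_le_mul_of_nonneg_right hlamτ hX0.le)
    calc L ^ 2 = L * L := by ring
      _ ≤ τ * X * L := mul_le_mul_of_nonneg_right h1 hL0.le
  have r2 : C3 * L ^ 2 ≤ τ * X * L := by
    have h1 : C3 * lam ≤ τ := hlamC
    have h2 : C3 * L ≤ τ * X := by
      calc C3 * L ≤ C3 * (lam * X) := mul_le_mul_of_nonneg_left hL1 hC3.le
        _ = C3 * lam * X := by ring
        _ ≤ τ * X := mul_le_mul_of_nonneg_right h1 hX0.le
    calc C3 * L ^ 2 = C3 * L * L := by ring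
      _ ≤ τ * X * L := mul_le_mul_of_nonneg_right h2 hL0.le
  have r3 : C3 * X ≤ τ * X * L := by
    have h1 : C3 ≤ τ * L := by
      have h0 := mul_le_mul_of_nonneg_left hL2 hτ.le
      linarith
    calc C3 * X ≤ τ * L * X := mul_le_mul_of_nonneg_right h1 hX0.le
      _ = _ := by ring
  have r4 : 2 * X * M ≤ τ * X * L := by
    have h1 : 2 * M ≤ τ * L := by
      have h0 := mul_le_mul_of_nonneg_left hL2 hτ.le
      linarith
    calc 2 * X * M = 2 * M * X := by ring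
      _ ≤ τ * L * X := mul_le_mul_of_nonneg_right h1 hX0.le
      _ = _ := by ring
  have r5 : τ * L ≤ τ * X * L := by
    have h0 := mul_le_mul_of_nonneg_right (show (1 : ℝ) ≤ X by linarith) (mul_pos hτ hL0).le
    linarith
  have r6 : (C3 * κ) * (X * L) ≤ (C3 * E) * (X * L) :=
    mul_le_mul_of_nonneg_right (mul_le_mul_of_nonneg_left hEκ hC3.le) (by positivity)
  have r7 : C3 * (κ * X * L + L ^ 2 + X) ≤ (C3 * κ) * (X * L) + 2 * (τ * X * L) := by linarith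
  have hXL : 0 < X * L := by positivity
  have q1 : TT ≤ 2 * a * L + (C3 * κ) * (X * L) + 4 * (τ * X * L) := by
    have h1 : (a + L) * u1 ≤ (a + L) * (L + M) := mul_le_mul_of_nonneg_left m1 (by linarith)
    have h2 : (a + L) * M ≤ 2 * X * M := mul_le_mul_of_nonneg_right (by linarith) hM.le
    have h3 := e62
    have h4 : (a + L) * (L + M) = a * L + L ^ 2 + (a + L) * M := by ring
    linarith
  have q2 : 2 * a * L - (C3 * κ) * (X * L) - 3 * (τ * X * L) ≤ TT := by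
    have h1 : a * (L - M) ≤ a * u1 := mul_le_mul_of_nonneg_left m2 (by linarith)
    have h2 : a * M ≤ 2 * X * M := mul_le_mul_of_nonneg_right (by linarith) hM.le
    have h3 := e61
    have h4 : a * (L - M) = a * L - a * M := by ring
    linarith
  have q3 : Real.exp (2 * h) * TT ≤ TT + τ * X * L := by
    have hTT : 0 ≤ TT := by
      refine le_trans ?_ e61
      positivity
    have h1 := mul_le_mul_of_nonneg_right (exp34 hh.le hh2) hTT
    have h2 : TT ≤ (3 + C3 + 4 * τ) * (X * L) := by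
      have i1 : 2 * a * L ≤ 3 * (X * L) := by
        have := mul_le_mul_of_nonneg_right ha2 hL0.le
        linarith
      have i2 : (C3 * κ) * (X * L) ≤ C3 * (X * L) := mul_le_mul_of_nonneg_right (mul_le_of_le_one_right hC3.le (by linarith)) hXL.le
      linarith
    have h3 := mul_le_mul_of_nonneg_left h2 (show 0 ≤ 4 * h by linarith)
    have h4 := mul_le_mul_of_nonneg_right hhτ hXL.le
    linarith
  have f1 : L * (V - 2 * a) ≤ L * (X * ((C1 + C3) * E + τ₀)) := by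
    have h1 : L * X * (20 * τ) ≤ L * X * τ₀ := mul_le_mul_of_nonneg_left hττ (by positivity)
    have h2 : 0 ≤ τ * X * L := by positivity
    have h3 : L * (X * ((C1 + C3) * E + τ₀)) = L * X * (C1 * E) + (C3 * E) * (X * L) + L * X * τ₀ := by ring
    have h4 : L * (V - 2 * a) = L * V - 2 * a * L := by ring
    have h5 : L * X * (C1 * E + 2 * τ) = L * X * (C1 * E) + 2 * (τ * X * L) := by ring
    have h6 : L * X * (20 * τ) = 20 * (τ * X * L) := by ring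
    rw [h3, h4]
    rw [h5] at p1 p2
    rw [h6] at h1
    linarith
  have f2 : L * (2 * a - V) ≤ L * (X * ((C1 + C3) * E + τ₀)) := by
    have h1 : L * X * (20 * τ) ≤ L * X * τ₀ := mul_le_mul_of_nonneg_left hττ (by positivity)
    have h2 : 0 ≤ τ * X * L := by positivity
    have h3 : L * (X * ((C1 + C3) * E + τ₀)) = L * X * (C1 * E) + (C3 * E) * (X * L) + L * X * τ₀ := by ring
    have h4 : L * (2 * a - V) = 2 * a * L - L * V := by ring
    have h5 : L * X * (C1 * E + 2 * τ) = L * X * (C1 * E) + 2 * (τ * X * L) := by ring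
    have h6 : L * X * (20 * τ) = 20 * (τ * X * L) := by ring
    rw [h3, h4]
    rw [h5] at p1 p2
    rw [h6] at h1
    linarith
  rw [abs_le]
  constructor
  · linarith [le_of_mul_le_mul_left f2 hL0]
  · exact le_of_mul_le_mul_left f1 hL0

theorem avg : ∃ C : ℝ, 0 < C ∧ ∀ (s : ℕ) (ε z₀ : ℝ), 1 ≤ s → FL s ε z₀ → 0 ≤ ε → ε ≤ 1 → ∀ κ κ₁ τ : ℝ, 0 < κ → κ₁ ≤ 1 →
    (2 * s + 8) * κ ≤ κ₁ → 0 < τ → ∃ X₀ : ℝ, ∀ X a : ℝ, X₀ ≤ X → κ₁ * X ≤ a → a ≤ 3 / 2 * X →
    |Vz (Real.exp (κ * X)) * Qz (Real.exp (κ * X)) a (a - (s + 2) * (κ * X)) - 2 * a| ≤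
      X * (C * (ε / κ ^ 2 + (s : ℝ) ^ 3 * κ) + τ) := by
  obtain ⟨C1, hC1, hA⟩ := winA
  obtain ⟨C2, hC2, hL⟩ := VQ_lip
  obtain ⟨C3, hC3, hT⟩ := t2_long
  obtain ⟨M, hM, hMe⟩ := mert_t1
  refine ⟨C1 + C3, by positivity, fun s ε z₀ hs hFL hε0 hε1 κ κ₁ τ₀ hκ hκ₁ hsκ hτ₀ => ?_⟩
  obtain ⟨τ, hτ, hττ⟩ : ∃ τ : ℝ, 0 < τ ∧ 20 * τ ≤ τ₀ := ⟨τ₀ / 20, by positivity, by linarith⟩
  have hs1 : (1 : ℝ) ≤ s := by exact_mod_cast hs
  have hκ8 : 8 * κ ≤ κ₁ := by nlinarith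
  have hκ10 : 10 * κ ≤ κ₁ := by nlinarith
  obtain ⟨X₁, h₀, hh₀, hA⟩ := hA s ε z₀ hs hFL hε0 hε1 κ κ₁ τ hκ hκ₁ hsκ hτ
  obtain ⟨X₂, hCo⟩ := conn κ κ₁ τ hκ hκ8 hκ₁ hτ
  -- the length of the long interval
  obtain ⟨lam, hlam, hlamκ, hlamτ, hlamC⟩ : ∃ lam : ℝ, 0 < lam ∧ lam ≤ κ ∧ lam ≤ τ ∧ (C2 / κ ^ 2 + C3) * lam ≤ τ := by
    refine ⟨min κ (min τ (τ / (C2 / κ ^ 2 + C3))), by positivity, min_le_left _ _, (min_le_right _ _).trans (min_le_left _ _), ?_⟩
    have h1 : 0 < C2 / κ ^ 2 + C3 := by positivity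
    calc (C2 / κ ^ 2 + C3) * min κ (min τ (τ / (C2 / κ ^ 2 + C3))) ≤ (C2 / κ ^ 2 + C3) * (τ / (C2 / κ ^ 2 + C3)) :=
          mul_le_mul_of_nonneg_left ((min_le_right _ _).trans (min_le_right _ _)) h1.le
      _ = τ := by field_simp
  -- the small windows
  obtain ⟨h, hh, hhh₀, hh2, hhτ⟩ : ∃ h : ℝ, 0 < h ∧ h ≤ h₀ ∧ h ≤ 1 / 2 ∧ 4 * h * (3 + C3 + 4 * τ) ≤ τ := by
    refine ⟨min h₀ (min (1 / 2) (τ / (4 * (3 + C3 + 4 * τ)))), by positivity, min_le_left _ _, (min_le_right _ _).trans (min_le_left _ _), ?_⟩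
    have h1 : 0 < 4 * (3 + C3 + 4 * τ) := by positivity
    calc 4 * min h₀ (min (1 / 2) (τ / (4 * (3 + C3 + 4 * τ)))) * (3 + C3 + 4 * τ) = (4 * (3 + C3 + 4 * τ)) * min h₀ (min (1 / 2) (τ / (4 * (3 + C3 + 4 * τ)))) := by ring
      _ ≤ (4 * (3 + C3 + 4 * τ)) * (τ / (4 * (3 + C3 + 4 * τ))) :=
          mul_le_mul_of_nonneg_left ((min_le_right _ _).trans (min_le_right _ _)) h1.le
      _ = τ := by field_simp
  obtain ⟨X₃, hX₃⟩ : ∃ X₃ : ℝ, ∀ X, X₃ ≤ X → Real.exp (-(κ * X)) ≤ h := by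
    refine ⟨-Real.log h / κ, fun X hX => ?_⟩
    rw [div_le_iff₀ hκ] at hX
    rw [← Real.le_log_iff_exp_le hh]
    linarith
  refine ⟨max (max X₁ X₂) (max X₃ (max (1 / κ) (max (1 / lam) (max (2 * C3 / (lam * τ)) (4 * M / (lam * τ)))))), fun X a hX ha1 ha2 => ?_⟩
  have k1 : X₁ ≤ X := (le_max_left _ _).trans ((le_max_left _ _).trans hX)
  have k2 : X₂ ≤ X := (le_max_right _ _).trans ((le_max_left _ _).trans hX)
  have k0 := (le_max_right _ _).trans hX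
  have k3 : X₃ ≤ X := (le_max_left _ _).trans k0
  have k0 := (le_max_right _ _).trans k0
  have k4 : 1 / κ ≤ X := (le_max_left _ _).trans k0
  have k0 := (le_max_right _ _).trans k0
  have k5 : 1 / lam ≤ X := (le_max_left _ _).trans k0
  have k0 := (le_max_right _ _).trans k0
  have k6 : 2 * C3 / (lam * τ) ≤ X := (le_max_left _ _).trans k0
  have k7 : 4 * M / (lam * τ) ≤ X := (le_max_right _ _).trans k0
  clear k0
  rw [div_le_iff₀ hκ] at k4
  rw [div_le_iff₀ hlam] at k5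
  rw [div_le_iff₀ (by positivity)] at k6 k7
  have hκ1 : κ ≤ 1 / 10 := by linarith
  have hX0 : 0 < X := by
    by_contra hneg
    push Not at hneg
    nlinarith
  have hX10 : 10 ≤ X := by nlinarith
  have hκX : 1 ≤ κ * X := by linarith
  obtain ⟨z, hz⟩ : ∃ z : ℝ, z = Real.exp (κ * X) := ⟨_, rfl⟩
  obtain ⟨b, hb⟩ : ∃ b : ℝ, b = a - (s + 2) * (κ * X) := ⟨_, rfl⟩
  rw [← hz, ← hb]
  have ha0 : 10 * (κ * X) ≤ a := by nlinarith
  have hba : b ≤ a := by rw [hb]; nlinarith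
  have hbκ : κ * X ≤ b := by
    have : (2 * s + 8) * κ * X ≤ κ₁ * X := mul_le_mul_of_nonneg_right hsκ hX0.le
    have h1 : 0 ≤ κ * X := by positivity
    have h2 : 0 ≤ (s : ℝ) * (κ * X) := by positivity
    rw [hb]
    nlinarith
  obtain ⟨K, hK⟩ : ∃ K : ℕ, K = ⌊lam * X / h⌋₊ := ⟨_, rfl⟩
  obtain ⟨L, hLd⟩ : ∃ L : ℝ, L = K * h := ⟨_, rfl⟩
  have hL1 : L ≤ lam * X := by
    have h1 := Nat.floor_le (show 0 ≤ lam * X / h by positivity)
    rw [← hK, le_div_iff₀ hh] at h1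
    rw [hLd]; exact h1
  have hL2 : lam * X / 2 ≤ L := by
    have h1 := Nat.lt_floor_add_one (lam * X / h)
    rw [← hK, div_lt_iff₀ hh] at h1
    rw [hLd]
    nlinarith
  have hL0 : 0 < L := by
    refine lt_of_lt_of_le ?_ hL2
    positivity
  obtain ⟨P, hP⟩ : ∃ P : Finset ℕ, P = Pz z (3 * X) := ⟨_, rfl⟩
  obtain ⟨V, hV⟩ : ∃ V : ℝ, V = Vz z * Qz z a b := ⟨_, rfl⟩
  obtain ⟨E, hE⟩ : ∃ E : ℝ, E = ε / κ ^ 2 + (s : ℝ) ^ 3 * κ := ⟨_, rfl⟩
  rw [← hV, ← hE]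
  have hEκ : κ ≤ E := by
    have h1 : (1 : ℝ) ≤ (s : ℝ) ^ 3 := one_le_pow₀ hs1
    have h2 : 0 ≤ ε / κ ^ 2 := by positivity
    rw [hE]
    nlinarith
  have hlamX : lam * X ≤ κ * X := mul_le_mul_of_nonneg_right hlamκ hX0.le
  -- the single windows
  have hk : ∀ k ∈ range K, a ≤ a + k * h ∧ a + k * h ≤ a + L - h := by
    intro k hk
    have h1 : (k : ℝ) + 1 ≤ K := by exact_mod_cast mem_range.1 hk
    have h2 : ((k : ℝ) + 1) * h ≤ K * h := mul_le_mul_of_nonneg_right h1 hh.le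
    constructor
    · have : (0 : ℝ) ≤ k * h := by positivity
      linarith
    · rw [hLd]; linarith
  obtain ⟨S, hS⟩ : ∃ S : ℕ → ℝ, S = fun k : ℕ => Real.exp (-(a + k * h)) * ∑ n ∈ Rw z (a + k * h) h, L2 n := ⟨_, rfl⟩
  obtain ⟨T, hTd⟩ : ∃ T : ℕ → ℝ, T = fun k : ℕ => (a + k * h) * t1 P wp lp (a + k * h) h + t2 P wp lp (a + k * h) h := ⟨_, rfl⟩
  have e1 : ∀ k ∈ range K, |S k - h * V| ≤ h * X * (C1 * E + 2 * τ) := by
    intro k hkk
    obtain ⟨i1, i2⟩ := hk k hkk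
    have h1 := hA X (a + k * h) b h k1 (by linarith) (by linarith) (by rw [hb]; linarith) (by rw [hb]; linarith) (hX₃ X k3) hhh₀
    rw [← hz, ← hE] at h1
    have h2 := hL κ X a (a + k * h) b hκ (by linarith) hκX (by linarith) i1 (by linarith) hbκ hba
    rw [← hz, ← hV] at h2
    have h3 : |S k - h * (Vz z * Qz z (a + k * h) b)| ≤ h * X * (C1 * E + τ) := by
      have h4 : S k - h * (Vz z * Qz z (a + k * h) b) = Real.exp (-(a + k * h)) *
          (∑ n ∈ Rw z (a + k * h) h, L2 n - Real.exp (a + k * h) * h * (Vz z * Qz z (a + k * h) b)) := by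
        have h5 : Real.exp (-(a + k * h)) * Real.exp (a + k * h) = 1 := by rw [← Real.exp_add, neg_add_cancel, Real.exp_zero]
        rw [hS]
        linear_combination (h * (Vz z * Qz z (a + k * h) b)) * h5
      have h5 : Real.exp (-(a + k * h)) * (Real.exp (a + k * h) * h * X * (C1 * E + τ)) = h * X * (C1 * E + τ) := by
        have h5 : Real.exp (-(a + k * h)) * Real.exp (a + k * h) = 1 := by rw [← Real.exp_add, neg_add_cancel, Real.exp_zero]
        linear_combination (h * X * (C1 * E + τ)) * h5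
      rw [h4, abs_mul, abs_of_pos (Real.exp_pos _), ← h5]
      exact mul_le_mul_of_nonneg_left h1 (Real.exp_pos _).le
    have h6 : C2 * (a + k * h - a) / κ ^ 2 ≤ τ * X := by
      have h7 : a + k * h - a ≤ lam * X := by linarith
      calc C2 * (a + k * h - a) / κ ^ 2 = C2 / κ ^ 2 * (a + k * h - a) := by ring
        _ ≤ C2 / κ ^ 2 * (lam * X) := mul_le_mul_of_nonneg_left h7 (by positivity)
        _ ≤ (C2 / κ ^ 2 + C3) * lam * X := by nlinarith [mul_nonneg hC3.le (mul_nonneg hlam.le hX0.le)]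
        _ ≤ τ * X := mul_le_mul_of_nonneg_right hlamC hX0.le
    have h8 : |h * (Vz z * Qz z (a + k * h) b) - h * V| ≤ h * (τ * X) := by
      rw [← mul_sub, abs_mul, abs_of_pos hh]
      exact mul_le_mul_of_nonneg_left (h2.trans h6) hh.le
    calc |S k - h * V| = |(S k - h * (Vz z * Qz z (a + k * h) b)) + (h * (Vz z * Qz z (a + k * h) b) - h * V)| := by
          congr 1; ring
      _ ≤ _ := abs_add_le _ _
      _ ≤ h * X * (C1 * E + τ) + h * (τ * X) := add_le_add h3 h8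
      _ = h * X * (C1 * E + 2 * τ) := by ring
  have e2 : ∀ k ∈ range K, T k ≤ S k + τ * h ∧ S k ≤ Real.exp (2 * h) * T k + τ * h := by
    intro k hkk
    obtain ⟨i1, i2⟩ := hk k hkk
    have h1 := hCo X (a + k * h) h k2 (by linarith) (by linarith) (hX₃ X k3) (by linarith) (3 * X) (by linarith)
    rw [← hz, ← hP] at h1
    rw [hS, hTd]
    exact h1
  have hcard : ((range K).card : ℝ) * h = L := by rw [card_range, hLd]
  have e3 : |∑ k ∈ range K, S k - L * V| ≤ L * X * (C1 * E + 2 * τ) := by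
    have h1 : L * V = ∑ k ∈ range K, h * V := by rw [sum_const, nsmul_eq_mul, ← hcard]; ring
    rw [h1, ← sum_sub_distrib]
    refine (abs_sum_le_sum_abs _ _).trans ((sum_le_sum e1).trans (le_of_eq ?_))
    rw [sum_const, nsmul_eq_mul, ← hcard]; ring
  have e4 : ∑ k ∈ range K, T k ≤ ∑ k ∈ range K, S k + τ * L := by
    refine (sum_le_sum fun k hk => (e2 k hk).1).trans (le_of_eq ?_)
    rw [sum_add_distrib, sum_const, nsmul_eq_mul, ← hcard]; ring
  have e5 : ∑ k ∈ range K, S k ≤ Real.exp (2 * h) * ∑ k ∈ range K, T k + τ * L := by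
    refine (sum_le_sum fun k hk => (e2 k hk).2).trans (le_of_eq ?_)
    rw [sum_add_distrib, sum_const, nsmul_eq_mul, ← hcard, mul_sum]; ring
  have hw : ∀ p ∈ P, 0 ≤ wp p := fun p _ => wp_nonneg p
  have e6 : a * t1 P wp lp a L + t2 P wp lp a L ≤ ∑ k ∈ range K, T k ∧
      ∑ k ∈ range K, T k ≤ (a + L) * t1 P wp lp a L + t2 P wp lp a L := by
    have h1 := t1_tile P wp lp (a := a) hh.le K
    have h2 := t2_tile P wp lp (a := a) hh.le K
    rw [← hLd] at h1 h2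
    rw [← h1, ← h2, mul_sum, mul_sum, ← sum_add_distrib, ← sum_add_distrib, hTd]
    constructor
    · refine sum_le_sum fun k hkk => ?_
      have := t1_nonneg (l := lp) hw (a + k * h) h
      have := mul_le_mul_of_nonneg_right (hk k hkk).1 this
      linarith
    · refine sum_le_sum fun k hkk => ?_
      have := t1_nonneg (l := lp) hw (a + k * h) h
      have := mul_le_mul_of_nonneg_right (show a + k * h ≤ a + L by linarith [(hk k hkk).2]) this
      linarith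
  have hM1 := hMe z (3 * X) a (a + L) (by rw [hz]; exact Real.one_le_exp (by linarith)) (by linarith) (by linarith)
  rw [add_sub_cancel_left, ← hP] at hM1
  obtain ⟨m1, m2⟩ := hM1
  have m2 := m2 (by rw [hz, Real.log_exp]; linarith) (by linarith)
  have hT2 := hT κ X a L (3 * X) hκ (by linarith) hκX (by linarith) (by linarith) hL0.le (by linarith) (by linarith)
  rw [← hz, ← hP] at hT2
  obtain ⟨n1, n2⟩ := abs_le.1 hT2
  have hC3l : C3 * lam ≤ τ := by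
    have : 0 ≤ C2 / κ ^ 2 * lam := by positivity
    linarith
  exact fin34 ha2 (by linarith) hX0 hX10 hM hC3 hκ hκ1 hτ hττ hEκ hh hh2 hhτ hlamτ hC3l hL1 hL2 hL0 (by linarith) k6 k7 e3 e4 e5 e6.1 e6.2 m1 m2
    (t1_nonneg hw _ _) (t2_nonneg hw _ _) n1 n2

end Pool.Agent.Helper34.HO
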