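import Pool.Agent.Helper34.HO.Defs

/-! Block HO-5b: rough numbers which are not squarefree, squarefree divisors of rough numbers. -/

set_option autoImplicit false

namespace Pool.Agent.Helper34.HO

open Finset

/-- The number of naturals of a real interval. -/
private theorem card_Ico76 (x y : ℝ) (hy : 0 ≤ y) (hxy : x ≤ y) :
    ((Ico ⌈x⌉₊ ⌈y⌉₊).card : ℝ) ≤ y - x + 1 := by
  rw [Nat.card_Ico, Nat.cast_sub (Nat.ceil_mono hxy)]
  have h1 := (Nat.ceil_lt_add_one hy).le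
  have h2 := Nat.le_ceil x
  linarith

/-- The multiples of `p ^ 2` of a window. -/
private theorem card_mult76 (z a h : ℝ) (hh : 0 ≤ h) (p : ℕ) (hp : 0 < p) :
    ((((Rw z a h).filter fun n => p * p ∣ n).card : ℕ) : ℝ) ≤
      (Real.exp (a + h) - Real.exp a) * ((p : ℝ) ^ 2)⁻¹ + 1 := by
  have hp' : (0 : ℝ) < (p : ℝ) := by exact_mod_cast hp
  have hpp : (0 : ℝ) < (p : ℝ) ^ 2 := by positivity
  have hle : Real.exp a ≤ Real.exp (a + h) := Real.exp_le_exp.2 (by linarith)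
  have h1 : ((Rw z a h).filter fun n => p * p ∣ n).card ≤
      (Ico ⌈Real.exp a / (p : ℝ) ^ 2⌉₊ ⌈Real.exp (a + h) / (p : ℝ) ^ 2⌉₊).card := by
    refine Finset.card_le_card_of_injOn (fun n => n / (p * p)) ?_ ?_
    · intro n hn
      rw [Finset.coe_filter, Set.mem_ofPred_eq] at hn
      obtain ⟨hn1, m, hm⟩ := hn
      rw [Rw, Finset.mem_filter, Finset.mem_range] at hn1
      obtain ⟨h2, h3, _⟩ := hn1
      have h4 : n / (p * p) = m := by
        rw [hm]
        exact Nat.mul_div_cancel_left m (Nat.mul_pos hp hp)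
      have h5 : (n : ℝ) = (p : ℝ) ^ 2 * m := by
        rw [hm]
        push_cast
        ring
      simp only [h4]
      rw [Finset.coe_Ico, Set.mem_Ico]
      constructor
      · rw [Nat.ceil_le, div_le_iff₀ hpp]
        linarith
      · rw [Nat.lt_ceil, lt_div_iff₀ hpp]
        have h6 : (n : ℝ) < Real.exp (a + h) := Nat.lt_ceil.1 h2
        linarith
    · intro n hn m hm hnm
      rw [Finset.coe_filter, Set.mem_ofPred_eq] at hn hm
      simp only at hnm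
      rw [← Nat.div_mul_cancel hn.2, ← Nat.div_mul_cancel hm.2, hnm]
  have h2 := card_Ico76 (Real.exp a / (p : ℝ) ^ 2) (Real.exp (a + h) / (p : ℝ) ^ 2)
    (by positivity) (by gcongr)
  have h3 : ((((Rw z a h).filter fun n => p * p ∣ n).card : ℕ) : ℝ) ≤
      ((Ico ⌈Real.exp a / (p : ℝ) ^ 2⌉₊ ⌈Real.exp (a + h) / (p : ℝ) ^ 2⌉₊).card : ℝ) := by
    exact_mod_cast h1
  refine h3.trans (h2.trans (le_of_eq ?_))
  rw [div_eq_mul_inv, div_eq_mul_inv, sub_mul]

/-- Eventually `8 |B| X ^ 2 ≤ e ^ (κ X)`. -/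
private theorem ev76 (κ : ℝ) (hκ : 0 < κ) (B : ℝ) : ∃ X₀ : ℝ, ∀ X : ℝ, X₀ ≤ X →
    0 ≤ X ∧ 8 * |B| * X ^ 2 ≤ Real.exp (κ * X) := by
  have h1 := isLittleO_pow_exp_pos_mul_atTop (k := 2) hκ
  have h2 : (0 : ℝ) < (8 * |B| + 1)⁻¹ := by positivity
  have h3 := (Asymptotics.isLittleO_iff.1 h1 h2).and (Filter.eventually_ge_atTop (0 : ℝ))
  obtain ⟨X₀, hX⟩ := Filter.eventually_atTop.1 h3
  refine ⟨X₀, fun X hX' => ?_⟩
  obtain ⟨h4, h5⟩ := hX X hX'
  refine ⟨h5, ?_⟩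
  rw [Real.norm_of_nonneg (by positivity), Real.norm_of_nonneg (Real.exp_pos _).le,
    inv_mul_eq_div, le_div_iff₀ (by positivity)] at h4
  have h6 : 8 * |B| * X ^ 2 ≤ X ^ 2 * (8 * |B| + 1) := by nlinarith [sq_nonneg X]
  exact h6.trans h4

/-- The rough numbers of a window which are not squarefree are few: such an `n` is a multiple of `p ^ 2` with a prime `p ≥ e^(κ X)`, and
there are `≤ (e^(a+h) - e^a) / p ^ 2 + 1` such `n` for a given `p ≤ e^((a+h)/2)`. -/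
theorem nonsq_count (κ κ₁ : ℝ) (hκ : 0 < κ) (hκ₁ : 8 * κ ≤ κ₁) (B : ℝ) : ∃ X₀ : ℝ, ∀ X a h : ℝ, X₀ ≤ X → κ₁ * X ≤ a → a ≤ 2 * X →
    Real.exp (-(κ * X)) ≤ h → h ≤ 1 →
    B * X ^ 2 * (((Rw (Real.exp (κ * X)) a h).filter (fun n => ¬ Squarefree n)).card : ℝ) ≤ Real.exp a * h := by
  obtain ⟨X₀, hX₀⟩ := ev76 κ hκ B
  refine ⟨X₀, fun X a h hX ha _ hh hh1 => ?_⟩
  obtain ⟨hX0, hXe⟩ := hX₀ X hX
  have hh0 : 0 < h := lt_of_lt_of_le (Real.exp_pos _) hh
  set z := Real.exp (κ * X) with hz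
  have hκX : 0 ≤ κ * X := by positivity
  have hz1 : 1 ≤ z := Real.one_le_exp hκX
  have ha8 : 8 * (κ * X) ≤ a := by nlinarith
  have ha0 : 0 ≤ a := by linarith
  set S := (Rw z a h).filter (fun n => ¬ Squarefree n) with hS
  set M := ⌈Real.exp ((a + h) / 2)⌉₊ with hM
  -- the union bound
  have h1 : S ⊆ (Ioo (⌈z⌉₊ - 1) M).biUnion fun p => (Rw z a h).filter fun n => p * p ∣ n := by
    intro n hn
    rw [hS, Finset.mem_filter] at hn
    obtain ⟨hn1, hn2⟩ := hn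
    rw [Nat.squarefree_iff_prime_squarefree] at hn2
    push Not at hn2
    obtain ⟨p, hp, hpn⟩ := hn2
    rw [Finset.mem_biUnion]
    refine ⟨p, ?_, Finset.mem_filter.2 ⟨hn1, hpn⟩⟩
    rw [Rw, Finset.mem_filter, Finset.mem_range] at hn1
    obtain ⟨h2, _, h4, h5⟩ := hn1
    have h6 : z ≤ (p : ℝ) := h5 p hp (dvd_trans (dvd_mul_right p p) hpn)
    have h7 : ⌈z⌉₊ ≤ p := Nat.ceil_le.2 h6
    have h8 : 0 < p := hp.pos
    rw [Finset.mem_Ioo]
    refine ⟨by omega, ?_⟩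
    rw [hM, Nat.lt_ceil]
    have h9 : (n : ℝ) < Real.exp (a + h) := Nat.lt_ceil.1 h2
    have h10 : p * p ≤ n := Nat.le_of_dvd h4 hpn
    have h11 : ((p * p : ℕ) : ℝ) ≤ (n : ℝ) := by exact_mod_cast h10
    have h12 : Real.exp (a + h) = Real.exp ((a + h) / 2) ^ 2 := by
      rw [← Real.exp_nat_mul]
      congr 1
      push_cast
      ring
    push_cast at h11
    rw [h12] at h9
    nlinarith [Real.exp_pos ((a + h) / 2), (Nat.cast_nonneg p : (0 : ℝ) ≤ (p : ℝ))]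
  have h2 : (S.card : ℝ) ≤ ∑ p ∈ Ioo (⌈z⌉₊ - 1) M,
      ((Real.exp (a + h) - Real.exp a) * ((p : ℝ) ^ 2)⁻¹ + 1) := by
    have h3 : S.card ≤ ∑ p ∈ Ioo (⌈z⌉₊ - 1) M, ((Rw z a h).filter fun n => p * p ∣ n).card :=
      (Finset.card_le_card h1).trans Finset.card_biUnion_le
    have h4 : (S.card : ℝ) ≤ ∑ p ∈ Ioo (⌈z⌉₊ - 1) M,
        ((((Rw z a h).filter fun n => p * p ∣ n).card : ℕ) : ℝ) := by exact_mod_cast h3
    refine h4.trans (Finset.sum_le_sum fun p hp => card_mult76 z a h hh0.le p ?_)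
    rw [Finset.mem_Ioo] at hp
    omega
  have hE : 0 ≤ Real.exp (a + h) - Real.exp a :=
    sub_nonneg.2 (Real.exp_le_exp.2 (by linarith))
  have hc : ((⌈z⌉₊ - 1 : ℕ) : ℝ) + 1 = (⌈z⌉₊ : ℝ) := by
    have h3 : 1 ≤ ⌈z⌉₊ := Nat.one_le_ceil_iff.2 (by linarith)
    rw [Nat.cast_sub h3]
    push_cast
    ring
  have h3 : ∑ p ∈ Ioo (⌈z⌉₊ - 1) M, ((p : ℝ) ^ 2)⁻¹ ≤ 2 / z := by
    refine (sum_Ioo_inv_sq_le (⌈z⌉₊ - 1) M).trans ?_
    rw [hc]
    exact div_le_div_of_nonneg_left (by norm_num) (by linarith) (Nat.le_ceil z)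
  have h4 : ((Ioo (⌈z⌉₊ - 1) M).card : ℝ) ≤ Real.exp ((a + h) / 2) + 1 := by
    have h5 : (Ioo (⌈z⌉₊ - 1) M).card ≤ M := by
      rw [Nat.card_Ioo]
      omega
    have h6 : ((Ioo (⌈z⌉₊ - 1) M).card : ℝ) ≤ (M : ℝ) := by exact_mod_cast h5
    exact h6.trans (Nat.ceil_lt_add_one (Real.exp_pos _).le).le
  have h5 : (S.card : ℝ) ≤ (Real.exp (a + h) - Real.exp a) * (2 / z) +
      (Real.exp ((a + h) / 2) + 1) := by
    refine h2.trans ?_
    rw [Finset.sum_add_distrib, ← Finset.mul_sum, Finset.sum_const, nsmul_eq_mul, mul_one]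
    exact add_le_add (mul_le_mul_of_nonneg_left h3 hE) h4
  -- the exponentials
  have h6 : Real.exp (a + h) - Real.exp a ≤ Real.exp a * (2 * h) := by
    have h7 : Real.exp h - 1 ≤ 2 * h := by
      have h8 := Real.abs_exp_sub_one_le (x := h) (by rw [abs_of_pos hh0]; exact hh1)
      rw [abs_of_pos hh0] at h8
      exact (le_abs_self _).trans h8
    rw [Real.exp_add]
    nlinarith [Real.exp_pos a]
  have h7 : Real.exp ((a + h) / 2) + 1 ≤ 4 * Real.exp (a / 2) := by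
    have h8 : Real.exp ((a + h) / 2) = Real.exp (a / 2) * Real.exp (h / 2) := by
      rw [← Real.exp_add]
      congr 1
      ring
    have h9 : Real.exp (h / 2) ≤ 3 := by
      have h10 := Real.abs_exp_sub_one_le (x := h / 2) (by rw [abs_of_pos (by linarith)]; linarith)
      rw [abs_of_pos (by linarith : 0 < h / 2)] at h10
      have h11 := (le_abs_self _).trans h10
      linarith
    have h10 : 1 ≤ Real.exp (a / 2) := Real.one_le_exp (by linarith)
    rw [h8]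
    nlinarith [Real.exp_pos (a / 2)]
  have h8 : (S.card : ℝ) ≤ Real.exp a * (4 * h) / z + 4 * Real.exp (a / 2) := by
    refine h5.trans (add_le_add ?_ h7)
    have h9 : (Real.exp (a + h) - Real.exp a) * (2 / z) ≤ Real.exp a * (2 * h) * (2 / z) :=
      mul_le_mul_of_nonneg_right h6 (by positivity)
    refine h9.trans (le_of_eq ?_)
    ring
  have hB : B * X ^ 2 * (S.card : ℝ) ≤ |B| * X ^ 2 * (S.card : ℝ) := by
    have : B ≤ |B| := le_abs_self B
    gcongr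
  have hz0 : 0 < z := by linarith
  have h9 : |B| * X ^ 2 * (Real.exp a * (4 * h) / z) ≤ Real.exp a * h / 2 := by
    rw [mul_div_assoc', div_le_iff₀ hz0]
    have h10 : 0 ≤ Real.exp a * h := by positivity
    nlinarith
  have h10 : |B| * X ^ 2 * (4 * Real.exp (a / 2)) ≤ Real.exp a * h / 2 := by
    have h11 : Real.exp a = Real.exp (a / 2) * Real.exp (a / 2) := by
      rw [← Real.exp_add]
      congr 1
      ring
    have h12 : z ≤ Real.exp (a / 2) * h := by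
      have h13 : Real.exp (a / 2) * Real.exp (-(κ * X)) ≤ Real.exp (a / 2) * h :=
        mul_le_mul_of_nonneg_left hh (Real.exp_pos _).le
      refine le_trans ?_ h13
      rw [← Real.exp_add, hz]
      exact Real.exp_le_exp.2 (by linarith)
    have h14 : 8 * |B| * X ^ 2 ≤ Real.exp (a / 2) * h := hXe.trans h12
    have h15 := Real.exp_pos (a / 2)
    rw [h11]
    nlinarith
  calc B * X ^ 2 * (S.card : ℝ) ≤ |B| * X ^ 2 * (S.card : ℝ) := hB
    _ ≤ |B| * X ^ 2 * (Real.exp a * (4 * h) / z + 4 * Real.exp (a / 2)) :=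
        mul_le_mul_of_nonneg_left h8 (by positivity)
    _ = |B| * X ^ 2 * (Real.exp a * (4 * h) / z) + |B| * X ^ 2 * (4 * Real.exp (a / 2)) := by ring
    _ ≤ Real.exp a * h / 2 + Real.exp a * h / 2 := add_le_add h9 h10
    _ = Real.exp a * h := by ring

/-- A rough number of a window has at most `2 ^ (3 / κ)` squarefree divisors. -/
theorem card_sqdiv (κ : ℝ) (hκ : 0 < κ) : ∃ B X₀ : ℝ, ∀ X a h : ℝ, X₀ ≤ X → a ≤ 2 * X → h ≤ 1 → ∀ n ∈ Rw (Real.exp (κ * X)) a h,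
    ((n.divisors.filter Squarefree).card : ℝ) ≤ B := by
  refine ⟨2 ^ ⌈3 / κ⌉₊, 1, fun X a h hX ha hh n hn => ?_⟩
  rw [Rw, Finset.mem_filter, Finset.mem_range] at hn
  obtain ⟨h2, _, h4, h5⟩ := hn
  have h6 : (n : ℝ) < Real.exp (a + h) := Nat.lt_ceil.1 h2
  have hcard : (n.divisors.filter Squarefree).card = 2 ^ n.primeFactors.card := by
    have h7 := Nat.sum_divisors_filter_squarefree h4.ne' (f := fun _ => (1 : ℕ))
    rw [Finset.sum_const, Finset.sum_const, smul_eq_mul, mul_one, smul_eq_mul, mul_one,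
      Finset.card_powerset, Nat.factors_eq] at h7
    exact h7
  have h7 : Real.exp (κ * X) ^ n.primeFactors.card ≤ (n : ℝ) := by
    have h8 : ∏ p ∈ n.primeFactors, p ≤ n := Nat.le_of_dvd h4 (Nat.prod_primeFactors_dvd n)
    have h9 : ((∏ p ∈ n.primeFactors, p : ℕ) : ℝ) ≤ (n : ℝ) := by exact_mod_cast h8
    refine le_trans ?_ h9
    rw [Nat.cast_prod, ← Finset.prod_const]
    exact Finset.prod_le_prod (fun p _ => (Real.exp_pos _).le) fun p hp =>
      h5 p (Nat.prime_of_mem_primeFactors hp) (Nat.dvd_of_mem_primeFactors hp)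
  have h8 : (n.primeFactors.card : ℝ) ≤ 3 / κ := by
    have h9 := h7.trans_lt h6
    rw [← Real.exp_nat_mul, Real.exp_lt_exp] at h9
    rw [le_div_iff₀ hκ]
    have h10 : (n.primeFactors.card : ℝ) * κ * X < 3 * X := by nlinarith
    exact (lt_of_mul_lt_mul_right h10 (by linarith)).le
  have h9 : n.primeFactors.card ≤ ⌈3 / κ⌉₊ := by
    exact_mod_cast h8.trans (Nat.le_ceil _)
  rw [hcard]
  push_cast
  exact pow_le_pow_right₀ (by norm_num) h9

end Pool.Agent.Helper34.HO
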