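import Pool.Agent.Helper34.HO.Diff1
import Pool.Agent.Helper34.HO.Diff2
import Pool.Agent.Helper34.HO.Sel

/-! Block HO-5: the difference of `L2` and `Wt`, on the average over the rough numbers of a window (proof: (2b) of the paper). -/

set_option autoImplicit false

namespace Pool.Agent.Helper34.HO

open Finset

/-- The pointwise bound for squarefree numbers. -/
private theorem pt22 {a b h v Y : ℝ} {n : ℕ} (hn0 : 0 < n) (ha : 0 ≤ a) (hna : a ≤ Real.log n)
    (hnh : Real.log n ≤ a + h) (hnb : Real.log n - b ≤ v) (hY : 2 * a + h ≤ Y) :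
    |L2 n - Wt a b n| ≤ (n.divisors.card : ℝ) * (h * Y) +
      v ^ 2 * ((n.divisors.filter (fun e : ℕ => 1 < e ∧ (e : ℝ) ≤ Real.exp v)).card : ℝ) := by
  have hh0 : 0 ≤ h := by linarith
  have hY0 : 0 ≤ Y := by linarith
  have hlogd : ∀ d ∈ n.divisors, 0 ≤ Real.log d ∧ Real.log d ≤ Real.log n := by
    intro d hd
    have hdn : d ∣ n := Nat.dvd_of_mem_divisors hd
    have hd1 : 1 ≤ d := Nat.pos_of_mem_divisors hd
    have hd2 : (d : ℝ) ≤ n := by exact_mod_cast Nat.le_of_dvd hn0 hdn
    have hd3 : (1 : ℝ) ≤ d := by exact_mod_cast hd1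
    exact ⟨Real.log_nonneg hd3, Real.log_le_log (by linarith) hd2⟩
  have hmu : ∀ d : ℕ, |((ArithmeticFunction.moebius d : ℤ) : ℝ)| ≤ 1 := by
    intro d
    exact_mod_cast ArithmeticFunction.abs_moebius_le_one
  have e1 : L2 n - Wt a b n =
      ∑ d ∈ n.divisors.filter (fun d : ℕ => (d : ℝ) ≤ Real.exp b),
        (ArithmeticFunction.moebius d : ℝ) * ((Real.log n - Real.log d) ^ 2 - (a - Real.log d) ^ 2) +
      ∑ d ∈ n.divisors.filter (fun d : ℕ => ¬ (d : ℝ) ≤ Real.exp b),
        (ArithmeticFunction.moebius d : ℝ) * (Real.log n - Real.log d) ^ 2 := by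
    unfold L2 Wt
    rw [← sum_filter_add_sum_filter_not n.divisors (fun d : ℕ => (d : ℝ) ≤ Real.exp b)]
    have : ∑ d ∈ n.divisors.filter (fun d : ℕ => (d : ℝ) ≤ Real.exp b),
        (ArithmeticFunction.moebius d : ℝ) * ((Real.log n - Real.log d) ^ 2 - (a - Real.log d) ^ 2) =
        ∑ d ∈ n.divisors.filter (fun d : ℕ => (d : ℝ) ≤ Real.exp b),
          (ArithmeticFunction.moebius d : ℝ) * (Real.log n - Real.log d) ^ 2 -
        ∑ d ∈ n.divisors.filter (fun d : ℕ => (d : ℝ) ≤ Real.exp b),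
          (ArithmeticFunction.moebius d : ℝ) * (a - Real.log d) ^ 2 := by
      rw [← sum_sub_distrib]
      exact sum_congr rfl fun d _ => by ring
    rw [this]
    ring
  have e2 : |∑ d ∈ n.divisors.filter (fun d : ℕ => (d : ℝ) ≤ Real.exp b),
        (ArithmeticFunction.moebius d : ℝ) * ((Real.log n - Real.log d) ^ 2 - (a - Real.log d) ^ 2)| ≤
      (n.divisors.card : ℝ) * (h * Y) := by
    refine (abs_sum_le_sum_abs _ _).trans ?_
    calc ∑ d ∈ n.divisors.filter (fun d : ℕ => (d : ℝ) ≤ Real.exp b),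
          |(ArithmeticFunction.moebius d : ℝ) * ((Real.log n - Real.log d) ^ 2 - (a - Real.log d) ^ 2)|
        ≤ ∑ d ∈ n.divisors.filter (fun d : ℕ => (d : ℝ) ≤ Real.exp b), h * Y := by
          refine sum_le_sum fun d hd => ?_
          obtain ⟨h1, h2⟩ := hlogd d (mem_filter.1 hd).1
          rw [abs_mul]
          have h3 : |(Real.log n - Real.log d) ^ 2 - (a - Real.log d) ^ 2| ≤ h * Y := by
            have : (Real.log n - Real.log d) ^ 2 - (a - Real.log d) ^ 2 =
                (Real.log n - a) * (Real.log n + a - 2 * Real.log d) := by ring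
            rw [this, abs_mul, abs_of_nonneg (by linarith : 0 ≤ Real.log n - a)]
            refine mul_le_mul (by linarith) ?_ (abs_nonneg _) hh0
            rw [abs_le]
            constructor <;> linarith
          calc |(ArithmeticFunction.moebius d : ℝ)| * |(Real.log n - Real.log d) ^ 2 - (a - Real.log d) ^ 2|
              ≤ 1 * (h * Y) := mul_le_mul (hmu d) h3 (abs_nonneg _) (by norm_num)
            _ = h * Y := one_mul _
      _ = ((n.divisors.filter (fun d : ℕ => (d : ℝ) ≤ Real.exp b)).card : ℝ) * (h * Y) := by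
          rw [sum_const, nsmul_eq_mul]
      _ ≤ (n.divisors.card : ℝ) * (h * Y) := by
          refine mul_le_mul_of_nonneg_right ?_ (mul_nonneg hh0 hY0)
          exact_mod_cast card_filter_le _ _
  have e3 : |∑ d ∈ n.divisors.filter (fun d : ℕ => ¬ (d : ℝ) ≤ Real.exp b),
        (ArithmeticFunction.moebius d : ℝ) * (Real.log n - Real.log d) ^ 2| ≤
      v ^ 2 * ((n.divisors.filter (fun e : ℕ => 1 < e ∧ (e : ℝ) ≤ Real.exp v)).card : ℝ) := by
    refine (abs_sum_le_sum_abs _ _).trans ?_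
    calc ∑ d ∈ n.divisors.filter (fun d : ℕ => ¬ (d : ℝ) ≤ Real.exp b),
          |(ArithmeticFunction.moebius d : ℝ) * (Real.log n - Real.log d) ^ 2|
        ≤ ∑ d ∈ n.divisors.filter (fun d : ℕ => ¬ (d : ℝ) ≤ Real.exp b),
            (if 1 < n / d ∧ ((n / d : ℕ) : ℝ) ≤ Real.exp v then v ^ 2 else 0) := by
          refine sum_le_sum fun d hd => ?_
          obtain ⟨hd1, hd2⟩ := mem_filter.1 hd
          obtain ⟨h1, h2⟩ := hlogd d hd1
          have hdn : d ∣ n := Nat.dvd_of_mem_divisors hd1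
          have hd0 : 0 < d := Nat.pos_of_mem_divisors hd1
          have hd0' : (0 : ℝ) < d := by exact_mod_cast hd0
          have hb : b < Real.log d := (Real.lt_log_iff_exp_lt hd0').2 (not_le.1 hd2)
          rw [abs_mul, abs_of_nonneg (sq_nonneg (Real.log n - Real.log d))]
          obtain ⟨e, he⟩ := hdn
          have he0 : 0 < e := Nat.pos_of_ne_zero fun h0 => by
            rw [h0, mul_zero] at he
            omega
          have he0' : (0 : ℝ) < e := by exact_mod_cast he0
          have hnd : n / d = e := by rw [he, Nat.mul_div_cancel_left e hd0]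
          have hlog : Real.log n - Real.log d = Real.log e := by
            rw [he, Nat.cast_mul, Real.log_mul hd0'.ne' he0'.ne']
            ring
          have hle0 : 0 ≤ Real.log e := by rw [← hlog]; linarith
          have hlev : Real.log e ≤ v := by rw [← hlog]; linarith
          rw [hnd, hlog]
          rcases Nat.lt_or_ge 1 e with h5 | h5
          · rw [if_pos ⟨h5, (Real.log_le_iff_le_exp he0').1 hlev⟩]
            calc |(ArithmeticFunction.moebius d : ℝ)| * Real.log e ^ 2 ≤ 1 * v ^ 2 :=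
                  mul_le_mul (hmu d) (pow_le_pow_left₀ hle0 hlev 2) (sq_nonneg _) (by norm_num)
              _ = v ^ 2 := one_mul _
          · have h6 : e = 1 := by omega
            rw [h6]
            simp
      _ ≤ ∑ d ∈ n.divisors, (if 1 < n / d ∧ ((n / d : ℕ) : ℝ) ≤ Real.exp v then v ^ 2 else 0) := by
          refine sum_le_sum_of_subset_of_nonneg (filter_subset _ _) fun d _ _ => ?_
          split_ifs
          · exact sq_nonneg _
          · exact le_refl _
      _ = ∑ e ∈ n.divisors, (if 1 < e ∧ (e : ℝ) ≤ Real.exp v then v ^ 2 else 0) :=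
          Nat.sum_div_divisors n (fun e : ℕ => if 1 < e ∧ (e : ℝ) ≤ Real.exp v then v ^ 2 else 0)
      _ = v ^ 2 * ((n.divisors.filter (fun e : ℕ => 1 < e ∧ (e : ℝ) ≤ Real.exp v)).card : ℝ) := by
          rw [← sum_filter, sum_const, nsmul_eq_mul, mul_comm]
  rw [e1]
  exact (abs_add_le _ _).trans (add_le_add e2 e3)

/-- The pointwise bound for all numbers. -/
private theorem pn22 {a b Y B : ℝ} {n : ℕ} (hn0 : 0 < n) (ha : 0 ≤ a) (haY : a ≤ Y) (hnY : Real.log n ≤ Y)
    (hB : ((n.divisors.filter Squarefree).card : ℝ) ≤ B) :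
    |L2 n - Wt a b n| ≤ (B + 1) * Y ^ 2 := by
  have hY0 : 0 ≤ Y := ha.trans haY
  have hln : 0 ≤ Real.log n := Real.log_natCast_nonneg n
  have h1 : |L2 n| ≤ Y ^ 2 := by
    rw [abs_of_nonneg (L2_nonneg n)]
    exact (L2_le n).trans (pow_le_pow_left₀ hln hnY 2)
  have h2 : |Wt a b n| ≤ B * Y ^ 2 := by
    unfold Wt
    refine (abs_sum_le_sum_abs _ _).trans ?_
    calc ∑ d ∈ n.divisors.filter (fun d : ℕ => (d : ℝ) ≤ Real.exp b),
          |(ArithmeticFunction.moebius d : ℝ) * (a - Real.log d) ^ 2|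
        ≤ ∑ d ∈ n.divisors, |(ArithmeticFunction.moebius d : ℝ) * (a - Real.log d) ^ 2| :=
          sum_le_sum_of_subset_of_nonneg (filter_subset _ _) fun d _ _ => abs_nonneg _
      _ ≤ ∑ d ∈ n.divisors, (if Squarefree d then Y ^ 2 else 0) := by
          refine sum_le_sum fun d hd => ?_
          have hdn : d ∣ n := Nat.dvd_of_mem_divisors hd
          have hd1 : 1 ≤ d := Nat.pos_of_mem_divisors hd
          have hd2 : (d : ℝ) ≤ n := by exact_mod_cast Nat.le_of_dvd hn0 hdn
          have hd3 : (1 : ℝ) ≤ d := by exact_mod_cast hd1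
          have hl0 : 0 ≤ Real.log d := Real.log_nonneg hd3
          have hl1 : Real.log d ≤ Real.log n := Real.log_le_log (by linarith) hd2
          split_ifs with hsq
          · rw [abs_mul, abs_of_nonneg (sq_nonneg (a - Real.log d))]
            have h3 : |(ArithmeticFunction.moebius d : ℝ)| ≤ 1 := by
              exact_mod_cast ArithmeticFunction.abs_moebius_le_one
            have h4 : (a - Real.log d) ^ 2 ≤ Y ^ 2 := by
              rw [sq_le_sq, abs_of_nonneg hY0, abs_le]
              constructor <;> linarith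
            calc |(ArithmeticFunction.moebius d : ℝ)| * (a - Real.log d) ^ 2 ≤ 1 * Y ^ 2 :=
                  mul_le_mul h3 h4 (sq_nonneg _) (by norm_num)
              _ = Y ^ 2 := one_mul _
          · rw [ArithmeticFunction.moebius_eq_zero_of_not_squarefree hsq]
            simp
      _ = ((n.divisors.filter Squarefree).card : ℝ) * Y ^ 2 := by
          rw [← sum_filter, sum_const, nsmul_eq_mul]
      _ ≤ B * Y ^ 2 := mul_le_mul_of_nonneg_right hB (sq_nonneg _)
  calc |L2 n - Wt a b n| ≤ |L2 n| + |Wt a b n| := abs_sub _ _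
    _ ≤ Y ^ 2 + B * Y ^ 2 := add_le_add h1 h2
    _ = (B + 1) * Y ^ 2 := by ring

theorem diff : ∃ C : ℝ, 0 < C ∧ ∀ (s : ℕ) (ε z₀ : ℝ), 1 ≤ s → FL s ε z₀ → 0 ≤ ε → ε ≤ 1 → ∀ κ κ₁ τ : ℝ, 0 < κ → κ₁ ≤ 1 →
    (2 * s + 8) * κ ≤ κ₁ → 0 < τ → ∃ X₀ : ℝ, ∀ X a b h : ℝ, X₀ ≤ X → κ₁ * X ≤ a → a ≤ 2 * X →
    a - (s + 3) * (κ * X) ≤ b → b ≤ a - (s + 2) * (κ * X) → Real.exp (-(κ * X)) ≤ h → h ≤ 1 →
    |∑ n ∈ Rw (Real.exp (κ * X)) a h, L2 n - ∑ n ∈ Rw (Real.exp (κ * X)) a h, Wt a b n| ≤
      Real.exp a * h * X * (C * (s : ℝ) ^ 3 * κ + τ) := by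
  obtain ⟨Cc, hCc, hc⟩ := card_Rw
  obtain ⟨Cd, hCd, hd⟩ := div_count
  refine ⟨250 * Cd, by positivity, ?_⟩
  intro s ε z₀ hs hF hε0 hε1 κ κ₁ τ hκ hκ₁ hsκ hτ
  have hs1 : (1 : ℝ) ≤ s := by exact_mod_cast hs
  obtain ⟨B0, X1, hB0⟩ := card_sqdiv κ hκ
  have hB1 : 0 ≤ |B0| := abs_nonneg _
  have hB2 : B0 ≤ |B0| := le_abs_self _
  set B := |B0| with hBdef
  obtain ⟨X2, hns⟩ := nonsq_count κ κ₁ hκ (by nlinarith) (9 * (B + 1))
  refine ⟨max (max (max X1 X2) (max (1 / κ) (|z₀| / κ))) (max (max 1 (2 / τ)) (20 * Cc * B / (κ * τ))), ?_⟩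
  intro X a b h hX haX haX2 hb1 hb2 hh hh1
  have hXa : X1 ≤ X := le_trans (le_trans (le_trans (le_max_left _ _) (le_max_left _ _)) (le_max_left _ _)) hX
  have hXb : X2 ≤ X := le_trans (le_trans (le_trans (le_max_right _ _) (le_max_left _ _)) (le_max_left _ _)) hX
  have hXc : 1 / κ ≤ X := le_trans (le_trans (le_trans (le_max_left _ _) (le_max_right _ _)) (le_max_left _ _)) hX
  have hXd : |z₀| / κ ≤ X := le_trans (le_trans (le_trans (le_max_right _ _) (le_max_right _ _)) (le_max_left _ _)) hX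
  have hXe : 1 ≤ X := le_trans (le_trans (le_trans (le_max_left _ _) (le_max_left _ _)) (le_max_right _ _)) hX
  have hXf : 2 / τ ≤ X := le_trans (le_trans (le_trans (le_max_right _ _) (le_max_left _ _)) (le_max_right _ _)) hX
  have hXg : 20 * Cc * B / (κ * τ) ≤ X := le_trans (le_trans (le_max_right _ _) (le_max_right _ _)) hX
  have hX0 : 0 < X := by linarith
  have hκX0 : 0 < κ * X := mul_pos hκ hX0
  have hκX : 1 ≤ κ * X := by
    rw [div_le_iff₀ hκ] at hXc
    linarith
  have hz0 : z₀ ≤ Real.exp (κ * X) := by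
    rw [div_le_iff₀ hκ] at hXd
    have h1 := Real.add_one_le_exp (κ * X)
    have h2 := le_abs_self z₀
    nlinarith
  have hz2 : 2 ≤ Real.exp (κ * X) := by
    have h1 := Real.add_one_le_exp (κ * X)
    linarith
  have hh0 : 0 < h := lt_of_lt_of_le (Real.exp_pos _) hh
  have haκ : (2 * s + 8) * (κ * X) ≤ a := by nlinarith
  have hsκX : 1 ≤ s * (κ * X) := by nlinarith
  have ha0 : 0 ≤ a := by nlinarith
  have ha3 : a ≤ 3 * X := by linarith
  -- the length of the window
  have hlen0 : Real.exp (a + h) - Real.exp a = Real.exp a * (Real.exp h - 1) := by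
    rw [Real.exp_add]
    ring
  have hea : 0 < Real.exp a := Real.exp_pos _
  have hlen1 : Real.exp a * h ≤ Real.exp (a + h) - Real.exp a := by
    rw [hlen0]
    refine mul_le_mul_of_nonneg_left ?_ hea.le
    have := Real.add_one_le_exp h
    linarith
  have hlen2 : Real.exp (a + h) - Real.exp a ≤ Real.exp a * (2 * h) := by
    rw [hlen0]
    refine mul_le_mul_of_nonneg_left ?_ hea.le
    have := Real.abs_exp_sub_one_le (x := h) (by rw [abs_of_pos hh0]; exact hh1)
    rw [abs_of_pos hh0] at this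
    exact (le_abs_self _).trans this
  have hlen3 : Real.exp (a - κ * X) ≤ Real.exp (a + h) - Real.exp a := by
    refine le_trans ?_ hlen1
    rw [sub_eq_add_neg, Real.exp_add]
    exact mul_le_mul_of_nonneg_left hh hea.le
  have hlogz : Real.log (Real.exp (κ * X)) = κ * X := Real.log_exp _
  set v := (s + 4) * (κ * X) with hv
  have hv0 : 0 < v := by positivity
  have hzpow : Real.exp (κ * X) ^ (s + 1) = Real.exp ((s + 1) * (κ * X)) := by
    rw [← Real.exp_nat_mul]
    push_cast
    ring_nf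
  -- card_Rw
  have hcard : ((Rw (Real.exp (κ * X)) a h).card : ℝ) ≤ Cc * (Real.exp (a + h) - Real.exp a) / (κ * X) := by
    have h1 := hc s ε z₀ hF hε0 hε1 (Real.exp (κ * X)) a h hz0 hz2 hh0.le (by
      rw [hzpow]
      refine le_trans (Real.exp_le_exp.2 ?_) hlen3
      nlinarith)
    rwa [hlogz] at h1
  -- div_count
  have hdiv : ∑ n ∈ Rw (Real.exp (κ * X)) a h,
      ((n.divisors.filter (fun e : ℕ => 1 < e ∧ (e : ℝ) ≤ Real.exp v)).card : ℝ) ≤
      Cd * (Real.exp (a + h) - Real.exp a) * v / (κ * X) ^ 2 := by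
    have h1 := hd s ε z₀ hF hε0 hε1 (Real.exp (κ * X)) a v h hz0 hz2 hh0.le (by
      rw [hlogz, hv]
      nlinarith) (by
      rw [hzpow]
      refine le_trans ?_ (mul_le_mul_of_nonneg_left hlen3 (Real.exp_pos _).le)
      rw [← Real.exp_add, hv]
      refine Real.exp_le_exp.2 ?_
      nlinarith)
    rwa [hlogz] at h1
  -- nonsquarefree numbers
  have hnsq := hns X a h hXb haX haX2 hh hh1
  -- membership
  have hmem : ∀ n ∈ Rw (Real.exp (κ * X)) a h, 0 < n ∧ a ≤ Real.log n ∧ Real.log n ≤ a + h := by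
    intro n hn
    rw [Rw, mem_filter, mem_range] at hn
    obtain ⟨h1, h2, h3, _⟩ := hn
    have h4 : (n : ℝ) < Real.exp (a + h) := Nat.lt_ceil.1 h1
    have h5 : (0 : ℝ) < n := by exact_mod_cast h3
    exact ⟨h3, (Real.le_log_iff_exp_le h5).2 h2, (Real.log_le_iff_le_exp h5).2 h4.le⟩
  have hBn : ∀ n ∈ Rw (Real.exp (κ * X)) a h, ((n.divisors.filter Squarefree).card : ℝ) ≤ B := fun n hn =>
    (hB0 X a h hXa haX2 hh1 n hn).trans hB2
  rw [← sum_sub_distrib]
  refine (abs_sum_le_sum_abs _ _).trans ?_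
  rw [← sum_filter_add_sum_filter_not (Rw (Real.exp (κ * X)) a h) Squarefree]
  -- squarefree part
  have hpart1 : ∑ n ∈ (Rw (Real.exp (κ * X)) a h).filter Squarefree, |L2 n - Wt a b n| ≤
      Real.exp a * h * X * (250 * Cd * (s : ℝ) ^ 3 * κ) + Real.exp a * h * X * (τ / 2) := by
    calc ∑ n ∈ (Rw (Real.exp (κ * X)) a h).filter Squarefree, |L2 n - Wt a b n|
        ≤ ∑ n ∈ (Rw (Real.exp (κ * X)) a h).filter Squarefree, (B * (h * (5 * X)) +
            v ^ 2 * ((n.divisors.filter (fun e : ℕ => 1 < e ∧ (e : ℝ) ≤ Real.exp v)).card : ℝ)) := by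
          refine sum_le_sum fun n hn => ?_
          obtain ⟨hn1, hn2⟩ := mem_filter.1 hn
          obtain ⟨h1, h2, h3⟩ := hmem n hn1
          have h4 := pt22 (b := b) (v := v) (Y := 5 * X) h1 ha0 h2 h3 (by rw [hv]; nlinarith) (by linarith)
          refine h4.trans (add_le_add ?_ le_rfl)
          refine mul_le_mul_of_nonneg_right ?_ (by positivity)
          have h5 : n.divisors.filter Squarefree = n.divisors :=
            filter_true_of_mem fun d hd => hn2.squarefree_of_dvd (Nat.dvd_of_mem_divisors hd)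
          have h6 := hBn n hn1
          rwa [h5] at h6
      _ ≤ ∑ n ∈ Rw (Real.exp (κ * X)) a h, (B * (h * (5 * X)) +
            v ^ 2 * ((n.divisors.filter (fun e : ℕ => 1 < e ∧ (e : ℝ) ≤ Real.exp v)).card : ℝ)) :=
          sum_le_sum_of_subset_of_nonneg (filter_subset _ _) fun n _ _ => by positivity
      _ = ((Rw (Real.exp (κ * X)) a h).card : ℝ) * (B * (h * (5 * X))) +
            v ^ 2 * ∑ n ∈ Rw (Real.exp (κ * X)) a h,
              ((n.divisors.filter (fun e : ℕ => 1 < e ∧ (e : ℝ) ≤ Real.exp v)).card : ℝ) := by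
          rw [sum_add_distrib, sum_const, nsmul_eq_mul, mul_sum]
      _ ≤ Cc * (Real.exp (a + h) - Real.exp a) / (κ * X) * (B * (h * (5 * X))) +
            v ^ 2 * (Cd * (Real.exp (a + h) - Real.exp a) * v / (κ * X) ^ 2) :=
          add_le_add (mul_le_mul_of_nonneg_right hcard (by positivity))
            (mul_le_mul_of_nonneg_left hdiv (sq_nonneg _))
      _ ≤ Real.exp a * h * X * (τ / 2) + Real.exp a * h * X * (250 * Cd * (s : ℝ) ^ 3 * κ) := by
          refine add_le_add ?_ ?_
          · have h1 : Cc * (Real.exp (a + h) - Real.exp a) / (κ * X) * (B * (h * (5 * X))) =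
                (Real.exp (a + h) - Real.exp a) * (5 * Cc * B * h / κ) := by
              field_simp
            rw [h1]
            calc (Real.exp (a + h) - Real.exp a) * (5 * Cc * B * h / κ)
                ≤ (Real.exp a * (2 * h)) * (5 * Cc * B * h / κ) :=
                  mul_le_mul_of_nonneg_right hlen2 (by positivity)
              _ ≤ (Real.exp a * (2 * h)) * (5 * Cc * B * 1 / κ) := by
                  refine mul_le_mul_of_nonneg_left ?_ (by positivity)
                  gcongr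
              _ = Real.exp a * h * (τ / 2) * (20 * Cc * B / (κ * τ)) := by
                  field_simp
                  ring
              _ ≤ Real.exp a * h * (τ / 2) * X := mul_le_mul_of_nonneg_left hXg (by positivity)
              _ = Real.exp a * h * X * (τ / 2) := by ring
          · have h1 : v ^ 2 * (Cd * (Real.exp (a + h) - Real.exp a) * v / (κ * X) ^ 2) =
                (Real.exp (a + h) - Real.exp a) * (Cd * ((s : ℝ) + 4) ^ 3 * (κ * X)) := by
              rw [hv]
              field_simp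
            rw [h1]
            have h2 : ((s : ℝ) + 4) ^ 3 ≤ (5 * s) ^ 3 := pow_le_pow_left₀ (by positivity) (by linarith) 3
            calc (Real.exp (a + h) - Real.exp a) * (Cd * ((s : ℝ) + 4) ^ 3 * (κ * X))
                ≤ (Real.exp a * (2 * h)) * (Cd * ((s : ℝ) + 4) ^ 3 * (κ * X)) :=
                  mul_le_mul_of_nonneg_right hlen2 (by positivity)
              _ ≤ (Real.exp a * (2 * h)) * (Cd * (5 * s) ^ 3 * (κ * X)) := by
                  refine mul_le_mul_of_nonneg_left ?_ (by positivity)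
                  gcongr
              _ = Real.exp a * h * X * (250 * Cd * (s : ℝ) ^ 3 * κ) := by ring
      _ = _ := by ring
  -- nonsquarefree part
  have hpart2 : ∑ n ∈ (Rw (Real.exp (κ * X)) a h).filter (fun n => ¬ Squarefree n), |L2 n - Wt a b n| ≤
      Real.exp a * h * X * (τ / 2) := by
    calc ∑ n ∈ (Rw (Real.exp (κ * X)) a h).filter (fun n => ¬ Squarefree n), |L2 n - Wt a b n|
        ≤ ∑ n ∈ (Rw (Real.exp (κ * X)) a h).filter (fun n => ¬ Squarefree n), (B + 1) * (3 * X) ^ 2 := by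
          refine sum_le_sum fun n hn => ?_
          obtain ⟨hn1, hn2⟩ := mem_filter.1 hn
          obtain ⟨h1, h2, h3⟩ := hmem n hn1
          exact pn22 h1 ha0 ha3 (by linarith) (hBn n hn1)
      _ = 9 * (B + 1) * X ^ 2 * (((Rw (Real.exp (κ * X)) a h).filter (fun n => ¬ Squarefree n)).card : ℝ) := by
          rw [sum_const, nsmul_eq_mul]
          ring
      _ ≤ Real.exp a * h := hnsq
      _ = Real.exp a * h * (τ / 2) * (2 / τ) := by
          field_simp
      _ ≤ Real.exp a * h * (τ / 2) * X := mul_le_mul_of_nonneg_left hXf (by positivity)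
      _ = Real.exp a * h * X * (τ / 2) := by ring
  calc _ ≤ (Real.exp a * h * X * (250 * Cd * (s : ℝ) ^ 3 * κ) + Real.exp a * h * X * (τ / 2)) +
        Real.exp a * h * X * (τ / 2) := add_le_add hpart1 hpart2
    _ = Real.exp a * h * X * (250 * Cd * (s : ℝ) ^ 3 * κ + τ) := by ring

end Pool.Agent.Helper34.HO
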