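import Pool.Agent.Helper34.HO.Defs
import Pool.Agent.Helper85.PW.Rough

/-! Block HO-2: Mertens for the product `Vz` and for the rough numbers. -/

set_option autoImplicit false

namespace Pool.Agent.Helper34.HO

open Finset

theorem Vz_le : ∃ C : ℝ, 0 < C ∧ ∀ z : ℝ, 2 ≤ z → Vz z ≤ C / Real.log z := by
  obtain ⟨_, C, _, hC, h⟩ := Pool.Agent.PW.VV_bounds
  exact ⟨C, hC, fun z hz => (h z hz).2⟩

theorem rough_sum : ∃ C : ℝ, 0 < C ∧ ∀ z b : ℝ, 2 ≤ z → Real.log z ≤ b →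
    ∑ d ∈ Rd z b, 1 / (d : ℝ) ≤ C * (b / Real.log z) := by
  obtain ⟨C, hC, h⟩ := Pool.Agent.PW.sum_RR
  refine ⟨C, hC, fun z b hz hzb => ?_⟩
  have hz0 : 0 < z := by linarith
  have h1 := h z (Real.exp b) hz ((Real.le_exp_log z).trans (Real.exp_le_exp.2 hzb))
  rw [Real.log_exp] at h1
  have e : Rd z b = (Icc 1 ⌊Real.exp b⌋₊).filter (Pool.Agent.PW.RR z) := by
    unfold Rd
    refine filter_congr fun n hn => ?_
    have hn1 := (mem_Icc.1 hn).1
    unfold Rough Pool.Agent.PW.RR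
    constructor
    · rintro ⟨_, h5⟩ p hp hpz hpn
      exact absurd (h5 p hp hpn) (not_le.2 hpz)
    · intro h5
      refine ⟨by omega, fun p hp hpn => ?_⟩
      by_contra hcon
      exact h5 p hp (not_le.1 hcon) hpn
  rw [e, ← mul_div_assoc]
  exact h1

end Pool.Agent.Helper34.HO
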