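import Pool.Agent.Helper34.HO.TypeI
import Pool.Agent.Helper34.HO.Rough

/-! Block HO-5a: rough numbers of a window and their small divisors. -/

set_option autoImplicit false

namespace Pool.Agent.Helper34.HO

open Finset

private theorem Vz_nonneg34 (z : ℝ) : 0 ≤ Vz z := by
  unfold Vz
  refine prod_nonneg fun p hp => ?_
  have h1 : (1 : ℝ) ≤ p := by exact_mod_cast (mem_filter.1 hp).2.one_lt.le
  have h2 : 1 / (p : ℝ) ≤ 1 := by rw [div_le_one (by linarith)]; exact h1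
  linarith

private theorem FL_le34 {s : ℕ} {ε z₀ : ℝ} (hF : FL s ε z₀) (hε1 : ε ≤ 1) {z a h : ℝ} (hz : z₀ ≤ z) (hh : 0 ≤ h)
    (hb : z ^ (s + 1) ≤ Real.exp (a + h) - Real.exp a) : ((Rw z a h).card : ℝ) ≤ 2 * (Vz z * (Real.exp (a + h) - Real.exp a)) := by
  have h1 := (abs_le.1 (hF z hz a h hh hb)).2
  have h2 : 0 ≤ Real.exp (a + h) - Real.exp a := by
    have := Real.exp_le_exp.2 (show a ≤ a + h by linarith)
    linarith
  have h3 : 0 ≤ Vz z * (Real.exp (a + h) - Real.exp a) := mul_nonneg (Vz_nonneg34 z) h2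
  nlinarith

/-- The number of rough numbers of a window. -/
theorem card_Rw : ∃ C : ℝ, 0 < C ∧ ∀ (s : ℕ) (ε z₀ : ℝ), FL s ε z₀ → 0 ≤ ε → ε ≤ 1 → ∀ z a h : ℝ, z₀ ≤ z → 2 ≤ z → 0 ≤ h →
    z ^ (s + 1) ≤ Real.exp (a + h) - Real.exp a →
    ((Rw z a h).card : ℝ) ≤ C * (Real.exp (a + h) - Real.exp a) / Real.log z := by
  obtain ⟨C, hC, hV⟩ := Vz_le
  refine ⟨2 * C, by positivity, fun s ε z₀ hF _ hε1 z a h hz hz2 hh hb => ?_⟩
  have h2 : 0 ≤ Real.exp (a + h) - Real.exp a := by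
    have := Real.exp_le_exp.2 (show a ≤ a + h by linarith)
    linarith
  refine (FL_le34 hF hε1 hz hh hb).trans ?_
  have h3 := mul_le_mul_of_nonneg_right (hV z hz2) h2
  calc 2 * (Vz z * (Real.exp (a + h) - Real.exp a)) ≤ 2 * (C / Real.log z * (Real.exp (a + h) - Real.exp a)) := by linarith
    _ = _ := by ring

/-- The divisors `e`, `1 < e ≤ e^v`, of the rough numbers of a window (they are rough; exchange the sums and use `card_mult`, `FL`
for the windows at `a - log e`, `Vz_le` and `rough_sum`). -/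
theorem div_count : ∃ C : ℝ, 0 < C ∧ ∀ (s : ℕ) (ε z₀ : ℝ), FL s ε z₀ → 0 ≤ ε → ε ≤ 1 → ∀ z a v h : ℝ, z₀ ≤ z → 2 ≤ z → 0 ≤ h →
    Real.log z ≤ v → z ^ (s + 1) ≤ Real.exp (-v) * (Real.exp (a + h) - Real.exp a) →
    ∑ n ∈ Rw z a h, ((n.divisors.filter (fun e : ℕ => 1 < e ∧ (e : ℝ) ≤ Real.exp v)).card : ℝ) ≤
      C * (Real.exp (a + h) - Real.exp a) * v / Real.log z ^ 2 := by
  obtain ⟨C, hC, hV⟩ := Vz_le
  obtain ⟨D, hD, hR⟩ := rough_sum
  refine ⟨2 * C * D, by positivity, fun s ε z₀ hF _ hε1 z a v h hz hz2 hh hv hb => ?_⟩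
  have hlen : 0 ≤ Real.exp (a + h) - Real.exp a := by
    have := Real.exp_le_exp.2 (show a ≤ a + h by linarith)
    linarith
  have hlz : 0 < Real.log z := Real.log_pos (by linarith)
  have h1 : ∀ n ∈ Rw z a h, ((n.divisors.filter (fun e : ℕ => 1 < e ∧ (e : ℝ) ≤ Real.exp v)).card : ℝ) ≤
      ∑ e ∈ Rd z v, if e ∣ n then (1 : ℝ) else 0 := by
    intro n hn
    rw [← sum_filter, sum_const, nsmul_eq_mul, mul_one]
    refine Nat.cast_le.2 (card_le_card ?_)
    intro e he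
    obtain ⟨he1, he2, he3⟩ := mem_filter.1 he
    have hd := (Nat.mem_divisors.1 he1).1
    have hr : Rough z n := (mem_filter.1 hn).2.2
    unfold Rd
    rw [mem_filter, mem_filter, mem_Icc]
    refine ⟨⟨⟨he2.le, Nat.le_floor he3⟩, by omega, fun p hp hpe => hr.2 p hp (hpe.trans hd)⟩, hd⟩
  have h2 : ∀ e ∈ Rd z v, ∑ n ∈ Rw z a h, (if e ∣ n then (1 : ℝ) else 0) ≤
      2 * (C / Real.log z * (Real.exp (a + h) - Real.exp a)) * (1 / (e : ℝ)) := by
    intro e he
    unfold Rd at he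
    obtain ⟨he1, he2⟩ := mem_filter.1 he
    obtain ⟨he3, he4⟩ := mem_Icc.1 he1
    have he0 : (0 : ℝ) < e := by exact_mod_cast he3
    have he5 : (e : ℝ) ≤ Real.exp v := (Nat.cast_le.2 he4).trans (Nat.floor_le (Real.exp_pos v).le)
    rw [← sum_filter, sum_const, nsmul_eq_mul, mul_one, card_mult he2]
    have e1 : Real.exp (a - Real.log e + h) - Real.exp (a - Real.log e) = (Real.exp (a + h) - Real.exp a) * (1 / (e : ℝ)) := by
      rw [show a - Real.log e + h = (a + h) - Real.log e by ring, Real.exp_sub, Real.exp_sub, Real.exp_log he0]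
      ring
    have h3 : z ^ (s + 1) ≤ Real.exp (a - Real.log e + h) - Real.exp (a - Real.log e) := by
      refine hb.trans ?_
      rw [e1, mul_comm]
      refine mul_le_mul_of_nonneg_left ?_ hlen
      rw [Real.exp_neg, one_div]
      exact inv_anti₀ he0 he5
    refine (FL_le34 hF hε1 hz hh h3).trans ?_
    rw [e1]
    have h4 := mul_le_mul_of_nonneg_right (hV z hz2) (show 0 ≤ (Real.exp (a + h) - Real.exp a) * (1 / (e : ℝ)) by positivity)
    calc 2 * (Vz z * ((Real.exp (a + h) - Real.exp a) * (1 / (e : ℝ)))) ≤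
          2 * (C / Real.log z * ((Real.exp (a + h) - Real.exp a) * (1 / (e : ℝ)))) := by linarith
      _ = _ := by ring
  refine (sum_le_sum h1).trans ?_
  rw [sum_comm]
  refine (sum_le_sum h2).trans ?_
  rw [← mul_sum]
  have h5 := mul_le_mul_of_nonneg_left (hR z v hz2 hv) (show 0 ≤ 2 * (C / Real.log z * (Real.exp (a + h) - Real.exp a)) by positivity)
  refine h5.trans (le_of_eq ?_)
  field_simp

end Pool.Agent.Helper34.HO
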