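import Pool.Agent.Helper34.HO.Defs
import Pool.Agent.Helper85.PW.FL

/-! Block HO-1: the fundamental lemma of the sieve, with a relative error `ε`, `ε s ^ 6` as small as we want. -/

set_option autoImplicit false

namespace Pool.Agent.Helper34.HO

open Finset

theorem fund (c : ℝ) (hc : 0 < c) : ∃ (s : ℕ) (ε z₀ : ℝ), 1 ≤ s ∧ 0 ≤ ε ∧ ε ≤ 1 ∧ ε * (s : ℝ) ^ 6 ≤ c ∧ 2 ≤ z₀ ∧ FL s ε z₀ := by
  obtain ⟨s, hs, ε, hε, hεs, z₀, hz₀, h⟩ := Pool.Agent.PW.FL (min c 1) (lt_min hc one_pos)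
  have hs0 : (0 : ℝ) ≤ s := Nat.cast_nonneg s
  refine ⟨s, ε, z₀, hs, hε.le, ?_, ?_, hz₀, ?_⟩
  · have h1 : (1 : ℝ) ≤ ((s : ℝ) + 4) ^ 6 := one_le_pow₀ (by linarith)
    calc ε = ε * 1 := (mul_one _).symm
      _ ≤ ε * ((s : ℝ) + 4) ^ 6 := mul_le_mul_of_nonneg_left h1 hε.le
      _ ≤ 1 := hεs.trans (min_le_right _ _)
  · calc ε * (s : ℝ) ^ 6 ≤ ε * ((s : ℝ) + 4) ^ 6 :=
          mul_le_mul_of_nonneg_left (pow_le_pow_left₀ hs0 (by linarith) 6) hε.le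
      _ ≤ c := hεs.trans (min_le_left _ _)
  · intro z hz a h' _ hlen
    have h1 := h z hz (Real.exp a) (Real.exp (a + h')) (Real.exp_pos a).le hlen
    have e : Rw z a h' = (Ico ⌈Real.exp a⌉₊ ⌈Real.exp (a + h')⌉₊).filter (Pool.Agent.PW.RR z) := by
      unfold Rw Rough Pool.Agent.PW.RR
      ext n
      simp only [mem_filter, mem_range, mem_Ico, Nat.ceil_le]
      constructor
      · rintro ⟨h2, h3, _, h5⟩
        refine ⟨⟨h3, h2⟩, fun p hp hpz hpn => ?_⟩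
        exact absurd (h5 p hp hpn) (not_le.2 hpz)
      · rintro ⟨⟨h3, h2⟩, h5⟩
        refine ⟨h2, h3, ?_, fun p hp hpn => ?_⟩
        · have h4 : (0 : ℝ) < n := lt_of_lt_of_le (Real.exp_pos a) h3
          exact_mod_cast h4
        · by_contra hcon
          exact h5 p hp (not_le.1 hcon) hpn
    have eV : Vz z = Pool.Agent.PW.VV z := rfl
    rw [e, eV, ← mul_assoc]
    exact h1

end Pool.Agent.Helper34.HO
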