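import Pool.Agent.Helper34.HO.Defs
import Pool.Agent.Helper84.EA.Mert

/-! Block HO-8: the first theorem of Mertens for `t1`. -/

set_option autoImplicit false

namespace Pool.Agent.Helper34.HO

open Finset

/-- The sum over the primes below `e^t`. -/
private noncomputable def F95 (t : ℝ) : ℝ := ∑ p ∈ (range ⌈Real.exp t⌉₊).filter Nat.Prime, Real.log p / p

private theorem F95_bound : ∃ C : ℝ, 0 < C ∧ ∀ t : ℝ, 0 ≤ t → |F95 t - t| ≤ C := by
  obtain ⟨C, hC, h⟩ := Pool.Agent.Helper51.EA.mert1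
  refine ⟨C + 1, by linarith, fun t ht => ?_⟩
  obtain ⟨N, hN⟩ : ∃ N, ⌈Real.exp t⌉₊ = N + 1 := by
    have h1 : 0 < ⌈Real.exp t⌉₊ := Nat.ceil_pos.2 (Real.exp_pos t)
    exact ⟨⌈Real.exp t⌉₊ - 1, by omega⟩
  have h1 : (N : ℝ) < Real.exp t := by
    have : N < ⌈Real.exp t⌉₊ := by omega
    exact Nat.lt_ceil.1 this
  have h2 : Real.exp t ≤ N + 1 := by
    have := Nat.le_ceil (Real.exp t)
    rw [hN] at this
    push_cast at this
    exact this
  unfold F95
  rw [hN]
  by_cases hN0 : N = 0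
  · subst hN0
    have h3 : Real.exp t ≤ 1 := by simpa using h2
    have h4 : t ≤ 0 := by
      rw [← Real.exp_zero] at h3
      exact Real.exp_le_exp.1 h3
    have h5 : t = 0 := le_antisymm h4 ht
    subst h5
    have h6 : (range (0 + 1)).filter Nat.Prime = ∅ := by decide
    rw [h6]
    simp
    linarith
  · have hN1 : 1 ≤ N := Nat.one_le_iff_ne_zero.2 hN0
    have h3 := h N hN1
    have h4 : Pool.Agent.Helper5.RM.PP N = (range (N + 1)).filter Nat.Prime := by
      ext p
      simp only [Pool.Agent.Helper5.RM.PP, Finset.mem_filter, Finset.mem_Icc, Finset.mem_range]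
      constructor
      · rintro ⟨⟨_, h5⟩, h6⟩
        exact ⟨by omega, h6⟩
      · rintro ⟨h5, h6⟩
        exact ⟨⟨h6.one_le, by omega⟩, h6⟩
    rw [h4] at h3
    have hNr : (1 : ℝ) ≤ N := by exact_mod_cast hN1
    have h5 : Real.log N ≤ t := by
      rw [← Real.log_exp t]
      exact Real.log_le_log (by linarith) h1.le
    have h6 : t ≤ Real.log N + 1 := by
      have h7 : Real.exp t ≤ N * Real.exp 1 := by
        have h8 : (2 : ℝ) ≤ Real.exp 1 := by
          have := Real.add_one_le_exp (1 : ℝ)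
          linarith
        nlinarith
      have h9 := Real.log_le_log (Real.exp_pos t) h7
      rw [Real.log_exp, Real.log_mul (by linarith) (Real.exp_pos 1).ne', Real.log_exp] at h9
      exact h9
    rw [abs_le] at h3 ⊢
    constructor <;> linarith [h3.1, h3.2]

private theorem F95_sub (u v : ℝ) (huv : u ≤ v) :
    F95 v - F95 u = ∑ p ∈ (range ⌈Real.exp v⌉₊).filter (fun p : ℕ => p.Prime ∧ Real.exp u ≤ (p : ℝ)), Real.log p / p := by
  have h1 : (range ⌈Real.exp u⌉₊).filter Nat.Prime ⊆ (range ⌈Real.exp v⌉₊).filter Nat.Prime := by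
    apply Finset.filter_subset_filter
    rw [Finset.range_subset_range]
    exact Nat.ceil_le_ceil (Real.exp_le_exp.2 huv)
  unfold F95
  rw [← Finset.sum_sdiff h1, add_sub_cancel_right]
  apply Finset.sum_congr _ (fun _ _ => rfl)
  ext p
  simp only [Finset.mem_sdiff, Finset.mem_filter, Finset.mem_range]
  constructor
  · rintro ⟨⟨h2, h3⟩, h4⟩
    refine ⟨h2, h3, ?_⟩
    by_contra h5
    push Not at h5
    exact h4 ⟨Nat.lt_ceil.2 h5, h3⟩
  · rintro ⟨h2, h3, h4⟩
    refine ⟨⟨h2, h3⟩, fun h5 => ?_⟩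
    have := Nat.lt_ceil.1 h5.1
    linarith

private theorem t1_eq95 (z B u v : ℝ) :
    t1 (Pz z B) wp lp u (v - u) = ∑ p ∈ (Pz z B).filter (fun p : ℕ => u ≤ Real.log p ∧ Real.log p < v), Real.log p / p := by
  unfold t1 wp lp
  rw [Finset.sum_filter]
  refine Finset.sum_congr rfl fun p _ => ?_
  rw [add_sub_cancel]

theorem mert_t1 : ∃ M : ℝ, 0 < M ∧ ∀ z B u v : ℝ, 1 ≤ z → 0 ≤ u → u ≤ v →
    t1 (Pz z B) wp lp u (v - u) ≤ v - u + M ∧
    (Real.log z ≤ u → v ≤ B → v - u - M ≤ t1 (Pz z B) wp lp u (v - u)) := by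
  obtain ⟨C, hC, h⟩ := F95_bound
  refine ⟨2 * C, by linarith, fun z B u v hz hu huv => ?_⟩
  have h1 := h u hu
  have h2 := h v (hu.trans huv)
  rw [abs_le] at h1 h2
  have hlog : ∀ p : ℕ, p.Prime → ∀ t : ℝ, (t ≤ Real.log p ↔ Real.exp t ≤ (p : ℝ)) := by
    intro p hp t
    exact Real.le_log_iff_exp_le (by exact_mod_cast hp.pos)
  have hlog' : ∀ p : ℕ, p.Prime → ∀ t : ℝ, (Real.log p < t ↔ (p : ℝ) < Real.exp t) := by
    intro p hp t
    exact Real.log_lt_iff_lt_exp (by exact_mod_cast hp.pos)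
  constructor
  · have h3 : t1 (Pz z B) wp lp u (v - u) ≤ F95 v - F95 u := by
      rw [t1_eq95, F95_sub u v huv]
      apply Finset.sum_le_sum_of_subset_of_nonneg
      · intro p hp
        unfold Pz at hp
        simp only [Finset.mem_filter, Finset.mem_range] at hp ⊢
        obtain ⟨⟨-, hpp, -⟩, h5, h6⟩ := hp
        exact ⟨Nat.lt_ceil.2 ((hlog' p hpp v).1 h6), hpp, (hlog p hpp u).1 h5⟩
      · intro p hp _
        have hpp := (Finset.mem_filter.1 hp).2.1
        have : (1 : ℝ) ≤ p := by exact_mod_cast hpp.one_le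
        have := Real.log_nonneg this
        positivity
    linarith [h1.1, h1.2, h2.1, h2.2]
  · intro hzu hvB
    have h3 : F95 v - F95 u = t1 (Pz z B) wp lp u (v - u) := by
      rw [t1_eq95, F95_sub u v huv]
      apply Finset.sum_congr _ (fun _ _ => rfl)
      ext p
      unfold Pz
      simp only [Finset.mem_filter, Finset.mem_range]
      constructor
      · rintro ⟨h4, hpp, h5⟩
        have h6 := Nat.lt_ceil.1 h4
        refine ⟨⟨Nat.lt_ceil.2 (h6.trans_le (Real.exp_le_exp.2 hvB)), hpp, ?_⟩, (hlog p hpp u).2 h5, (hlog' p hpp v).2 h6⟩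
        have h7 : z ≤ Real.exp u := (Real.log_le_iff_le_exp (by linarith)).1 hzu
        linarith
      · rintro ⟨⟨-, hpp, -⟩, h5, h6⟩
        exact ⟨Nat.lt_ceil.2 ((hlog' p hpp v).1 h6), hpp, (hlog p hpp u).1 h5⟩
    linarith [h1.1, h1.2, h2.1, h2.2]

end Pool.Agent.Helper34.HO
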