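import Pool.Agent.Helper34.HO.Avg
import Pool.Agent.Helper34.HO.Fund

/-! Block HO-10: Selberg formula in short windows, from `fund`, `winA`, `avg`, `conn`. -/

set_option autoImplicit false

namespace Pool.Agent.Helper34.HO

open Finset

private theorem expS34 {h : ℝ} (h0 : 0 ≤ h) (h1 : h ≤ 1 / 2) : Real.exp (2 * h) ≤ 1 + 4 * h := by
  have h2 := Real.exp_bound' (x := 2 * h) (by linarith) (by linarith) (n := 1) (by norm_num)
  norm_num at h2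
  linarith

private theorem finS34 {a h X T S V C1 C2 E τ δ κ₁ : ℝ} (hh : 0 < h) (hh2 : h ≤ 1 / 2) (hX : 1 ≤ X) (ha1 : κ₁ * X ≤ a)
    (ha2 : a ≤ 3 / 2 * X) (hδ : 0 < δ) (hδ1 : δ ≤ 1) (hκ1 : κ₁ ≤ 1) (hτ : 0 < τ)
    (hhτ : 16 * h ≤ τ) (hE : (C1 + C2) * E + 4 * τ ≤ δ * κ₁) (hT0 : 0 ≤ T)
    (e1 : |S - h * V| ≤ h * X * (C1 * E + τ)) (e2 : |V - 2 * a| ≤ X * (C2 * E + τ)) (e3 : T ≤ S + τ * h)
    (e4 : S ≤ Real.exp (2 * h) * T + τ * h) : |T - 2 * a * h| ≤ δ * a * h := by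
  have hX0 : 0 < X := by linarith
  have hhX : 0 < h * X := by positivity
  obtain ⟨p1, p2⟩ := abs_le.1 e1
  obtain ⟨q1, q2⟩ := abs_le.1 e2
  have q3 := mul_le_mul_of_nonneg_left q1 hh.le
  have q4 := mul_le_mul_of_nonneg_left q2 hh.le
  have r1 : τ * h ≤ τ * (h * X) := by
    have := mul_le_mul_of_nonneg_left hX (mul_pos hτ hh).le
    linarith
  have hE2 : (h * X) * ((C1 + C2) * E + 4 * τ) ≤ (h * X) * (δ * κ₁) := mul_le_mul_of_nonneg_left hE hhX.le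
  have hfin : (h * X) * (δ * κ₁) ≤ δ * a * h := by
    have := mul_le_mul_of_nonneg_left ha1 (mul_pos hδ hh).le
    linarith
  have hδκ : δ * κ₁ ≤ 1 := by nlinarith
  have s1 : T ≤ 2 * a * h + (h * X) * ((C1 + C2) * E + 3 * τ) := by linarith
  have s2 : T ≤ 4 * (h * X) := by
    have i1 : 2 * a * h ≤ 3 * (h * X) := by
      have := mul_le_mul_of_nonneg_right ha2 hh.le
      linarith
    have i2 : (h * X) * ((C1 + C2) * E + 4 * τ) ≤ h * X := by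
      have := mul_le_mul_of_nonneg_left hδκ hhX.le
      linarith
    have i3 : 0 < (h * X) * τ := by positivity
    linarith
  have s3 : Real.exp (2 * h) * T ≤ T + τ * (h * X) := by
    have i1 := mul_le_mul_of_nonneg_right (expS34 hh.le hh2) hT0
    have i2 := mul_le_mul_of_nonneg_left s2 (show 0 ≤ 4 * h by linarith)
    have i3 := mul_le_mul_of_nonneg_right hhτ hhX.le
    linarith
  have i3 : 0 < (h * X) * τ := by positivity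
  rw [abs_le]
  constructor
  · linarith
  · linarith

/-- **Selberg's formula in short windows.** -/
theorem selberg (δ κ₁ : ℝ) (hδ : 0 < δ) (hδ1 : δ ≤ 1) (hκ₁ : 0 < κ₁) (hκ1 : κ₁ ≤ 1) : ∃ κ h₀ X₀ : ℝ, 0 < κ ∧ κ ≤ δ * κ₁ ∧ 0 < h₀ ∧
    ∀ X a h : ℝ, X₀ ≤ X → κ₁ * X ≤ a → a ≤ 3 / 2 * X → Real.exp (-(κ * X)) ≤ h → h ≤ h₀ →
    |a * t1 (Pz (Real.exp (κ * X)) (2 * X)) wp lp a h + t2 (Pz (Real.exp (κ * X)) (2 * X)) wp lp a h - 2 * a * h| ≤ δ * a * h := by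
  obtain ⟨C1, hC1, hA⟩ := winA
  obtain ⟨C2, hC2, hB⟩ := avg
  obtain ⟨G, hG⟩ : ∃ G : ℝ, G = 4 * (C1 + C2) + 10 := ⟨_, rfl⟩
  have hG0 : 0 < G := by rw [hG]; positivity
  have hδκ : 0 < δ * κ₁ := by positivity
  obtain ⟨s, ε, z₀, hs, hε0, hε1, hεs, hz₀, hFL⟩ := fund ((δ * κ₁) ^ 3 / (4 * (C1 + C2) * G ^ 2)) (by positivity)
  have hs1 : (1 : ℝ) ≤ s := by exact_mod_cast hs
  have hs3 : (s : ℝ) ≤ (s : ℝ) ^ 3 := le_self_pow₀ hs1 (by norm_num)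
  have hs0 : (0 : ℝ) < (s : ℝ) ^ 3 := by positivity
  obtain ⟨κ, hκd⟩ : ∃ κ : ℝ, κ = δ * κ₁ / (G * (s : ℝ) ^ 3) := ⟨_, rfl⟩
  have hκ : 0 < κ := by rw [hκd]; positivity
  have hκG : κ * (G * (s : ℝ) ^ 3) = δ * κ₁ := by rw [hκd]; field_simp
  have hδκ1 : δ * κ₁ ≤ κ₁ := by nlinarith
  have hsκ : (2 * s + 8) * κ ≤ κ₁ := by
    have h1 : (2 * (s : ℝ) + 8) ≤ G * (s : ℝ) ^ 3 := by
      have : 10 * (s : ℝ) ^ 3 ≤ G * (s : ℝ) ^ 3 := mul_le_mul_of_nonneg_right (by rw [hG]; linarith) hs0.le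
      linarith
    have h2 := mul_le_mul_of_nonneg_right h1 hκ.le
    linarith
  have hκδ : κ ≤ δ * κ₁ := by
    have h1 : 1 ≤ G * (s : ℝ) ^ 3 := by
      have : 10 * (s : ℝ) ^ 3 ≤ G * (s : ℝ) ^ 3 := mul_le_mul_of_nonneg_right (by rw [hG]; linarith) hs0.le
      linarith
    have h2 := mul_le_mul_of_nonneg_left h1 hκ.le
    linarith
  have hE : (C1 + C2) * (ε / κ ^ 2 + (s : ℝ) ^ 3 * κ) + 4 * (δ * κ₁ / 16) ≤ δ * κ₁ := by
    have h1 : (C1 + C2) * ((s : ℝ) ^ 3 * κ) ≤ δ * κ₁ / 4 := by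
      have : (4 * (C1 + C2)) * ((s : ℝ) ^ 3 * κ) ≤ G * ((s : ℝ) ^ 3 * κ) :=
        mul_le_mul_of_nonneg_right (by rw [hG]; linarith) (by positivity)
      linarith
    have h2 : (C1 + C2) * (ε / κ ^ 2) ≤ δ * κ₁ / 4 := by
      have e1 : ε / κ ^ 2 = ε * (s : ℝ) ^ 6 * (G ^ 2 / (δ * κ₁) ^ 2) := by
        rw [hκd]; field_simp
      rw [e1]
      have h3 : ε * (s : ℝ) ^ 6 * (G ^ 2 / (δ * κ₁) ^ 2) ≤ (δ * κ₁) ^ 3 / (4 * (C1 + C2) * G ^ 2) * (G ^ 2 / (δ * κ₁) ^ 2) :=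
        mul_le_mul_of_nonneg_right hεs (by positivity)
      have h4 := mul_le_mul_of_nonneg_left h3 (show 0 ≤ C1 + C2 by positivity)
      refine h4.trans (le_of_eq ?_)
      have : C1 + C2 ≠ 0 := by positivity
      field_simp
    linarith
  obtain ⟨X₁, h₁, hh₁, hA⟩ := hA s ε z₀ hs hFL hε0 hε1 κ κ₁ (δ * κ₁ / 16) hκ hκ1 hsκ (by positivity)
  obtain ⟨X₂, hB⟩ := hB s ε z₀ hs hFL hε0 hε1 κ κ₁ (δ * κ₁ / 16) hκ hκ1 hsκ (by positivity)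
  obtain ⟨X₃, hC⟩ := conn κ κ₁ (δ * κ₁ / 16) hκ (by nlinarith) hκ1 (by positivity)
  refine ⟨κ, min h₁ (min (1 / 2) (δ * κ₁ / 256)), max (max X₁ X₂) (max X₃ 2), hκ, hκδ, by positivity, fun X a h hX ha1 ha2 hh1 hh2 => ?_⟩
  have k1 : X₁ ≤ X := (le_max_left _ _).trans ((le_max_left _ _).trans hX)
  have k2 : X₂ ≤ X := (le_max_right _ _).trans ((le_max_left _ _).trans hX)
  have k3 : X₃ ≤ X := (le_max_left _ _).trans ((le_max_right _ _).trans hX)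
  have k4 : 2 ≤ X := (le_max_right _ _).trans ((le_max_right _ _).trans hX)
  have m1 : h ≤ h₁ := hh2.trans (min_le_left _ _)
  have m2 : h ≤ 1 / 2 := hh2.trans ((min_le_right _ _).trans (min_le_left _ _))
  have m3 : h ≤ δ * κ₁ / 256 := hh2.trans ((min_le_right _ _).trans (min_le_right _ _))
  have hh : 0 < h := lt_of_lt_of_le (Real.exp_pos _) hh1
  have hX0 : 0 < X := by linarith
  have hκX : 0 < κ * X := by positivity
  have a1 := hA X a (a - (s + 2) * (κ * X)) h k1 ha1 (by linarith) (by linarith) le_rfl hh1 m1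
  have a2 := hB X a k2 ha1 ha2
  have a3 := hC X a h k3 ha1 (by linarith) hh1 (by linarith) (2 * X) (by linarith)
  obtain ⟨z, hz⟩ : ∃ z : ℝ, z = Real.exp (κ * X) := ⟨_, rfl⟩
  rw [← hz] at a1 a2 a3 ⊢
  have hw : ∀ p ∈ Pz z (2 * X), 0 ≤ wp p := fun p _ => wp_nonneg p
  have ha0 : 0 ≤ a := le_trans (by positivity) ha1
  refine finS34 (S := Real.exp (-a) * ∑ n ∈ Rw z a h, L2 n) (V := Vz z * Qz z a (a - (s + 2) * (κ * X))) (C1 := C1) (C2 := C2)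
    (E := ε / κ ^ 2 + (s : ℝ) ^ 3 * κ) (τ := δ * κ₁ / 16) (κ₁ := κ₁) (X := X) hh m2 (by linarith) ha1 ha2 hδ hδ1 hκ1 (by positivity)
    (by linarith) hE (add_nonneg (mul_nonneg ha0 (t1_nonneg hw _ _)) (t2_nonneg hw _ _)) ?_ a2 a3.1 a3.2
  have h5 : Real.exp (-a) * Real.exp a = 1 := by rw [← Real.exp_add, neg_add_cancel, Real.exp_zero]
  have h4 : Real.exp (-a) * ∑ n ∈ Rw z a h, L2 n - h * (Vz z * Qz z a (a - (s + 2) * (κ * X))) = Real.exp (-a) *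
      (∑ n ∈ Rw z a h, L2 n - Real.exp a * h * (Vz z * Qz z a (a - (s + 2) * (κ * X)))) := by
    linear_combination (h * (Vz z * Qz z a (a - (s + 2) * (κ * X)))) * h5
  have h6 : Real.exp (-a) * (Real.exp a * h * X * (C1 * (ε / κ ^ 2 + (s : ℝ) ^ 3 * κ) + δ * κ₁ / 16)) =
      h * X * (C1 * (ε / κ ^ 2 + (s : ℝ) ^ 3 * κ) + δ * κ₁ / 16) := by
    linear_combination (h * X * (C1 * (ε / κ ^ 2 + (s : ℝ) ^ 3 * κ) + δ * κ₁ / 16)) * h5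
  rw [h4, abs_mul, abs_of_pos (Real.exp_pos _), ← h6]
  exact mul_le_mul_of_nonneg_left a1 (Real.exp_pos _).le

end Pool.Agent.Helper34.HO
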