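import Pool.Agent.Helper34.HO.Defs

/-! Block HO-4: the sum of `Wt` over the rough numbers of a window. For a rough `d ≤ e^b` the multiples of `d` in `Rw z a h` are the
`d m`, `m ∈ Rw z (a - log d) h`, and a divisor `d` of a rough number is rough; use `FL` for the window at `a - log d`. -/

set_option autoImplicit false

namespace Pool.Agent.Helper34.HO

open Finset

private theorem rough_mul62 {z : ℝ} {d m : ℕ} (hd : Rough z d) : Rough z (d * m) ↔ Rough z m := by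
  constructor
  · rintro ⟨h0, h1⟩
    refine ⟨Nat.pos_of_ne_zero fun h => ?_, fun p hp hpm => h1 p hp (hpm.mul_left d)⟩
    subst h
    simp at h0
  · rintro ⟨h0, h1⟩
    refine ⟨Nat.mul_pos hd.1 h0, fun p hp hpm => ?_⟩
    rcases (hp.dvd_mul).1 hpm with h | h
    · exact hd.2 p hp h
    · exact h1 p hp h

private theorem rough_dvd62 {z : ℝ} {d n : ℕ} (hn : Rough z n) (hd : d ∣ n) : Rough z d :=
  ⟨Nat.pos_of_dvd_of_pos hd hn.1, fun p hp hpd => hn.2 p hp (hpd.trans hd)⟩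

private theorem exp_sub_log62 {d : ℕ} (hd : 0 < d) (x : ℝ) :
    Real.exp (x - Real.log d) = Real.exp x / d := by
  rw [Real.exp_sub, Real.exp_log (by exact_mod_cast hd)]

private theorem mem_Rw62 {z a h : ℝ} {n : ℕ} :
    n ∈ Rw z a h ↔ (n : ℝ) < Real.exp (a + h) ∧ Real.exp a ≤ (n : ℝ) ∧ Rough z n := by
  unfold Rw
  rw [mem_filter, mem_range, Nat.lt_ceil]

/-- The number of multiples of a rough number. -/
theorem card_mult {z a h : ℝ} {d : ℕ} (hd : Rough z d) :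
    ((Rw z a h).filter (fun n => d ∣ n)).card = (Rw z (a - Real.log d) h).card := by
  symm
  have hd0 : (0 : ℝ) < d := by exact_mod_cast hd.1
  have e1 : Real.exp (a - Real.log d + h) = Real.exp (a + h) / d := by
    rw [← exp_sub_log62 hd.1 (a + h)]
    congr 1
    ring
  have e2 : Real.exp (a - Real.log d) = Real.exp a / d := exp_sub_log62 hd.1 a
  have key : ∀ m : ℕ, m ∈ Rw z (a - Real.log d) h ↔ d * m ∈ Rw z a h := by
    intro m
    rw [mem_Rw62, mem_Rw62, rough_mul62 hd, e1, e2, Nat.cast_mul, lt_div_iff₀ hd0, div_le_iff₀ hd0,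
      mul_comm (m : ℝ) (d : ℝ)]
  refine Finset.card_bij (fun m _ => d * m) ?_ ?_ ?_
  · intro m hm
    rw [mem_filter]
    exact ⟨(key m).1 hm, Dvd.intro m rfl⟩
  · intro m _ m' _ hmm
    exact Nat.eq_of_mul_eq_mul_left hd.1 hmm
  · intro n hn
    rw [mem_filter] at hn
    obtain ⟨m, rfl⟩ := hn.2
    exact ⟨m, (key m).2 hn.1, rfl⟩

private theorem mem_Rd62 {z b : ℝ} {d : ℕ} : d ∈ Rd z b ↔ (d : ℝ) ≤ Real.exp b ∧ Rough z d := by
  unfold Rd
  rw [mem_filter, mem_Icc, Nat.le_floor_iff (Real.exp_pos b).le]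
  constructor
  · rintro ⟨⟨_, h2⟩, h3⟩
    exact ⟨h2, h3⟩
  · rintro ⟨h2, h3⟩
    exact ⟨⟨h3.1, h2⟩, h3⟩

private theorem Wt_eq62 {z a b : ℝ} {n : ℕ} (hn : Rough z n) :
    Wt a b n = ∑ d ∈ Rd z b, if d ∣ n then (ArithmeticFunction.moebius d : ℝ) * (a - Real.log d) ^ 2 else 0 := by
  unfold Wt
  rw [← Finset.sum_filter]
  refine Finset.sum_congr ?_ fun _ _ => rfl
  ext d
  rw [mem_filter, mem_filter, mem_Rd62, Nat.mem_divisors]
  constructor
  · rintro ⟨⟨h1, _⟩, h3⟩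
    exact ⟨⟨h3, rough_dvd62 hn h1⟩, h1⟩
  · rintro ⟨⟨h1, _⟩, h3⟩
    exact ⟨⟨h3, hn.1.ne'⟩, h1⟩

private theorem sum_Wt62 (z a b h : ℝ) :
    ∑ n ∈ Rw z a h, Wt a b n = ∑ d ∈ Rd z b, (ArithmeticFunction.moebius d : ℝ) * (a - Real.log d) ^ 2 *
      ((Rw z (a - Real.log d) h).card : ℝ) := by
  rw [Finset.sum_congr rfl fun n hn => Wt_eq62 (z := z) (a := a) (b := b) (mem_Rw62.1 hn).2.2, Finset.sum_comm]
  refine Finset.sum_congr rfl fun d hd => ?_
  rw [← Finset.sum_filter, Finset.sum_const, nsmul_eq_mul, card_mult (mem_Rd62.1 hd).2]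
  ring

theorem typeI {s : ℕ} {ε z₀ : ℝ} (hF : FL s ε z₀) {z a b h : ℝ} (hz : z₀ ≤ z) (hh : 0 ≤ h)
    (hb : z ^ (s + 1) ≤ Real.exp (-b) * (Real.exp (a + h) - Real.exp a)) :
    |∑ n ∈ Rw z a h, Wt a b n - (Real.exp (a + h) - Real.exp a) * Vz z * Qz z a b| ≤
      ε * (Real.exp (a + h) - Real.exp a) * Vz z * ∑ d ∈ Rd z b, (a - Real.log d) ^ 2 / (d : ℝ) := by
  have hI : 0 ≤ Real.exp (a + h) - Real.exp a := by
    have := Real.exp_le_exp.2 (show a ≤ a + h by linarith)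
    linarith
  rw [sum_Wt62]
  unfold Qz
  rw [Finset.mul_sum, Finset.mul_sum, ← Finset.sum_sub_distrib]
  refine (Finset.abs_sum_le_sum_abs _ _).trans (Finset.sum_le_sum fun d hd => ?_)
  obtain ⟨hd1, hd2⟩ := mem_Rd62.1 hd
  have hd0 : (0 : ℝ) < d := by exact_mod_cast hd2.1
  have e0 : Real.exp (a - Real.log d + h) - Real.exp (a - Real.log d) = (Real.exp (a + h) - Real.exp a) / d := by
    rw [show a - Real.log d + h = (a + h) - Real.log d by ring, exp_sub_log62 hd2.1, exp_sub_log62 hd2.1]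
    ring
  have hlow : z ^ (s + 1) ≤ Real.exp (a - Real.log d + h) - Real.exp (a - Real.log d) := by
    rw [e0]
    refine hb.trans ?_
    rw [Real.exp_neg, inv_mul_eq_div]
    exact div_le_div_of_nonneg_left hI hd0 hd1
  have hfl := hF z hz (a - Real.log d) h hh hlow
  rw [e0] at hfl
  have e1 : (ArithmeticFunction.moebius d : ℝ) * (a - Real.log d) ^ 2 * ((Rw z (a - Real.log d) h).card : ℝ) -
      (Real.exp (a + h) - Real.exp a) * Vz z * ((ArithmeticFunction.moebius d : ℝ) / d * (a - Real.log d) ^ 2) =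
      (ArithmeticFunction.moebius d : ℝ) * ((a - Real.log d) ^ 2 *
        (((Rw z (a - Real.log d) h).card : ℝ) - Vz z * ((Real.exp (a + h) - Real.exp a) / d))) := by
    ring
  rw [e1, abs_mul, abs_mul, abs_of_nonneg (sq_nonneg (a - Real.log d))]
  have h1 : |((ArithmeticFunction.moebius d : ℤ) : ℝ)| ≤ 1 := by
    have h2 : |(ArithmeticFunction.moebius d : ℤ)| ≤ 1 := ArithmeticFunction.abs_moebius_le_one
    exact_mod_cast h2
  have h3 : (a - Real.log d) ^ 2 * |((Rw z (a - Real.log d) h).card : ℝ) - Vz z * ((Real.exp (a + h) - Real.exp a) / d)| ≤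
      (a - Real.log d) ^ 2 * (ε * (Vz z * ((Real.exp (a + h) - Real.exp a) / d))) :=
    mul_le_mul_of_nonneg_left hfl (sq_nonneg _)
  have h4 : 0 ≤ (a - Real.log d) ^ 2 * |((Rw z (a - Real.log d) h).card : ℝ) - Vz z * ((Real.exp (a + h) - Real.exp a) / d)| := by
    positivity
  calc |((ArithmeticFunction.moebius d : ℤ) : ℝ)| * ((a - Real.log d) ^ 2 *
        |((Rw z (a - Real.log d) h).card : ℝ) - Vz z * ((Real.exp (a + h) - Real.exp a) / d)|)
      ≤ 1 * ((a - Real.log d) ^ 2 * (ε * (Vz z * ((Real.exp (a + h) - Real.exp a) / d)))) :=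
        mul_le_mul h1 h3 h4 zero_le_one
    _ = ε * (Real.exp (a + h) - Real.exp a) * Vz z * ((a - Real.log d) ^ 2 / (d : ℝ)) := by ring

end Pool.Agent.Helper34.HO
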