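import Pool.Agent.Helper34.HO.Rough

/-! Block HO-6a: the main term. -/

set_option autoImplicit false

namespace Pool.Agent.Helper34.HO

open Finset

private theorem Vz_nonneg_47 (z : ℝ) : 0 ≤ Vz z := by
  unfold Vz
  refine prod_nonneg fun p hp => ?_
  have hp' := (mem_filter.1 hp).2
  have h1 : (1 : ℝ) ≤ p := by exact_mod_cast hp'.one_lt.le
  have h2 : 1 / (p : ℝ) ≤ 1 := by
    rw [div_le_one (by linarith)]; exact h1
  linarith

private theorem Rd_log_47 {z b : ℝ} {d : ℕ} (hd : d ∈ Rd z b) :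
    (0 : ℝ) < d ∧ 0 ≤ Real.log d ∧ Real.log d ≤ b := by
  unfold Rd at hd
  have h1 := mem_Icc.1 (mem_filter.1 hd).1
  have h2 : (1 : ℝ) ≤ d := by exact_mod_cast h1.1
  have h3 : (d : ℝ) ≤ Real.exp b := (Nat.le_floor_iff (Real.exp_pos b).le).1 h1.2
  refine ⟨by linarith, Real.log_nonneg h2, ?_⟩
  have h4 := Real.log_le_log (by linarith) h3
  rwa [Real.log_exp] at h4

private theorem base_47 : ∃ C₁ C₂ : ℝ, 0 < C₁ ∧ 0 < C₂ ∧ ∀ κ X a b : ℝ, 0 < κ → κ ≤ 1 →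
    1 ≤ κ * X → a ≤ 2 * X → κ * X ≤ b → b ≤ a →
    0 < X ∧ Vz (Real.exp (κ * X)) ≤ C₂ / (κ * X) ∧
      ∑ d ∈ Rd (Real.exp (κ * X)) b, 1 / (d : ℝ) ≤ 2 * C₁ / κ := by
  obtain ⟨C₂, hC₂, hV⟩ := Vz_le
  obtain ⟨C₁, hC₁, hR⟩ := rough_sum
  refine ⟨C₁, C₂, hC₁, hC₂, ?_⟩
  intro κ X a b hκ hκ1 hκX ha hb hba
  have hX : 0 < X := by
    by_contra hcon
    push Not at hcon
    have := mul_nonpos_of_nonneg_of_nonpos hκ.le hcon
    linarith
  have hz : 2 ≤ Real.exp (κ * X) := by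
    have := Real.add_one_le_exp (κ * X)
    linarith
  have h1 := hV _ hz
  have h2 := hR _ b hz (by rw [Real.log_exp]; exact hb)
  rw [Real.log_exp] at h1 h2
  refine ⟨hX, h1, h2.trans ?_⟩
  have h3 : b / (κ * X) ≤ 2 / κ := by
    rw [div_le_div_iff₀ (by positivity) hκ]
    have := mul_le_mul_of_nonneg_right (hba.trans ha) hκ.le
    linarith
  calc C₁ * (b / (κ * X)) ≤ C₁ * (2 / κ) := mul_le_mul_of_nonneg_left h3 hC₁.le
    _ = 2 * C₁ / κ := by ring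

/-- Trivial bound of the main term (`Vz_le`, `rough_sum`). -/
theorem VQ_le : ∃ C : ℝ, 0 < C ∧ ∀ κ X a b : ℝ, 0 < κ → κ ≤ 1 → 1 ≤ κ * X → 0 ≤ a → a ≤ 2 * X → κ * X ≤ b → b ≤ a →
    Vz (Real.exp (κ * X)) * ∑ d ∈ Rd (Real.exp (κ * X)) b, (a - Real.log d) ^ 2 / (d : ℝ) ≤ C * X / κ ^ 2 := by
  obtain ⟨C₁, C₂, hC₁, hC₂, hb⟩ := base_47
  refine ⟨8 * C₁ * C₂, by positivity, ?_⟩
  intro κ X a b hκ hκ1 hκX ha ha2 hb1 hba
  obtain ⟨hX, h1, h2⟩ := hb κ X a b hκ hκ1 hκX ha2 hb1 hba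
  have h3 : ∑ d ∈ Rd (Real.exp (κ * X)) b, (a - Real.log d) ^ 2 / (d : ℝ) ≤
      4 * X ^ 2 * (2 * C₁ / κ) := by
    calc ∑ d ∈ Rd (Real.exp (κ * X)) b, (a - Real.log d) ^ 2 / (d : ℝ)
        ≤ ∑ d ∈ Rd (Real.exp (κ * X)) b, 4 * X ^ 2 * (1 / (d : ℝ)) := by
          refine sum_le_sum fun d hd => ?_
          obtain ⟨hd0, hl0, hl1⟩ := Rd_log_47 hd
          rw [mul_one_div]
          refine div_le_div_of_nonneg_right ?_ hd0.le
          have e1 : 0 ≤ a - Real.log d := by linarith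
          have e2 : a - Real.log d ≤ 2 * X := by linarith
          nlinarith
      _ = 4 * X ^ 2 * ∑ d ∈ Rd (Real.exp (κ * X)) b, 1 / (d : ℝ) := by rw [mul_sum]
      _ ≤ _ := mul_le_mul_of_nonneg_left h2 (by positivity)
  have h4 : 0 ≤ ∑ d ∈ Rd (Real.exp (κ * X)) b, (a - Real.log d) ^ 2 / (d : ℝ) :=
    sum_nonneg fun d _ => by positivity
  calc Vz (Real.exp (κ * X)) * ∑ d ∈ Rd (Real.exp (κ * X)) b, (a - Real.log d) ^ 2 / (d : ℝ)
      ≤ C₂ / (κ * X) * ∑ d ∈ Rd (Real.exp (κ * X)) b, (a - Real.log d) ^ 2 / (d : ℝ) :=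
        mul_le_mul_of_nonneg_right h1 h4
    _ ≤ C₂ / (κ * X) * (4 * X ^ 2 * (2 * C₁ / κ)) :=
        mul_le_mul_of_nonneg_left h3 (by positivity)
    _ = 8 * C₁ * C₂ * X / κ ^ 2 := by field_simp; ring

/-- `Vz Qz` changes little with the centre. -/
theorem VQ_lip : ∃ C : ℝ, 0 < C ∧ ∀ κ X a a' b : ℝ, 0 < κ → κ ≤ 1 → 1 ≤ κ * X → 0 ≤ a → a ≤ a' → a' ≤ 2 * X → κ * X ≤ b → b ≤ a →
    |Vz (Real.exp (κ * X)) * Qz (Real.exp (κ * X)) a' b - Vz (Real.exp (κ * X)) * Qz (Real.exp (κ * X)) a b| ≤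
      C * (a' - a) / κ ^ 2 := by
  obtain ⟨C₁, C₂, hC₁, hC₂, hb⟩ := base_47
  refine ⟨8 * C₁ * C₂, by positivity, ?_⟩
  intro κ X a a' b hκ hκ1 hκX ha haa' ha2 hb1 hba
  obtain ⟨hX, h1, h2⟩ := hb κ X a b hκ hκ1 hκX (haa'.trans ha2) hb1 hba
  have h3 : |Qz (Real.exp (κ * X)) a' b - Qz (Real.exp (κ * X)) a b| ≤
      4 * X * (a' - a) * (2 * C₁ / κ) := by
    unfold Qz
    rw [← sum_sub_distrib]
    refine (abs_sum_le_sum_abs _ _).trans ?_
    calc _ ≤ ∑ d ∈ Rd (Real.exp (κ * X)) b, 4 * X * (a' - a) * (1 / (d : ℝ)) := by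
          refine sum_le_sum fun d hd => ?_
          obtain ⟨hd0, hl0, hl1⟩ := Rd_log_47 hd
          have e : (ArithmeticFunction.moebius d : ℝ) / (d : ℝ) * (a' - Real.log d) ^ 2 -
              (ArithmeticFunction.moebius d : ℝ) / (d : ℝ) * (a - Real.log d) ^ 2 =
              (ArithmeticFunction.moebius d : ℝ) * ((a' - a) * (a' + a - 2 * Real.log d)) *
                (1 / (d : ℝ)) := by
            field_simp; ring
          rw [e, abs_mul, abs_mul, abs_of_nonneg (show 0 ≤ 1 / (d : ℝ) by positivity)]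
          refine mul_le_mul_of_nonneg_right ?_ (by positivity)
          have m1 : |(ArithmeticFunction.moebius d : ℝ)| ≤ 1 := by
            exact_mod_cast ArithmeticFunction.abs_moebius_le_one
          have m2 : |(a' - a) * (a' + a - 2 * Real.log d)| ≤ 4 * X * (a' - a) := by
            rw [abs_of_nonneg (mul_nonneg (by linarith) (by linarith))]
            have := mul_le_mul_of_nonneg_left (show a' + a - 2 * Real.log d ≤ 4 * X by linarith)
              (show 0 ≤ a' - a by linarith)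
            linarith
          calc _ ≤ 1 * (4 * X * (a' - a)) :=
                mul_le_mul m1 m2 (abs_nonneg _) zero_le_one
            _ = _ := one_mul _
      _ = 4 * X * (a' - a) * ∑ d ∈ Rd (Real.exp (κ * X)) b, 1 / (d : ℝ) := by rw [mul_sum]
      _ ≤ _ := by
          refine mul_le_mul_of_nonneg_left h2 ?_
          have : 0 ≤ a' - a := by linarith
          positivity
  rw [← mul_sub, abs_mul, abs_of_nonneg (Vz_nonneg_47 _)]
  have h5 : 0 ≤ a' - a := by linarith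
  calc Vz (Real.exp (κ * X)) * |Qz (Real.exp (κ * X)) a' b - Qz (Real.exp (κ * X)) a b|
      ≤ C₂ / (κ * X) * |Qz (Real.exp (κ * X)) a' b - Qz (Real.exp (κ * X)) a b| :=
        mul_le_mul_of_nonneg_right h1 (abs_nonneg _)
    _ ≤ C₂ / (κ * X) * (4 * X * (a' - a) * (2 * C₁ / κ)) :=
        mul_le_mul_of_nonneg_left h3 (by positivity)
    _ = 8 * C₁ * C₂ * (a' - a) / κ ^ 2 := by field_simp; ring

end Pool.Agent.Helper34.HO
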