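import Pool.Agent.Helper34.HO.Diff
import Pool.Agent.Helper34.HO.VQ
import Pool.Agent.Helper34.HO.TypeI

/-! Block HO-6: the formula (A) of the paper, from `typeI`, `diff` and `VQ_le`. -/

set_option autoImplicit false

namespace Pool.Agent.Helper34.HO

open Finset
open scoped ArithmeticFunction.Moebius

private theorem Vz_nonneg32 (z : ℝ) : 0 ≤ Vz z := by
  unfold Vz
  refine Finset.prod_nonneg fun p hp => ?_
  have hp' : p.Prime := (Finset.mem_filter.1 hp).2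
  have h1 : (1 : ℝ) ≤ p := by exact_mod_cast hp'.one_lt.le
  have h2 : 1 / (p : ℝ) ≤ 1 := by
    rw [div_le_one (by linarith)]
    exact h1
  linarith

private theorem absQz32 (z a b : ℝ) : |Qz z a b| ≤ ∑ d ∈ Rd z b, (a - Real.log d) ^ 2 / (d : ℝ) := by
  unfold Qz
  refine (Finset.abs_sum_le_sum_abs _ _).trans (Finset.sum_le_sum fun d _ => ?_)
  have h1 : |((μ d : ℤ) : ℝ)| ≤ 1 := by
    have h2 : |(μ d : ℤ)| ≤ 1 := ArithmeticFunction.abs_moebius_le_one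
    exact_mod_cast h2
  rw [abs_mul, abs_div, abs_of_nonneg (sq_nonneg (a - Real.log d)), Nat.abs_cast]
  rcases Nat.eq_zero_or_pos d with h0 | h0
  · subst h0
    simp
  · have hd : (0 : ℝ) < d := by exact_mod_cast h0
    rw [div_mul_eq_mul_div]
    refine div_le_div_of_nonneg_right ?_ hd.le
    calc |((μ d : ℤ) : ℝ)| * (a - Real.log d) ^ 2 ≤ 1 * (a - Real.log d) ^ 2 :=
          mul_le_mul_of_nonneg_right h1 (sq_nonneg _)
      _ = _ := one_mul _

private theorem exp_sub32 {h : ℝ} (h0 : 0 ≤ h) (h1 : h ≤ 1) :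
    h ≤ Real.exp h - 1 ∧ Real.exp h - 1 - h ≤ h ^ 2 := by
  have e1 := Real.add_one_le_exp h
  refine ⟨by linarith, ?_⟩
  have h2 := Real.abs_exp_sub_one_sub_id_le (x := h) (by rw [abs_of_nonneg h0]; exact h1)
  exact (le_abs_self _).trans h2

theorem winA : ∃ C : ℝ, 0 < C ∧ ∀ (s : ℕ) (ε z₀ : ℝ), 1 ≤ s → FL s ε z₀ → 0 ≤ ε → ε ≤ 1 → ∀ κ κ₁ τ : ℝ, 0 < κ → κ₁ ≤ 1 →
    (2 * s + 8) * κ ≤ κ₁ → 0 < τ → ∃ X₀ h₀ : ℝ, 0 < h₀ ∧ ∀ X a b h : ℝ, X₀ ≤ X → κ₁ * X ≤ a → a ≤ 2 * X →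
    a - (s + 3) * (κ * X) ≤ b → b ≤ a - (s + 2) * (κ * X) → Real.exp (-(κ * X)) ≤ h → h ≤ h₀ →
    |∑ n ∈ Rw (Real.exp (κ * X)) a h, L2 n - Real.exp a * h * (Vz (Real.exp (κ * X)) * Qz (Real.exp (κ * X)) a b)| ≤
      Real.exp a * h * X * (C * (ε / κ ^ 2 + (s : ℝ) ^ 3 * κ) + τ) := by
  obtain ⟨C₁, hC₁, hdiff⟩ := diff
  obtain ⟨C₂, hC₂, hVQ⟩ := VQ_le
  refine ⟨C₁ + 2 * C₂, by positivity, ?_⟩
  intro s ε z₀ hs hF hε0 hε1 κ κ₁ τ hκ hκ₁ hsκ hτ
  obtain ⟨X₁, hX₁⟩ := hdiff s ε z₀ hs hF hε0 hε1 κ κ₁ (τ / 2) hκ hκ₁ hsκ (by positivity)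
  refine ⟨max X₁ (max (1 / κ) (Real.log (max z₀ 1) / κ)), min 1 (τ * κ ^ 2 / (2 * C₂)), by positivity, ?_⟩
  intro X a b h hX ha1 ha2 hb1 hb2 hh1 hh2
  have hXa : X₁ ≤ X := (le_max_left _ _).trans hX
  have hXb : 1 / κ ≤ X := ((le_max_left _ _).trans (le_max_right _ _)).trans hX
  have hXc : Real.log (max z₀ 1) / κ ≤ X := ((le_max_right _ _).trans (le_max_right _ _)).trans hX
  have hs0 : (1 : ℝ) ≤ s := by exact_mod_cast hs
  have hκX : 1 ≤ κ * X := by
    rw [div_le_iff₀ hκ] at hXb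
    linarith
  have hX0 : 0 < X := by
    by_contra hn
    push Not at hn
    nlinarith
  have hκ1 : κ ≤ 1 := by nlinarith
  have ha0 : 0 ≤ a := by nlinarith
  have hbκ : κ * X ≤ b := by
    have h1 : (2 * s + 8) * (κ * X) ≤ κ₁ * X := by
      have := mul_le_mul_of_nonneg_right hsκ hX0.le
      linarith
    nlinarith
  have hba : b ≤ a := by nlinarith
  have hh0 : 0 < h := (Real.exp_pos _).trans_le hh1
  have hhle : h ≤ 1 := hh2.trans (min_le_left _ _)
  have hhτ : h ≤ τ * κ ^ 2 / (2 * C₂) := hh2.trans (min_le_right _ _)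
  set z := Real.exp (κ * X) with hz
  have hz0 : z₀ ≤ z := by
    have h1 : Real.log (max z₀ 1) ≤ κ * X := by
      rw [div_le_iff₀ hκ] at hXc
      linarith
    have h2 : (0 : ℝ) < max z₀ 1 := lt_of_lt_of_le one_pos (le_max_right _ _)
    have h3 := (Real.log_le_iff_le_exp h2).1 h1
    exact (le_max_left _ _).trans h3
  obtain ⟨e1, e2⟩ := exp_sub32 hh0.le hhle
  have hea : 0 < Real.exp a := Real.exp_pos a
  set I := Real.exp (a + h) - Real.exp a with hI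
  have hI' : I = Real.exp a * (Real.exp h - 1) := by
    rw [hI, Real.exp_add]
    ring
  have hI1 : Real.exp a * h ≤ I := by
    rw [hI']
    exact mul_le_mul_of_nonneg_left e1 hea.le
  have hI2 : I ≤ 2 * (Real.exp a * h) := by
    rw [hI']
    have h1 : Real.exp h - 1 ≤ 2 * h := by nlinarith
    calc Real.exp a * (Real.exp h - 1) ≤ Real.exp a * (2 * h) := mul_le_mul_of_nonneg_left h1 hea.le
      _ = _ := by ring
  have hI0 : 0 ≤ I := (mul_nonneg hea.le hh0.le).trans hI1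
  have hI3 : |I - Real.exp a * h| ≤ Real.exp a * h ^ 2 := by
    rw [abs_of_nonneg (by linarith), hI']
    calc Real.exp a * (Real.exp h - 1) - Real.exp a * h = Real.exp a * (Real.exp h - 1 - h) := by ring
      _ ≤ Real.exp a * h ^ 2 := mul_le_mul_of_nonneg_left e2 hea.le
  have hlev : z ^ (s + 1) ≤ Real.exp (-b) * I := by
    have h1 : z ^ (s + 1) = Real.exp ((s + 1) * (κ * X)) := by
      rw [hz, ← Real.exp_nat_mul]
      congr 1
      push_cast
      ring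
    have h2 : Real.exp ((s + 1) * (κ * X)) ≤ Real.exp (-b) * (Real.exp a * Real.exp (-(κ * X))) := by
      rw [← Real.exp_add, ← Real.exp_add]
      refine Real.exp_le_exp.2 ?_
      linarith
    rw [h1]
    refine h2.trans ?_
    refine mul_le_mul_of_nonneg_left ?_ (Real.exp_pos _).le
    exact (mul_le_mul_of_nonneg_left hh1 hea.le).trans hI1
  have hT := typeI hF hz0 hh0.le hlev
  have hD := hX₁ X a b h hXa ha1 ha2 hb1 hb2 hh1 hhle
  have hV := hVQ κ X a b hκ hκ1 hκX ha0 ha2 hbκ hba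
  rw [← hz] at hD hV
  have hV0 := Vz_nonneg32 z
  set Sd := ∑ d ∈ Rd z b, (a - Real.log d) ^ 2 / (d : ℝ) with hSd
  have hQ : |Vz z * Qz z a b| ≤ C₂ * X / κ ^ 2 := by
    rw [abs_mul, abs_of_nonneg hV0]
    exact (mul_le_mul_of_nonneg_left (absQz32 z a b) hV0).trans hV
  have hA0 : 0 ≤ Real.exp a * h * X := by positivity
  -- the three errors
  have t1 : |∑ n ∈ Rw z a h, Wt a b n - I * Vz z * Qz z a b| ≤ Real.exp a * h * X * (2 * C₂ * (ε / κ ^ 2)) := by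
    refine hT.trans ?_
    calc ε * I * Vz z * Sd = ε * I * (Vz z * Sd) := by ring
      _ ≤ ε * I * (C₂ * X / κ ^ 2) := mul_le_mul_of_nonneg_left hV (mul_nonneg hε0 hI0)
      _ ≤ ε * (2 * (Real.exp a * h)) * (C₂ * X / κ ^ 2) := by
          refine mul_le_mul_of_nonneg_right (mul_le_mul_of_nonneg_left hI2 hε0) (by positivity)
      _ = _ := by ring
  have t2 : |I * Vz z * Qz z a b - Real.exp a * h * (Vz z * Qz z a b)| ≤ Real.exp a * h * X * (τ / 2) := by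
    have h1 : I * Vz z * Qz z a b - Real.exp a * h * (Vz z * Qz z a b) = (I - Real.exp a * h) * (Vz z * Qz z a b) := by
      ring
    rw [h1, abs_mul]
    calc |I - Real.exp a * h| * |Vz z * Qz z a b| ≤ Real.exp a * h ^ 2 * (C₂ * X / κ ^ 2) :=
          mul_le_mul hI3 hQ (abs_nonneg _) (by positivity)
      _ = Real.exp a * h * X * (h * (C₂ / κ ^ 2)) := by ring
      _ ≤ Real.exp a * h * X * (τ / 2) := by
          refine mul_le_mul_of_nonneg_left ?_ hA0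
          calc h * (C₂ / κ ^ 2) ≤ τ * κ ^ 2 / (2 * C₂) * (C₂ / κ ^ 2) :=
                mul_le_mul_of_nonneg_right hhτ (by positivity)
            _ = τ / 2 := by field_simp
  have hsplit : ∑ n ∈ Rw z a h, L2 n - Real.exp a * h * (Vz z * Qz z a b) =
      (∑ n ∈ Rw z a h, L2 n - ∑ n ∈ Rw z a h, Wt a b n) +
      (∑ n ∈ Rw z a h, Wt a b n - I * Vz z * Qz z a b) +
      (I * Vz z * Qz z a b - Real.exp a * h * (Vz z * Qz z a b)) := by ring
  rw [hsplit]
  refine (abs_add_three _ _ _).trans ?_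
  have hsum := add_le_add (add_le_add hD t1) t2
  refine hsum.trans ?_
  have h9 : Real.exp a * h * X * (C₁ * (s : ℝ) ^ 3 * κ + τ / 2) + Real.exp a * h * X * (2 * C₂ * (ε / κ ^ 2)) +
      Real.exp a * h * X * (τ / 2) = Real.exp a * h * X * (C₁ * ((s : ℝ) ^ 3 * κ) + 2 * C₂ * (ε / κ ^ 2) + τ) := by
    ring
  rw [h9]
  refine mul_le_mul_of_nonneg_left ?_ hA0
  have h10 : 0 ≤ ε / κ ^ 2 := by positivity
  have h11 : 0 ≤ (s : ℝ) ^ 3 * κ := by positivity
  nlinarith [mul_nonneg hC₁.le h10, mul_nonneg hC₂.le h11]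

end Pool.Agent.Helper34.HO
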